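import Pool.Agent.Helper63.HM.Rainbow

/-! # Rainbow matchings in hypergraphs with a fractional condition: the choice -/

set_option autoImplicit false
set_option linter.unusedSectionVars false

namespace Pool.Agent.Helper63.HM

open Finset

section hall

variable {V Q X : Type} [LinearOrder V] [Fintype V] [Fintype Q] [LinearOrder X] [Fintype X]
  (R : V → Q → Prop) (col : V → X) (a : V → ℝ)

/-- the edges with colours in `Y` -/
def Wc (Y : Finset X) : Finset V := univ.filter (fun v => col v ∈ Y)

/-- the operator of one colour -/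
noncomputable def Dx (x : X) : Module.End ℝ (Finset V → ℝ) :=
  D a (univ.filter (fun v => col v = x))

theorem D_col : D a univ = ∑ x, Dx col a x := by
  unfold Dx D
  rw [← Finset.sum_fiberwise univ col]

theorem Dx_anti (x y : X) : Dx col a x * Dx col a y = -(Dx col a y * Dx col a x) :=
  D_anti a _ _

theorem Dx_sq (x : X) : Dx col a x * Dx col a x = 0 := D_sq a _

/-- the composition for a list of colours -/
noncomputable def T : List X → Module.End ℝ (Finset V → ℝ)
  | [] => 1
  | x :: L => T L * Dx col a x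

theorem T_D_mem {y : X} : ∀ {L : List X}, y ∈ L → T col a L * Dx col a y = 0
  | [], h => by simp at h
  | x :: L, h => by
    rcases List.mem_cons.1 h with rfl | h
    · change T col a L * Dx col a y * Dx col a y = 0
      rw [mul_assoc, Dx_sq, mul_zero]
    · have ih := T_D_mem h
      refine LinearMap.ext fun f => ?_
      change T col a L (Dx col a x (Dx col a y f)) = 0
      have h1 : Dx col a x (Dx col a y f) = -(Dx col a y (Dx col a x f)) :=
        LinearMap.congr_fun (Dx_anti col a x y) f
      have h2 : T col a L (Dx col a y (Dx col a x f)) = 0 :=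
        LinearMap.congr_fun ih (Dx col a x f)
      rw [h1, map_neg, h2, neg_zero]

theorem T_zero {y : X} : ∀ {L : List X}, y ∈ L → ∀ {f : Finset V → ℝ}, Dx col a y f = 0 →
    T col a L f = 0
  | [], h, _, _ => by simp at h
  | x :: L, h, f, hf => by
    change T col a L (Dx col a x f) = 0
    rcases List.mem_cons.1 h with rfl | h
    · rw [hf, map_zero]
    · refine T_zero h ?_
      have h1 : (Dx col a y * Dx col a x) f = -((Dx col a x * Dx col a y) f) := by
        rw [Dx_anti]
        rfl
      rw [Module.End.mul_apply, Module.End.mul_apply, hf, map_zero, neg_zero] at h1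
      exact h1

theorem T_ext : ∀ (L : List X) (f : Finset V → ℝ) (τ : Finset V), T col a L f τ ≠ 0 →
    ∃ σ, f σ ≠ 0 ∧ ∀ x ∈ L, ∃ v ∈ σ, col v = x
  | [], f, τ, h => ⟨τ, h, fun x hx => by simp at hx⟩
  | x :: L, f, τ, h => by
    obtain ⟨σ, h1, h2⟩ := T_ext L (Dx col a x f) τ h
    unfold Dx at h1
    rw [D_apply] at h1
    obtain ⟨v, hv, hv2⟩ := Finset.exists_ne_zero_of_sum_ne_zero h1
    rw [dn_apply] at hv2
    by_cases h4 : v ∈ σ
    · rw [if_pos h4] at hv2
      simp at hv2
    · rw [if_neg h4] at hv2
      have h5 : f (insert v σ) ≠ 0 := fun h => hv2 (by rw [h]; ring)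
      refine ⟨insert v σ, h5, fun y hy => ?_⟩
      rcases List.mem_cons.1 hy with rfl | hy
      · exact ⟨v, Finset.mem_insert_self v σ, (Finset.mem_filter.1 hv).2⟩
      · obtain ⟨u, hu, hu2⟩ := h2 y hy
        exact ⟨u, Finset.mem_insert_of_mem hu, hu2⟩

/-- no colour `y` in the support -/
theorem Dx_zero {y : X} {f : Finset V → ℝ} {Y : Finset X} (hf : ∀ τ, f τ ≠ 0 → τ ⊆ Wc col Y)
    (hy : y ∉ Y) : Dx col a y f = 0 := by
  funext τ
  unfold Dx
  rw [D_apply]
  refine Finset.sum_eq_zero fun v hv => ?_
  rw [dn_apply]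
  split_ifs with h1
  · ring
  · have : f (insert v τ) = 0 := by
      by_contra h2
      have h3 := hf _ h2 (Finset.mem_insert_self v τ)
      unfold Wc at h3
      rw [Finset.mem_filter, (Finset.mem_filter.1 hv).2] at h3
      exact hy h3.2
    rw [this]
    ring

/-- the right hand side of the boundary equation -/
noncomputable def bd (c : Finset X → Finset V → ℝ) (Y : Finset X) : Finset V → ℝ :=
  ∑ y ∈ Y, sn y Y • c (Y.erase y)

theorem sum_antisymm {M : Type} [AddCommGroup M] [Module ℝ M] (Y : Finset X) (F : X → X → M)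
    (hF : ∀ y ∈ Y, ∀ z ∈ Y, F y z = - F z y) : ∑ y ∈ Y, ∑ z ∈ Y, F y z = 0 := by
  refine eq_zero_of_neg ?_
  rw [Finset.sum_comm]
  nth_rw 2 [Finset.sum_comm]
  rw [← Finset.sum_neg_distrib]
  refine Finset.sum_congr rfl fun y hy => ?_
  rw [← Finset.sum_neg_distrib]
  exact Finset.sum_congr rfl fun z hz => hF z hz y hy

theorem D_bd {c : Finset X → Finset V → ℝ} {n : ℕ}
    (hc : ∀ Y : Finset X, Y.card ≤ n → D a univ (c Y) = bd c Y) {Y : Finset X}
    (hY : Y.card = n + 1) : D a univ (bd c Y) = 0 := by
  have h1 : D a univ (bd c Y) = ∑ y ∈ Y, ∑ z ∈ Y,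
      if y = z then 0 else (sn y Y * sn z (Y.erase y)) • c ((Y.erase y).erase z) := by
    unfold bd
    rw [map_sum]
    refine Finset.sum_congr rfl fun y hy => ?_
    rw [map_smul, hc (Y.erase y) (by rw [Finset.card_erase_of_mem hy]; omega)]
    unfold bd
    rw [Finset.smul_sum]
    have e := Finset.sum_erase Y (f := fun z => if y = z then (0 : Finset V → ℝ) else
      (sn y Y * sn z (Y.erase y)) • c ((Y.erase y).erase z)) (a := y) (if_pos rfl)
    rw [← e]
    refine Finset.sum_congr rfl fun z hz => ?_
    rw [if_neg (fun h => (Finset.mem_erase.1 hz).1 h.symm), smul_smul]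
  rw [h1]
  refine sum_antisymm Y _ fun y hy z hz => ?_
  by_cases hyz : y = z
  · rw [if_pos hyz, if_pos hyz.symm, neg_zero]
  · rw [if_neg hyz, if_neg (fun h => hyz h.symm), Finset.erase_right_comm, ← neg_smul]
    congr 1
    rw [sn_erase (u := y) hz, sn_erase (u := z) hy]
    have h3 : (if y < z then (-1 : ℝ) else 1) = - (if z < y then -1 else 1) := by
      rcases lt_or_gt_of_ne hyz with h | h
      · rw [if_pos h, if_neg (not_lt.2 h.le)]
      · rw [if_neg (not_lt.2 h.le), if_pos h]
        norm_num
    rw [h3]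
    ring

open Classical in
/-- the chains of all sets of colours -/
theorem family (hw : ∀ v, ∑ q ∈ univ.filter (fun q => R v q), ∑ u ∈ At R univ q, a u ^ 2 ≤ 1)
    (hx : ∀ x, 1 ≤ ∑ v ∈ univ.filter (fun v => col v = x), a v ^ 2) (n : ℕ) :
    ∃ c : Finset X → Finset V → ℝ, c ∅ ∅ ≠ 0 ∧ ∀ Y : Finset X, Y.card ≤ n →
      Sp R (Wc col Y) Y.card (c Y) ∧ D a univ (c Y) = bd c Y := by
  induction n with
  | zero =>
    refine ⟨fun _ τ => if τ = ∅ then 1 else 0, by simp, fun Y hY => ?_⟩
    have hY0 : Y = ∅ := Finset.card_eq_zero.1 (Nat.le_zero.1 hY)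
    subst hY0
    constructor
    · intro τ hτ
      have : τ = ∅ := by
        by_contra h
        exact hτ (if_neg h)
      subst this
      refine ⟨fun u hu => ?_, Finset.empty_subset _, rfl⟩
      simp at hu
    · unfold bd
      rw [Finset.sum_empty]
      funext τ
      rw [D_apply]
      refine Finset.sum_eq_zero fun v _ => ?_
      rw [dn_apply]
      split_ifs <;> simp
  | succ n ih =>
    obtain ⟨c, hc0, hc⟩ := ih
    have hex : ∀ Y : Finset X, Y.card = n + 1 → ∃ c' : Finset V → ℝ,
        Sp R (Wc col Y) (n + 1) c' ∧ D a univ c' = bd c Y := by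
      intro Y hY
      refine acyclic R a (Wc col Y) n hw ?_ ?_ (D_bd a (fun Y h => (hc Y h).2) hY)
      · have h1 : ∑ v ∈ Wc col Y, a v ^ 2 =
            ∑ y ∈ Y, ∑ v ∈ univ.filter (fun v => col v = y), a v ^ 2 := by
          unfold Wc
          rw [← Finset.sum_fiberwise_of_maps_to (t := Y) (g := col)
            (fun v hv => (Finset.mem_filter.1 hv).2)]
          refine Finset.sum_congr rfl fun y hy => ?_
          rw [Finset.filter_filter]
          refine Finset.sum_congr (Finset.filter_congr fun v _ => ?_) fun _ _ => rfl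
          constructor
          · exact fun h => h.2
          · intro h
            exact ⟨by rw [h]; exact hy, h⟩
        rw [h1]
        have h2 : ∑ y ∈ Y, (1 : ℝ) ≤ ∑ y ∈ Y, ∑ v ∈ univ.filter (fun v => col v = y), a v ^ 2 :=
          Finset.sum_le_sum fun y _ => hx y
        rw [Finset.sum_const, hY, nsmul_eq_mul, mul_one] at h2
        push_cast at h2
        linarith
      · intro τ hτ
        unfold bd at hτ
        rw [Finset.sum_apply] at hτ
        obtain ⟨y, hy, hy2⟩ := Finset.exists_ne_zero_of_sum_ne_zero hτ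
        have h3 : c (Y.erase y) τ ≠ 0 := fun h => hy2 (by rw [Pi.smul_apply, h, smul_zero])
        have hcard : (Y.erase y).card = n := by
          rw [Finset.card_erase_of_mem hy]
          omega
        obtain ⟨k1, k2, k3⟩ := (hc (Y.erase y) hcard.le).1 τ h3
        refine ⟨k1, k2.trans ?_, by rw [k3, hcard]⟩
        unfold Wc
        intro v hv
        rw [Finset.mem_filter] at hv ⊢
        exact ⟨hv.1, Finset.mem_of_mem_erase hv.2⟩
    choose! c' hc' using hex
    refine ⟨fun Y => if Y.card = n + 1 then c' Y else c Y, ?_, fun Y hY => ?_⟩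
    · simpa using hc0
    · have hbd : bd (fun Y => if Y.card = n + 1 then c' Y else c Y) Y = bd c Y := by
        unfold bd
        refine Finset.sum_congr rfl fun y hy => ?_
        have : (Y.erase y).card ≠ n + 1 := by
          rw [Finset.card_erase_of_mem hy]
          have := Finset.card_pos.2 ⟨y, hy⟩
          omega
        dsimp only
        rw [if_neg this]
      dsimp only
      rw [hbd]
      by_cases h1 : Y.card = n + 1
      · rw [if_pos h1]
        obtain ⟨k1, k2⟩ := hc' Y h1
        rw [h1]
        exact ⟨k1, k2⟩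
      · rw [if_neg h1]
        exact hc Y (by omega)

/-- the composition does not vanish on the chains -/
theorem T_ne {c : Finset X → Finset V → ℝ} (hc0 : c ∅ ∅ ≠ 0) {n : ℕ}
    (hc : ∀ Y : Finset X, Y.card ≤ n → Sp R (Wc col Y) Y.card (c Y) ∧ D a univ (c Y) = bd c Y) :
    ∀ (L : List X), L.Nodup → L.toFinset.card ≤ n → T col a L (c L.toFinset) ∅ ≠ 0
  | [], _, _ => hc0
  | x :: L, hL, hn => by
    obtain ⟨hxL, hL'⟩ := List.nodup_cons.1 hL
    have hxL' : x ∉ L.toFinset := fun h => hxL (List.mem_toFinset.1 h)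
    have hcons : (x :: L).toFinset = insert x L.toFinset := List.toFinset_cons
    rw [hcons] at hn ⊢
    have hcard := Finset.card_insert_of_notMem hxL'
    have ih := T_ne hc0 hc L hL' (by omega)
    obtain ⟨k1, k2⟩ := hc _ hn
    -- the left side
    have h1 : T col a L (D a univ (c (insert x L.toFinset))) =
        T col a L (Dx col a x (c (insert x L.toFinset))) := by
      rw [D_col col a, LinearMap.sum_apply, map_sum]
      refine Finset.sum_eq_single_of_mem x (Finset.mem_univ x) fun y _ hy => ?_
      by_cases hyL : y ∈ L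
      · change (T col a L * Dx col a y) (c (insert x L.toFinset)) = 0
        rw [T_D_mem col a hyL]
        rfl
      · rw [Dx_zero col a (Y := insert x L.toFinset) (fun τ hτ => (k1 τ hτ).2.1), map_zero]
        intro h
        rcases Finset.mem_insert.1 h with h | h
        · exact hy h
        · exact hyL (List.mem_toFinset.1 h)
    have h2 : T col a L (bd c (insert x L.toFinset)) =
        sn x (insert x L.toFinset) • T col a L (c L.toFinset) := by
      unfold bd
      rw [map_sum, Finset.sum_eq_single_of_mem x (Finset.mem_insert_self x _),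
        Finset.erase_insert hxL', map_smul]
      intro y hy hyx
      have hyL : y ∈ L := by
        rcases Finset.mem_insert.1 hy with h | h
        · exact absurd h hyx
        · exact List.mem_toFinset.1 h
      rw [map_smul]
      have hcy := hc ((insert x L.toFinset).erase y)
        ((Finset.card_le_card (Finset.erase_subset _ _)).trans hn)
      rw [T_zero col a hyL (Dx_zero col a (fun τ hτ => (hcy.1 τ hτ).2.1)
        (Finset.notMem_erase y _)), smul_zero]
    change T col a L (Dx col a x (c (insert x L.toFinset))) ∅ ≠ 0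
    rw [← h1, k2, h2, Pi.smul_apply, smul_eq_mul]
    exact mul_ne_zero (sn_ne _ _) ih

open Classical in
theorem rainbow_ord
    (hw : ∀ v, ∑ q ∈ univ.filter (fun q => R v q), ∑ u ∈ At R univ q, a u ^ 2 ≤ 1)
    (hx : ∀ x, 1 ≤ ∑ v ∈ univ.filter (fun v => col v = x), a v ^ 2) :
    ∃ f : X → V, (∀ x, col (f x) = x) ∧
      ∀ x y, x ≠ y → ∀ q, ¬ (R (f x) q ∧ R (f y) q) := by
  obtain ⟨c, hc0, hc⟩ := family R col a hw hx (Fintype.card X)
  have h1 := T_ne R col a hc0 hc (univ : Finset X).toList (Finset.nodup_toList _) (by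
    rw [Finset.toList_toFinset]
    exact le_rfl)
  rw [Finset.toList_toFinset] at h1
  obtain ⟨σ, h2, h3⟩ := T_ext col a _ _ _ h1
  obtain ⟨h4, -, -⟩ := (hc univ le_rfl).1 σ h2
  have h5 : ∀ x, ∃ v ∈ σ, col v = x := fun x => h3 x (Finset.mem_toList.2 (Finset.mem_univ x))
  choose f hf1 hf2 using h5
  refine ⟨f, hf2, fun x y hxy q => h4 (f x) (hf1 x) (f y) (hf1 y) ?_ q⟩
  intro h
  exact hxy (by rw [← hf2 x, ← hf2 y, h])

end hall

/-- **rainbow matchings**: `V` hyperedges, `R v q`: the hyperedge `v` uses the resource `q`, weights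
`w v`. If the resources of every hyperedge of positive weight carry total weight at most one, and every
colour has total weight at least one, then pairwise disjoint hyperedges of positive weight, one of
every colour, exist. -/
theorem rainbow {V Q X : Type} [Finite V] [Finite Q] [Finite X] (R : V → Q → Prop) (col : V → X)
    (w : V → ℝ) (hw0 : ∀ v, 0 ≤ w v)
    (hw : ∀ v, 0 < w v → ∑ᶠ q ∈ {q | R v q}, ∑ᶠ u ∈ {u | R u q}, w u ≤ 1)
    (hx : ∀ x, 1 ≤ ∑ᶠ v ∈ {v | col v = x}, w v) :
    ∃ f : X → V, (∀ x, col (f x) = x) ∧ (∀ x, 0 < w (f x)) ∧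
      ∀ x y, x ≠ y → ∀ q, ¬ (R (f x) q ∧ R (f y) q) := by
  classical
  have := Fintype.ofFinite V
  have := Fintype.ofFinite Q
  have := Fintype.ofFinite X
  let V' := {v : V // 0 < w v}
  letI : LinearOrder V' := LinearOrder.lift' (Fintype.equivFin V') (Fintype.equivFin V').injective
  letI : LinearOrder X := LinearOrder.lift' (Fintype.equivFin X) (Fintype.equivFin X).injective
  have hsub : ∀ p : V → Prop, ∑ᶠ u ∈ {u | p u}, w u =
      ∑ u ∈ (univ : Finset V').filter (fun u => p u.1), Real.sqrt (w u.1) ^ 2 := by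
    intro p
    rw [finsum_mem_eq_finite_toFinset_sum _ (Set.toFinite _)]
    have e1 : (Set.toFinite {u | p u}).toFinset = univ.filter p := by
      ext u
      simp
    rw [e1]
    have e2 : ∑ u ∈ univ.filter p, w u = ∑ u ∈ (univ.filter p).filter (fun u => 0 < w u), w u := by
      symm
      refine Finset.sum_filter_of_ne fun u _ h => ?_
      exact lt_of_le_of_ne (hw0 u) (Ne.symm h)
    rw [e2]
    symm
    refine Finset.sum_bij (fun u _ => u.1) ?_ ?_ ?_ ?_
    · intro u hu
      rw [Finset.mem_filter, Finset.mem_filter]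
      exact ⟨⟨Finset.mem_univ _, (Finset.mem_filter.1 hu).2⟩, u.2⟩
    · intro u _ u' _ h
      exact Subtype.ext h
    · intro u hu
      rw [Finset.mem_filter, Finset.mem_filter] at hu
      exact ⟨⟨u, hu.2⟩, Finset.mem_filter.2 ⟨Finset.mem_univ _, hu.1.2⟩, rfl⟩
    · intro u _
      exact Real.sq_sqrt (hw0 u.1)
  obtain ⟨f, hf1, hf2⟩ := rainbow_ord (V := V') (fun v q => R v.1 q) (fun v => col v.1)
    (fun v => Real.sqrt (w v.1)) (by
      intro v
      refine le_trans (le_of_eq ?_) (hw v.1 v.2)
      rw [finsum_mem_eq_finite_toFinset_sum _ (Set.toFinite _)]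
      have e1 : (Set.toFinite {q | R v.1 q}).toFinset = univ.filter (fun q => R v.1 q) := by
        ext q
        simp
      rw [e1]
      refine Finset.sum_congr rfl fun q _ => ?_
      rw [hsub]
      rfl) (by
      intro x
      refine (hx x).trans (le_of_eq ?_)
      rw [hsub (fun v => col v = x)]
      refine Finset.sum_congr ?_ fun _ _ => rfl
      ext u
      simp only [Finset.mem_filter])
  exact ⟨fun x => (f x).1, hf1, fun x => (f x).2, hf2⟩

end Pool.Agent.Helper63.HM
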