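import Pool.Agent.Helper61.Motz.Peel
import Pool.Agent.Helper80.BP.Crit3All

/-!
# Peeling off a set of points, and the cone frame

`nPeel`: rank four data of a subset `B` of the points and lines / planes for the other points
give rank four data of all the points.
-/

set_option autoImplicit false
set_option linter.unusedSectionVars false

namespace Pool.Agent.Helper63.HM

open Pool.Agent.Helper28.BPack Pool.Agent.Helper61.Motz

variable {L : Type} [Lattice L] [BoundedOrder L] [Finite L] [IsUpperModularLattice L]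

/-- Peeling off the points outside `B`. -/
theorem nPeel {A B : Finset L} {c' d' : L → L} (hA : ∀ a ∈ A, IsAtom a) (hBA : B ⊆ A)
    (h4 : Crit4 B)
    (hcd : ∀ x ∈ A, x ∉ B → c' x ∈ A ∧ d' x ∈ A ∧ rk (x ⊔ c' x ⊔ d' x) = 3)
    (hcc : ∀ x ∈ A, x ∉ B → ∀ y ∈ A, y ∉ B → x ⊔ c' x = y ⊔ c' y → x = y)
    (hdd : ∀ x ∈ A, x ∉ B → ∀ y ∈ A, y ∉ B → x ⊔ d' x = y ⊔ d' y → x = y)
    (hcdn : ∀ x ∈ A, x ∉ B → ∀ y ∈ A, y ∉ B → x ⊔ c' x ≠ y ⊔ d' y)
    (hpp : ∀ x ∈ A, x ∉ B → ∀ y ∈ A, y ∉ B →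
      x ⊔ c' x ⊔ d' x = y ⊔ c' y ⊔ d' y → x = y)
    (hlc : ∀ x ∈ A, x ∉ B → ∀ a ∈ B, ∀ e ∈ B, a ≠ e → a ≤ x ⊔ c' x → e ≤ x ⊔ c' x → False)
    (hld : ∀ x ∈ A, x ∉ B → ∀ a ∈ B, ∀ e ∈ B, a ≠ e → a ≤ x ⊔ d' x → e ≤ x ⊔ d' x → False)
    (hpl : ∀ x ∈ A, x ∉ B → ∀ a ∈ B, ∀ e ∈ B, ∀ t ∈ B, rk (a ⊔ e ⊔ t) = 3 →
      a ≤ x ⊔ c' x ⊔ d' x → e ≤ x ⊔ c' x ⊔ d' x → t ≤ x ⊔ c' x ⊔ d' x → False) :
    Crit4 A := by
  classical
  obtain ⟨b, c, d, hb, hbr, hc, hccB, hddB, hcdB, hcb, hdb, hpB, hpb⟩ := h4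
  have hBat : ∀ a ∈ B, IsAtom a := fun a ha => hA a (hBA ha)
  -- the four base points are independent
  have hbinj : ∀ i j, i ≠ j → b i ≠ b j := by
    intro i j hij h
    have h1 : (Finset.univ : Finset (Fin 4)).sup b ≤
        ((Finset.univ : Finset (Fin 4)).erase i).sup b := by
      refine Finset.sup_le fun k _ => ?_
      by_cases hk : k = i
      · subst hk
        rw [h]
        exact Finset.le_sup (f := b) (Finset.mem_erase.mpr ⟨fun h2 => hij h2.symm,
          Finset.mem_univ _⟩)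
      · exact Finset.le_sup (f := b) (Finset.mem_erase.mpr ⟨hk, Finset.mem_univ _⟩)
    have h2 := rk_mono h1
    have h3 : ∀ (s : Finset (Fin 4)), rk (s.sup b) ≤ s.card := by
      intro s
      induction s using Finset.induction_on with
      | empty => simp [rk_bot]
      | insert k s hk ih =>
        rw [Finset.sup_insert, Finset.card_insert_of_notMem hk, sup_comm]
        exact (rk_sup_atom_le (hBat _ (hb k))).trans (by omega)
    have h5 := h3 ((Finset.univ : Finset (Fin 4)).erase i)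
    rw [Finset.card_erase_of_mem (Finset.mem_univ _)] at h5
    simp at h5
    omega
  have hbp : ∀ i j k, i ≠ j → i ≠ k → j ≠ k → rk (b i ⊔ b j ⊔ b k) = 3 := by
    intro i j k hij hik hjk
    have h0 : rk (b i ⊔ b j ⊔ b k) ≤ 3 :=
      rk_sup_sup_le (hBat _ (hb i)) (hBat _ (hb j)) (hBat _ (hb k))
    have h1 : (Finset.univ : Finset (Fin 4)).sup b ≤
        b i ⊔ b j ⊔ b k ⊔ (((((Finset.univ : Finset (Fin 4)).erase i).erase j).erase k).sup b) := by
      refine Finset.sup_le fun l _ => ?_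
      by_cases hl : l = i
      · subst hl
        exact (le_sup_left.trans le_sup_left).trans le_sup_left
      · by_cases hl' : l = j
        · subst hl'
          exact (le_sup_right.trans le_sup_left).trans le_sup_left
        · by_cases hl'' : l = k
          · subst hl''
            exact le_sup_right.trans le_sup_left
          · exact (Finset.le_sup (f := b) (by
              rw [Finset.mem_erase, Finset.mem_erase, Finset.mem_erase]
              exact ⟨hl'', hl', hl, Finset.mem_univ _⟩)).trans le_sup_right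
    have hcard : ((((Finset.univ : Finset (Fin 4)).erase i).erase j).erase k).card = 1 := by
      rw [Finset.card_erase_of_mem, Finset.card_erase_of_mem, Finset.card_erase_of_mem]
      · simp
      · exact Finset.mem_univ _
      · exact Finset.mem_erase.mpr ⟨fun h => hij h.symm, Finset.mem_univ _⟩
      · exact Finset.mem_erase.mpr ⟨fun h => hjk h.symm,
          Finset.mem_erase.mpr ⟨fun h => hik h.symm, Finset.mem_univ _⟩⟩
    obtain ⟨l, hl⟩ := Finset.card_eq_one.mp hcard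
    rw [hl, Finset.sup_singleton] at h1
    have h2 := rk_mono h1
    have h3 := rk_sup_atom_le (x := b i ⊔ b j ⊔ b k) (hBat _ (hb l))
    omega
  -- lines and planes of the points of `B`
  have hBl : ∀ q ∈ B, ∀ e ∈ B, rk (q ⊔ e) = 2 → q ≠ e := by
    intro q hq e _ h he
    subst he
    rw [sup_idem, rk_atom (hBat q hq)] at h
    omega
  have hqc : ∀ q ∈ B, (∀ i, q ≠ b i) → q ≠ c q ∧ q ≠ d q := by
    intro q hq hne
    obtain ⟨h1, h2, h3⟩ := hc q hq hne
    obtain ⟨h4, h5, -⟩ := ne_of_rk3 (hBat q hq) (hBat _ h1) (hBat _ h2) h3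
    exact ⟨h4, h5⟩
  refine ⟨b, fun x => if x ∈ B then c x else c' x, fun x => if x ∈ B then d x else d' x,
    fun i => hBA (hb i), hbr, ?_, ?_, ?_, ?_, ?_, ?_, ?_, ?_⟩
  · intro q hq hne
    by_cases h : q ∈ B
    · simp only [h, if_true]
      obtain ⟨h1, h2, h3⟩ := hc q h hne
      exact ⟨hBA h1, hBA h2, h3⟩
    · simp only [h, if_false]
      exact hcd q hq h
  · intro q hq hne q' hq' hne' e
    by_cases h : q ∈ B
    · by_cases h' : q' ∈ B
      · simp only [h, h', if_true] at e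
        exact hccB q h hne q' h' hne' e
      · simp only [h, h', if_true, if_false] at e
        exact (hlc q' hq' h' q h (c q) (hc q h hne).1 (hqc q h hne).1
          (e ▸ le_sup_left) (e ▸ le_sup_right)).elim
    · by_cases h' : q' ∈ B
      · simp only [h, h', if_true, if_false] at e
        exact (hlc q hq h q' h' (c q') (hc q' h' hne').1 (hqc q' h' hne').1
          (e ▸ le_sup_left) (e ▸ le_sup_right)).elim
      · simp only [h, h', if_false] at e
        exact hcc q hq h q' hq' h' e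
  · intro q hq hne q' hq' hne' e
    by_cases h : q ∈ B
    · by_cases h' : q' ∈ B
      · simp only [h, h', if_true] at e
        exact hddB q h hne q' h' hne' e
      · simp only [h, h', if_true, if_false] at e
        exact (hld q' hq' h' q h (d q) (hc q h hne).2.1 (hqc q h hne).2
          (e ▸ le_sup_left) (e ▸ le_sup_right)).elim
    · by_cases h' : q' ∈ B
      · simp only [h, h', if_true, if_false] at e
        exact (hld q hq h q' h' (d q') (hc q' h' hne').2.1 (hqc q' h' hne').2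
          (e ▸ le_sup_left) (e ▸ le_sup_right)).elim
      · simp only [h, h', if_false] at e
        exact hdd q hq h q' hq' h' e
  · intro q hq hne q' hq' hne' e
    by_cases h : q ∈ B
    · by_cases h' : q' ∈ B
      · simp only [h, h', if_true] at e
        exact hcdB q h hne q' h' hne' e
      · simp only [h, h', if_true, if_false] at e
        exact hld q' hq' h' q h (c q) (hc q h hne).1 (hqc q h hne).1
          (e ▸ le_sup_left) (e ▸ le_sup_right)
    · by_cases h' : q' ∈ B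
      · simp only [h, h', if_true, if_false] at e
        exact hlc q hq h q' h' (d q') (hc q' h' hne').2.1 (hqc q' h' hne').2
          (e ▸ le_sup_left) (e ▸ le_sup_right)
      · simp only [h, h', if_false] at e
        exact hcdn q hq h q' hq' h' e
  · intro q hq hne i j hij e
    by_cases h : q ∈ B
    · simp only [h, if_true] at e
      exact hcb q h hne i j hij e
    · simp only [h, if_false] at e
      exact hlc q hq h (b i) (hb i) (b j) (hb j) (hbinj i j hij) (e ▸ le_sup_left)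
        (e ▸ le_sup_right)
  · intro q hq hne i j hij e
    by_cases h : q ∈ B
    · simp only [h, if_true] at e
      exact hdb q h hne i j hij e
    · simp only [h, if_false] at e
      exact hld q hq h (b i) (hb i) (b j) (hb j) (hbinj i j hij) (e ▸ le_sup_left)
        (e ▸ le_sup_right)
  · intro q hq hne q' hq' hne' e
    by_cases h : q ∈ B
    · by_cases h' : q' ∈ B
      · simp only [h, h', if_true] at e
        exact hpB q h hne q' h' hne' e
      · simp only [h, h', if_true, if_false] at e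
        obtain ⟨h1, h2, h3⟩ := hc q h hne
        exact (hpl q' hq' h' q h (c q) h1 (d q) h2 h3
          (e ▸ le_sup_left.trans le_sup_left) (e ▸ le_sup_right.trans le_sup_left)
          (e ▸ le_sup_right)).elim
    · by_cases h' : q' ∈ B
      · simp only [h, h', if_true, if_false] at e
        obtain ⟨h1, h2, h3⟩ := hc q' h' hne'
        exact (hpl q hq h q' h' (c q') h1 (d q') h2 h3
          (e ▸ le_sup_left.trans le_sup_left) (e ▸ le_sup_right.trans le_sup_left)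
          (e ▸ le_sup_right)).elim
      · simp only [h, h', if_false] at e
        exact hpp q hq h q' hq' h' e
  · intro q hq hne i j k hij hik hjk e
    by_cases h : q ∈ B
    · simp only [h, if_true] at e
      exact hpb q h hne i j k hij hik hjk e
    · simp only [h, if_false] at e
      exact hpl q hq h (b i) (hb i) (b j) (hb j) (b k) (hb k) (hbp i j k hij hik hjk)
        (e ▸ le_sup_left.trans le_sup_left) (e ▸ le_sup_right.trans le_sup_left)
        (e ▸ le_sup_right)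

/-- The base of the cone: the points of a plane `Q` and one more point `o`. -/
theorem crit4_base [DecidableEq L] [DecidableRel (α := L) (· ≤ ·)] {A : Finset L} {Q o : L}
    (hA : ∀ a ∈ A, IsAtom a) (hQ : rk Q = 3) (ho : o ∈ A) (hoQ : ¬ o ≤ Q)
    (h3 : Crit3 (A.filter (· ≤ Q))) : Crit4 (insert o (A.filter (· ≤ Q))) := by
  have hon : o ∉ A.filter (· ≤ Q) := fun h => hoQ (Finset.mem_filter.mp h).2
  have he : (insert o (A.filter (· ≤ Q))).erase o = A.filter (· ≤ Q) :=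
    Finset.erase_insert hon
  have hle : (A.filter (· ≤ Q)).sup id ≤ Q :=
    Finset.sup_le fun x hx => (Finset.mem_filter.mp hx).2
  have hr : rk ((A.filter (· ≤ Q)).sup id) = 3 := by
    obtain ⟨b, c, hb, hbr, -⟩ := h3
    have h1 : b 0 ⊔ b 1 ⊔ b 2 ≤ (A.filter (· ≤ Q)).sup id :=
      sup_le (sup_le (Finset.le_sup (f := id) (hb 0)) (Finset.le_sup (f := id) (hb 1)))
        (Finset.le_sup (f := id) (hb 2))
    have h2 := rk_mono h1
    have h4 := rk_mono hle
    omega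
  refine crit4_of_crit3 (A := insert o (A.filter (· ≤ Q))) (p := o) ?_
    (Finset.mem_insert_self _ _) ?_ ?_ ?_
  · intro a ha
    rcases Finset.mem_insert.mp ha with rfl | h
    · exact hA _ ho
    · exact hA _ (Finset.mem_filter.mp h).1
  · rw [he]; exact hr
  · rw [he]; exact fun h => hoQ (h.trans hle)
  · rw [he]; exact h3

/-- **The cone frame.**  `Q` is a plane over `u`, `o` a point off `Q`.  Users are the points
off `Q` other than `o` which are not representatives; they use planes over neither `u` nor `o`.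
A representative `x` (at most one in every plane over `u`, none in `u ⊔ o`) uses the plane
`x ⊔ u` and two of its lines which meet `u`. -/
theorem crit4_of_cone {A : Finset L} {Q o u : L} {Rp : L → Prop} {cc gg H e1 e2 : L → L}
    (hA : ∀ a ∈ A, IsAtom a) (hQ : rk Q = 3) (ho : o ∈ A) (hoQ : ¬ o ≤ Q)
    (hu : rk u = 2) (huQ : u ≤ Q)
    (h3 : ∀ B : Finset L, (∀ a, a ∈ B ↔ a ∈ A ∧ a ≤ Q) → Crit3 B)
    (hRo : ∀ x ∈ A, ¬ x ≤ Q → x ≠ o → Rp x → ¬ o ≤ x ⊔ u)
    (hR1 : ∀ x ∈ A, ¬ x ≤ Q → x ≠ o → Rp x → e1 x ∈ A ∧ e1 x ≤ u ∧ e2 x ∈ A ∧ e2 x ≤ u ∧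
      e1 x ≠ e2 x)
    (hR2 : ∀ x ∈ A, ¬ x ≤ Q → x ≠ o → Rp x → ∀ y ∈ A, ¬ y ≤ Q → y ≠ o → Rp y →
      x ⊔ u = y ⊔ u → x = y)
    (hR3 : ∀ x ∈ A, ¬ x ≤ Q → x ≠ o → Rp x → ∀ y ∈ A, ¬ y ≤ Q → y ≠ o → ¬ Rp y →
      y ⊔ cc y ≠ x ⊔ e1 x ∧ y ⊔ cc y ≠ x ⊔ e2 x)
    (hc : ∀ x ∈ A, ¬ x ≤ Q → x ≠ o → ¬ Rp x → cc x ∈ A ∧ cc x ≤ u)
    (hcinj : ∀ x ∈ A, ¬ x ≤ Q → x ≠ o → ¬ Rp x → ∀ y ∈ A, ¬ y ≤ Q → y ≠ o → ¬ Rp y →
      x ⊔ cc x = y ⊔ cc y → x = y)
    (hH : ∀ x ∈ A, ¬ x ≤ Q → x ≠ o → ¬ Rp x → rk (H x) = 3 ∧ x ⊔ cc x ≤ H x ∧ ¬ u ≤ H x ∧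
      ¬ o ≤ H x)
    (hHinj : ∀ x ∈ A, ¬ x ≤ Q → x ≠ o → ¬ Rp x → ∀ y ∈ A, ¬ y ≤ Q → y ≠ o → ¬ Rp y →
      cc x = cc y → H x = H y → x = y)
    (hg : ∀ x ∈ A, ¬ x ≤ Q → x ≠ o → ¬ Rp x → gg x ∈ A ∧ gg x ≤ H x ∧ ¬ gg x ≤ x ⊔ cc x)
    (hginj : ∀ x ∈ A, ¬ x ≤ Q → x ≠ o → ¬ Rp x → ∀ y ∈ A, ¬ y ≤ Q → y ≠ o → ¬ Rp y →
      x ⊔ gg x = y ⊔ gg y → x = y) : Crit4 A := by
  classical
  have hmQ : ∀ x, x ∈ A.filter (· ≤ Q) ↔ x ∈ A ∧ x ≤ Q := fun x => Finset.mem_filter
  have hB4 := crit4_base hA hQ ho hoQ (h3 _ hmQ)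
  have hnB : ∀ x, x ∈ A → x ∉ insert o (A.filter (· ≤ Q)) → ¬ x ≤ Q ∧ x ≠ o := by
    intro x hx h
    rw [Finset.mem_insert, hmQ] at h
    push Not at h
    exact ⟨h.2 hx, h.1⟩
  have hBm : ∀ a, a ∈ insert o (A.filter (· ≤ Q)) → a = o ∨ (a ∈ A ∧ a ≤ Q) := by
    intro a ha
    rcases Finset.mem_insert.mp ha with h | h
    · exact Or.inl h
    · exact Or.inr ((hmQ a).mp h)
  -- basic facts
  have hxu : ∀ x, ¬ x ≤ Q → ¬ x ≤ u := fun x h h' => h (h'.trans huQ)
  have two : ∀ a ∈ A, a ≤ u → ∀ a' ∈ A, a' ≤ u → a ≠ a' → ∀ p, a ≤ p → a' ≤ p → u ≤ p := by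
    intro a ha hau a' ha' hau' hne p h1 h2
    rw [← line_eq (hA a ha) (hA a' ha') hne hau hau' hu]
    exact sup_le h1 h2
  have hrow : ∀ x ∈ A, ¬ x ≤ Q → ∀ a ∈ A, a ≤ u → rk (x ⊔ a) = 2 := by
    intro x hx hxQ a ha hau
    exact rk_line (hA x hx) (hA a ha) (fun h => hxu x hxQ (h ▸ hau))
  have hur : ∀ x ∈ A, ¬ x ≤ Q → rk (x ⊔ u) = 3 := by
    intro x hx hxQ
    rw [sup_comm, rk_sup_atom (hA x hx) (hxu x hxQ), hu]
  -- the lines `x ⊔ gg x`
  have hgl : ∀ x ∈ A, ¬ x ≤ Q → x ≠ o → ¬ Rp x → rk (x ⊔ gg x) = 2 ∧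
      ¬ cc x ≤ x ⊔ gg x ∧ x ⊔ gg x ≤ H x ∧ rk (x ⊔ cc x ⊔ gg x) = 3 ∧
      x ⊔ cc x ⊔ gg x = H x := by
    intro x hx h1 h2 h4
    obtain ⟨k1, k2, k3⟩ := hg x hx h1 h2 h4
    obtain ⟨l1, l2⟩ := hc x hx h1 h2 h4
    obtain ⟨m1, m2, m3, m4⟩ := hH x hx h1 h2 h4
    have n1 : x ≠ gg x := fun h => k3 (h ▸ le_sup_left)
    have n2 := rk_line (hA x hx) (hA _ k1) n1
    have n3 : rk (x ⊔ cc x ⊔ gg x) = 3 := by
      rw [rk_sup_atom (hA _ k1) k3, hrow x hx h1 _ l1 l2]
    refine ⟨n2, ?_, sup_le (le_sup_left.trans m2) k2, n3, ?_⟩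
    · intro h
      have h5 : x ⊔ cc x = x ⊔ gg x := eq_of_le_of_rk (sup_le le_sup_left h)
        (by rw [n2, hrow x hx h1 _ l1 l2])
      exact k3 (h5 ▸ le_sup_right)
    · exact eq_of_le_of_rk (sup_le m2 k2) (by rw [n3, m1])
  -- no line `x ⊔ gg x` meets `u`
  have hgu : ∀ x ∈ A, ¬ x ≤ Q → x ≠ o → ¬ Rp x → ∀ a ∈ A, a ≤ u → ¬ a ≤ x ⊔ gg x := by
    intro x hx h1 h2 h4 a ha hau h
    obtain ⟨l1, l2⟩ := hc x hx h1 h2 h4
    obtain ⟨n1, n2, n3, -⟩ := hgl x hx h1 h2 h4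
    obtain ⟨m1, m2, m3, m4⟩ := hH x hx h1 h2 h4
    by_cases h5 : a = cc x
    · exact n2 (h5 ▸ h)
    · exact m3 (two a ha hau _ l1 l2 h5 _ (h.trans n3) (le_sup_right.trans m2))
  -- representatives: the two lines and the plane
  have hrep : ∀ x ∈ A, ¬ x ≤ Q → x ≠ o → Rp x → rk (x ⊔ e1 x ⊔ e2 x) = 3 ∧
      x ⊔ e1 x ⊔ e2 x = x ⊔ u := by
    intro x hx h1 h2 h4
    obtain ⟨k1, k2, k3, k4, k5⟩ := hR1 x hx h1 h2 h4
    have h6 : x ⊔ e1 x ⊔ e2 x = x ⊔ u := by
      rw [sup_assoc, line_eq (hA _ k1) (hA _ k3) k5 k2 k4 hu]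
    exact ⟨by rw [h6, hur x hx h1], h6⟩
  -- a line through `x` off `Q` which does not pass through `o`
  have hline : ∀ x ∈ A, ¬ x ≤ Q → ∀ l, rk l = 2 → x ≤ l → ¬ o ≤ l →
      ∀ a ∈ insert o (A.filter (· ≤ Q)), ∀ e ∈ insert o (A.filter (· ≤ Q)), a ≠ e →
      a ≤ l → e ≤ l → False := by
    intro x hx hxQ l hl hxl hol a ha e he hae hal hel
    rcases hBm a ha with rfl | ⟨ha1, ha2⟩
    · exact hol hal
    · rcases hBm e he with rfl | ⟨he1, he2⟩
      · exact hol hel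
      · have h5 := line_eq (hA a ha1) (hA e he1) hae hal hel hl
        exact hxQ (hxl.trans (h5 ▸ sup_le ha2 he2))
  have hplane : ∀ x ∈ A, ¬ x ≤ Q → ∀ p, rk p = 3 → x ≤ p → ¬ o ≤ p →
      ∀ a ∈ insert o (A.filter (· ≤ Q)), ∀ e ∈ insert o (A.filter (· ≤ Q)),
      ∀ t ∈ insert o (A.filter (· ≤ Q)), rk (a ⊔ e ⊔ t) = 3 →
      a ≤ p → e ≤ p → t ≤ p → False := by
    intro x hx hxQ p hp hxp hop a ha e he t ht hr hap hep htp
    rcases hBm a ha with rfl | ⟨ha1, ha2⟩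
    · exact hop hap
    rcases hBm e he with rfl | ⟨he1, he2⟩
    · exact hop hep
    rcases hBm t ht with rfl | ⟨ht1, ht2⟩
    · exact hop htp
    have h5 : a ⊔ e ⊔ t = p := eq_of_le_of_rk (sup_le (sup_le hap hep) htp) (by rw [hr, hp])
    exact hxQ (hxp.trans (h5 ▸ sup_le (sup_le ha2 he2) ht2))
  -- rows and `o`
  have hoRow : ∀ x ∈ A, ¬ x ≤ Q → x ≠ o → ¬ Rp x → ¬ o ≤ x ⊔ cc x := fun x hx h1 h2 h4 h =>
    (hH x hx h1 h2 h4).2.2.2 (h.trans (hH x hx h1 h2 h4).2.1)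
  have hoG : ∀ x ∈ A, ¬ x ≤ Q → x ≠ o → ¬ Rp x → ¬ o ≤ x ⊔ gg x := fun x hx h1 h2 h4 h =>
    (hH x hx h1 h2 h4).2.2.2 (h.trans (hgl x hx h1 h2 h4).2.2.1)
  have hoE : ∀ x ∈ A, ¬ x ≤ Q → x ≠ o → Rp x → ∀ a, a ≤ u → ¬ o ≤ x ⊔ a :=
    fun x hx h1 h2 h4 a ha h => hRo x hx h1 h2 h4 (h.trans (sup_le_sup_left ha _))
  refine nPeel (B := insert o (A.filter (· ≤ Q)))
    (c' := fun x => if Rp x then e1 x else cc x)
    (d' := fun x => if Rp x then e2 x else gg x) hA ?_ hB4 ?_ ?_ ?_ ?_ ?_ ?_ ?_ ?_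
  · intro a ha
    rcases hBm a ha with rfl | h
    · exact ho
    · exact h.1
  · intro x hx hxB
    obtain ⟨h1, h2⟩ := hnB x hx hxB
    by_cases h4 : Rp x
    · simp only [h4, if_true]
      obtain ⟨k1, k2, k3, k4, k5⟩ := hR1 x hx h1 h2 h4
      exact ⟨k1, k3, (hrep x hx h1 h2 h4).1⟩
    · simp only [h4, if_false]
      exact ⟨(hc x hx h1 h2 h4).1, (hg x hx h1 h2 h4).1, (hgl x hx h1 h2 h4).2.2.2.1⟩
  · intro x hx hxB y hy hyB e
    obtain ⟨h1, h2⟩ := hnB x hx hxB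
    obtain ⟨h1', h2'⟩ := hnB y hy hyB
    by_cases h4 : Rp x
    · by_cases h4' : Rp y
      · simp only [h4, h4', if_true] at e
        apply hR2 x hx h1 h2 h4 y hy h1' h2' h4'
        have k := (hR1 x hx h1 h2 h4).2.1
        have k' := (hR1 y hy h1' h2' h4').2.1
        have e3 : y ≤ x ⊔ u := (le_sup_left : y ≤ y ⊔ e1 y).trans
          (e ▸ sup_le_sup_left k _)
        exact (eq_of_le_of_rk (sup_le e3 le_sup_right)
          (by rw [hur x hx h1, hur y hy h1'])).symm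
      · simp only [h4, h4', if_true, if_false] at e
        exact absurd e.symm (hR3 x hx h1 h2 h4 y hy h1' h2' h4').1
    · by_cases h4' : Rp y
      · simp only [h4, h4', if_true, if_false] at e
        exact absurd e (hR3 y hy h1' h2' h4' x hx h1 h2 h4).1
      · simp only [h4, h4', if_false] at e
        exact hcinj x hx h1 h2 h4 y hy h1' h2' h4' e
  · intro x hx hxB y hy hyB e
    obtain ⟨h1, h2⟩ := hnB x hx hxB
    obtain ⟨h1', h2'⟩ := hnB y hy hyB
    by_cases h4 : Rp x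
    · by_cases h4' : Rp y
      · simp only [h4, h4', if_true] at e
        apply hR2 x hx h1 h2 h4 y hy h1' h2' h4'
        have k := (hR1 x hx h1 h2 h4).2.2.2.1
        have e3 : y ≤ x ⊔ u := (le_sup_left : y ≤ y ⊔ e2 y).trans
          (e ▸ sup_le_sup_left k _)
        exact (eq_of_le_of_rk (sup_le e3 le_sup_right)
          (by rw [hur x hx h1, hur y hy h1'])).symm
      · simp only [h4, h4', if_true, if_false] at e
        obtain ⟨-, -, k3, k4, -⟩ := hR1 x hx h1 h2 h4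
        exact (hgu y hy h1' h2' h4' _ k3 k4 (e ▸ le_sup_right)).elim
    · by_cases h4' : Rp y
      · simp only [h4, h4', if_true, if_false] at e
        obtain ⟨-, -, k3, k4, -⟩ := hR1 y hy h1' h2' h4'
        exact (hgu x hx h1 h2 h4 _ k3 k4 (e ▸ le_sup_right)).elim
      · simp only [h4, h4', if_false] at e
        exact hginj x hx h1 h2 h4 y hy h1' h2' h4' e
  · intro x hx hxB y hy hyB e
    obtain ⟨h1, h2⟩ := hnB x hx hxB
    obtain ⟨h1', h2'⟩ := hnB y hy hyB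
    by_cases h4 : Rp x
    · by_cases h4' : Rp y
      · simp only [h4, h4', if_true] at e
        obtain ⟨k1, k2, k3, k4, k5⟩ := hR1 x hx h1 h2 h4
        obtain ⟨l1, l2, l3, l4, l5⟩ := hR1 y hy h1' h2' h4'
        have e3 : y ≤ x ⊔ u := (le_sup_left : y ≤ y ⊔ e2 y).trans
          (e ▸ sup_le_sup_left k2 _)
        have hxy : x = y := hR2 x hx h1 h2 h4 y hy h1' h2' h4'
          (eq_of_le_of_rk (sup_le e3 le_sup_right)
            (by rw [hur x hx h1, hur y hy h1'])).symm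
        subst hxy
        have h5 : u ≤ x ⊔ e1 x := two _ k1 k2 _ k3 k4 k5 _ le_sup_right (e ▸ le_sup_right)
        have h6 := rk_mono (sup_le (le_sup_left : x ≤ x ⊔ e1 x) h5)
        rw [hur x hx h1, hrow x hx h1 _ k1 k2] at h6
        omega
      · simp only [h4, h4', if_true, if_false] at e
        obtain ⟨k1, k2, -⟩ := hR1 x hx h1 h2 h4
        exact hgu y hy h1' h2' h4' _ k1 k2 (e ▸ le_sup_right)
    · by_cases h4' : Rp y
      · simp only [h4, h4', if_true, if_false] at e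
        exact (hR3 y hy h1' h2' h4' x hx h1 h2 h4).2 e
      · simp only [h4, h4', if_false] at e
        obtain ⟨l1, l2⟩ := hc x hx h1 h2 h4
        exact hgu y hy h1' h2' h4' _ l1 l2 (e ▸ le_sup_right)
  · intro x hx hxB y hy hyB e
    obtain ⟨h1, h2⟩ := hnB x hx hxB
    obtain ⟨h1', h2'⟩ := hnB y hy hyB
    by_cases h4 : Rp x
    · by_cases h4' : Rp y
      · simp only [h4, h4', if_true] at e
        rw [(hrep x hx h1 h2 h4).2, (hrep y hy h1' h2' h4').2] at e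
        exact hR2 x hx h1 h2 h4 y hy h1' h2' h4' e
      · simp only [h4, h4', if_true, if_false] at e
        rw [(hrep x hx h1 h2 h4).2, (hgl y hy h1' h2' h4').2.2.2.2] at e
        exact ((hH y hy h1' h2' h4').2.2.1 (e ▸ le_sup_right)).elim
    · by_cases h4' : Rp y
      · simp only [h4, h4', if_true, if_false] at e
        rw [(hrep y hy h1' h2' h4').2, (hgl x hx h1 h2 h4).2.2.2.2] at e
        exact ((hH x hx h1 h2 h4).2.2.1 (e ▸ le_sup_right)).elim
      · simp only [h4, h4', if_false] at e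
        rw [(hgl x hx h1 h2 h4).2.2.2.2, (hgl y hy h1' h2' h4').2.2.2.2] at e
        apply hHinj x hx h1 h2 h4 y hy h1' h2' h4' ?_ e
        by_contra hne
        obtain ⟨l1, l2⟩ := hc x hx h1 h2 h4
        obtain ⟨l1', l2'⟩ := hc y hy h1' h2' h4'
        exact (hH x hx h1 h2 h4).2.2.1 (two _ l1 l2 _ l1' l2' hne _
          (le_sup_right.trans (hH x hx h1 h2 h4).2.1)
          (e ▸ le_sup_right.trans (hH y hy h1' h2' h4').2.1))
  · intro x hx hxB
    obtain ⟨h1, h2⟩ := hnB x hx hxB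
    by_cases h4 : Rp x
    · simp only [h4, if_true]
      obtain ⟨k1, k2, -⟩ := hR1 x hx h1 h2 h4
      exact hline x hx h1 _ (hrow x hx h1 _ k1 k2) le_sup_left (hoE x hx h1 h2 h4 _ k2)
    · simp only [h4, if_false]
      obtain ⟨l1, l2⟩ := hc x hx h1 h2 h4
      exact hline x hx h1 _ (hrow x hx h1 _ l1 l2) le_sup_left (hoRow x hx h1 h2 h4)
  · intro x hx hxB
    obtain ⟨h1, h2⟩ := hnB x hx hxB
    by_cases h4 : Rp x
    · simp only [h4, if_true]
      obtain ⟨-, -, k1, k2, -⟩ := hR1 x hx h1 h2 h4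
      exact hline x hx h1 _ (hrow x hx h1 _ k1 k2) le_sup_left (hoE x hx h1 h2 h4 _ k2)
    · simp only [h4, if_false]
      exact hline x hx h1 _ (hgl x hx h1 h2 h4).1 le_sup_left (hoG x hx h1 h2 h4)
  · intro x hx hxB
    obtain ⟨h1, h2⟩ := hnB x hx hxB
    by_cases h4 : Rp x
    · simp only [h4, if_true]
      have k := hrep x hx h1 h2 h4
      refine hplane x hx h1 _ k.1 (le_sup_left.trans le_sup_left) ?_
      rw [k.2]
      exact hRo x hx h1 h2 h4
    · simp only [h4, if_false]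
      have k := hgl x hx h1 h2 h4
      refine hplane x hx h1 _ k.2.2.2.1 (le_sup_left.trans le_sup_left) ?_
      rw [k.2.2.2.2]
      exact (hH x hx h1 h2 h4).2.2.2

/-- The rank three data of the points of a plane spanned by points. -/
theorem crit3_plane {A : Finset L} {Q : L} (hA : ∀ a ∈ A, IsAtom a)
    (hQ : ∃ a ∈ A, ∃ e ∈ A, ∃ t ∈ A, a ≤ Q ∧ e ≤ Q ∧ t ≤ Q ∧ rk (a ⊔ e ⊔ t) = 3)
    (hQ3 : rk Q = 3) (B : Finset L) (hB : ∀ a, a ∈ B ↔ a ∈ A ∧ a ≤ Q) : Crit3 B := by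
  obtain ⟨a, ha, e, he, t, ht, ha', he', ht', hr⟩ := hQ
  refine Pool.Agent.Helper80.BP.crit3_all B (fun a ha => hA a ((hB a).mp ha).1) ?_
  have h1 : a ⊔ e ⊔ t ≤ B.sup id := sup_le (sup_le
    (Finset.le_sup (f := id) ((hB a).mpr ⟨ha, ha'⟩))
    (Finset.le_sup (f := id) ((hB e).mpr ⟨he, he'⟩)))
    (Finset.le_sup (f := id) ((hB t).mpr ⟨ht, ht'⟩))
  have h2 : B.sup id ≤ Q := Finset.sup_le fun x hx => ((hB x).mp hx).2
  have h3 := rk_mono h1
  have h4 := rk_mono h2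
  omega

end Pool.Agent.Helper63.HM
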