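import Pool.Agent.Helper63.HM.Super

/-!
# MP_47cd0b (room C): the deficit condition is needed only level by level (helper43)

Every user `x` counts only a set `V x` of its lines; users of different levels have disjoint sets.
Then it is enough that the sum of the deficits is less than one in every level separately.
-/

set_option autoImplicit false
set_option linter.unusedSectionVars false

namespace Pool.Agent.Helper63.Deficit

open Pool.Agent.Helper28.BPack Pool.Agent.Helper61.Motz Pool.Agent.Helper38.Thick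
  Pool.Agent.Helper38.SC Pool.Agent.Helper56.BP

/-- Hall's theorem from shares with total deficit less than one in every level. -/
theorem hall_level {X Y ι : Type} [Fintype X] [DecidableEq X] [DecidableEq Y] [DecidableEq ι]
    (W : X → Finset Y) (τ : X → Y → ℚ) (lv : X → ι) (h0 : ∀ x y, 0 ≤ τ x y)
    (hdis : ∀ x y, lv x ≠ lv y → Disjoint (W x) (W y))
    (hdem : ∀ l, ∑ x ∈ Finset.univ.filter (fun x => lv x = l),
      max 0 (1 - ∑ y ∈ W x, τ x y) < 1)
    (hload : ∀ y, ∑ x ∈ Finset.univ.filter (fun x => y ∈ W x), τ x y ≤ 1) :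
    ∃ F : X → Y, Function.Injective F ∧ ∀ x, F x ∈ W x := by
  classical
  have h1 : ∀ l : ι, ∃ F : {x : X // lv x = l} → Y, Function.Injective F ∧
      ∀ x, F x ∈ W x.1 := by
    intro l
    refine hall_deficit (X := {x : X // lv x = l}) (Y := Y) (fun x => W x.1)
      (fun x y => τ x.1 y) (fun x y => h0 x.1 y) ?_ ?_
    · have e : ∑ x : {x : X // lv x = l}, max 0 (1 - ∑ y ∈ W x.1, τ x.1 y) =
          ∑ x ∈ Finset.univ.filter (fun x => lv x = l), max 0 (1 - ∑ y ∈ W x, τ x y) := by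
        refine Finset.sum_bij (fun x _ => x.1) ?_ ?_ ?_ ?_
        · intro x _
          exact Finset.mem_filter.mpr ⟨Finset.mem_univ _, x.2⟩
        · intro x _ y _ h
          exact Subtype.ext h
        · intro y hy
          exact ⟨⟨y, (Finset.mem_filter.mp hy).2⟩, Finset.mem_univ _, rfl⟩
        · intro x _
          rfl
      rw [e]
      exact hdem l
    · intro y
      refine le_trans ?_ (hload y)
      have e : ∑ x ∈ Finset.univ.filter (fun x : {x : X // lv x = l} => y ∈ W x.1), τ x.1 y =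
          ∑ x ∈ (Finset.univ.filter (fun x : X => y ∈ W x)).filter (fun x => lv x = l), τ x y := by
        refine Finset.sum_bij (fun x _ => x.1) ?_ ?_ ?_ ?_
        · intro x hx
          exact Finset.mem_filter.mpr ⟨Finset.mem_filter.mpr ⟨Finset.mem_univ _,
            (Finset.mem_filter.mp hx).2⟩, x.2⟩
        · intro x _ y _ h
          exact Subtype.ext h
        · intro z hz
          obtain ⟨hz1, hz2⟩ := Finset.mem_filter.mp hz
          exact ⟨⟨z, hz2⟩, Finset.mem_filter.mpr ⟨Finset.mem_univ _,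
            (Finset.mem_filter.mp hz1).2⟩, rfl⟩
        · intro x _
          rfl
      rw [e]
      exact Finset.sum_le_sum_of_subset_of_nonneg (Finset.filter_subset _ _)
        (fun x _ _ => h0 x y)
  choose F hF1 hF2 using h1
  have h2 : ∀ (x : X) (l : ι) (h : lv x = l), F l ⟨x, h⟩ = F (lv x) ⟨x, rfl⟩ := by
    intro x l h
    subst h
    rfl
  refine ⟨fun x => F (lv x) ⟨x, rfl⟩, ?_, fun x => hF2 (lv x) ⟨x, rfl⟩⟩
  intro x y hxy
  by_cases e : lv x = lv y
  · have h3 : F (lv y) ⟨x, e⟩ = F (lv y) ⟨y, rfl⟩ := (h2 x (lv y) e).trans hxy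
    exact congrArg Subtype.val (hF1 (lv y) h3)
  · exfalso
    have h3 : F (lv x) ⟨x, rfl⟩ ∈ W x := hF2 (lv x) ⟨x, rfl⟩
    have h4 : F (lv y) ⟨y, rfl⟩ ∈ W y := hF2 (lv y) ⟨y, rfl⟩
    have h5 : F (lv x) ⟨x, rfl⟩ = F (lv y) ⟨y, rfl⟩ := hxy
    rw [h5] at h3
    exact Finset.disjoint_left.mp (hdis x y e) h3 h4

variable {L : Type} [Lattice L] [BoundedOrder L] [Finite L] [IsUpperModularLattice L]

section

variable [DecidableEq L] [DecidableRel (α := L) (· ≤ ·)] {A : Finset L} {Q o u : L} {ρ : L → L}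

/-- **Rank four from a state in the cone frame, any shares, deficit less than one in every level.**
`V x` is the set of the lines of `x` which are counted; users of different levels count different
lines. -/
theorem crit4_of_lev (F : FrC A Q o u ρ) {Rep : Finset L} (hRep : Rep ⊆ RC A Q o u ρ)
    {own : L → Finset L} {pl : L → L}
    (S : Sta A (NC A Q o \ Rep) u (ZC o) Rep (ADC A Q o u) own pl)
    {V : L → Finset L} {lv : L → ℕ} {τ : L → L → ℚ}
    (hV : ∀ x ∈ NC A Q o \ Rep, V x ⊆ WL A own pl x)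
    (hdis : ∀ x ∈ NC A Q o \ Rep, ∀ y ∈ NC A Q o \ Rep, lv x ≠ lv y → Disjoint (V x) (V y))
    (hτ0 : ∀ x g, 0 ≤ τ x g)
    (hτ1 : ∀ g, rk g = 2 →
      ∑ x ∈ (NC A Q o \ Rep).filter (fun x => g ∈ V x), τ x g ≤ 1)
    (hval : ∀ l, ∑ x ∈ (NC A Q o \ Rep).filter (fun x => lv x = l),
      max 0 (1 - ∑ g ∈ V x, τ x g) < 1) :
    Crit4 A := by
  classical
  refine crit4_of_match_cone F hRep S (Ls := fun x c => pen A x (x ⊔ c) (pl (x ⊔ c))) ?_
  set R : Finset L := NC A Q o \ Rep with hR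
  have hrk : ∀ x ∈ R, ∀ g ∈ WL A own pl x, rk g = 2 := by
    intro x hx g hg
    obtain ⟨c, hc, h2⟩ := Finset.mem_biUnion.mp hg
    exact (pen_spec F.at_ (S.mem x hx) (S.ownA x hx c hc).1
      (fun e => S.off x hx (by rw [e]; exact (S.ownA x hx c hc).2)) (S.pln x hx c hc).2.1
      (S.pln x hx c hc).2.2.1 h2).1
  obtain ⟨G, hGinj, hG⟩ := hall_level (X := R) (Y := L) (fun x => V x.1)
    (fun x g => τ x.1 g) (fun x => lv x.1) (fun x g => hτ0 x.1 g)
    (fun x y h => hdis x.1 x.2 y.1 y.2 h)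
    (by
      intro l
      have e : ∑ x ∈ (Finset.univ : Finset R).filter (fun x => lv x.1 = l),
          max 0 (1 - ∑ y ∈ V x.1, τ x.1 y) =
          ∑ x ∈ R.filter (fun x => lv x = l), max 0 (1 - ∑ g ∈ V x, τ x g) := by
        refine Finset.sum_bij (fun x _ => x.1) ?_ ?_ ?_ ?_
        · intro x hx
          exact Finset.mem_filter.mpr ⟨x.2, (Finset.mem_filter.mp hx).2⟩
        · intro x _ y _ h
          exact Subtype.ext h
        · intro y hy
          exact ⟨⟨y, (Finset.mem_filter.mp hy).1⟩,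
            Finset.mem_filter.mpr ⟨Finset.mem_univ _, (Finset.mem_filter.mp hy).2⟩, rfl⟩
        · intro x _
          rfl
      rw [e]
      exact hval l)
    (fun g => by
      have e : ∑ x ∈ (Finset.univ : Finset R).filter (fun x => g ∈ V x.1), τ x.1 g =
          ∑ x ∈ R.filter (fun x => g ∈ V x), τ x g := by
        refine Finset.sum_bij (fun x _ => x.1) ?_ ?_ ?_ ?_
        · intro x hx
          exact Finset.mem_filter.mpr ⟨x.2, (Finset.mem_filter.mp hx).2⟩
        · intro x _ y _ h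
          exact Subtype.ext h
        · intro y hy
          exact ⟨⟨y, (Finset.mem_filter.mp hy).1⟩,
            Finset.mem_filter.mpr ⟨Finset.mem_univ _, (Finset.mem_filter.mp hy).2⟩, rfl⟩
        · intro x _
          rfl
      rw [e]
      by_cases hne : (R.filter (fun x => g ∈ V x)).Nonempty
      · obtain ⟨y, hy⟩ := hne
        obtain ⟨hy1, hy2⟩ := Finset.mem_filter.mp hy
        exact hτ1 g (hrk y hy1 g (hV y hy1 hy2))
      · rw [Finset.not_nonempty_iff_eq_empty] at hne
        rw [hne]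
        simp)
  have hz : ∀ x ∈ R, ∃ c z, c ∈ own x ∧ z ∈ A ∧ z ≤ pl (x ⊔ c) ∧ ¬ z ≤ x ⊔ c ∧
      x ⊔ z = (if hx : x ∈ R then G ⟨x, hx⟩ else x) ∧
      x ⊔ z ∈ pen A x (x ⊔ c) (pl (x ⊔ c)) := by
    intro x hx
    obtain ⟨c, hc, h2⟩ := Finset.mem_biUnion.mp (hV x hx (hG ⟨x, hx⟩))
    obtain ⟨z, h3, h4, h5, h6⟩ := mem_pen.mp h2
    exact ⟨c, z, hc, h3, h4, h5, by rw [dif_pos hx]; exact h6, by rw [h6]; exact h2⟩
  choose! cc gg h1 h2 h3 h4 h5 h6 using hz
  refine ⟨cc, gg, fun x hx => ⟨h1 x hx, h2 x hx, h3 x hx, h4 x hx, h6 x hx⟩, ?_⟩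
  intro x hx y hy e
  rw [h5 x hx, h5 y hy, dif_pos hx, dif_pos hy] at e
  exact congrArg Subtype.val (hGinj e)

/-- The version with a level `Lv g` for the lines: a user counts the lines of its own level. -/
theorem crit4_of_lineLevel (F : FrC A Q o u ρ) {Rep : Finset L} (hRep : Rep ⊆ RC A Q o u ρ)
    {own : L → Finset L} {pl : L → L}
    (S : Sta A (NC A Q o \ Rep) u (ZC o) Rep (ADC A Q o u) own pl)
    {Lv lv : L → ℕ} {τ : L → L → ℚ} (hτ0 : ∀ x g, 0 ≤ τ x g)
    (hτ1 : ∀ g, rk g = 2 → ∑ x ∈ (NC A Q o \ Rep).filter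
      (fun x => g ∈ (WL A own pl x).filter (fun g => Lv g = lv x)), τ x g ≤ 1)
    (hval : ∀ l, ∑ x ∈ (NC A Q o \ Rep).filter (fun x => lv x = l),
      max 0 (1 - ∑ g ∈ (WL A own pl x).filter (fun g => Lv g = l), τ x g) < 1) :
    Crit4 A := by
  refine crit4_of_lev F hRep S (V := fun x => (WL A own pl x).filter (fun g => Lv g = lv x))
    (lv := lv) (τ := τ) (fun x _ => Finset.filter_subset _ _) ?_ hτ0 hτ1 ?_
  · intro x _ y _ h
    rw [Finset.disjoint_left]
    intro g h1 h2
    exact h ((Finset.mem_filter.mp h1).2.symm.trans (Finset.mem_filter.mp h2).2)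
  · intro l
    have e : ∑ x ∈ (NC A Q o \ Rep).filter (fun x => lv x = l),
        max 0 (1 - ∑ g ∈ (WL A own pl x).filter (fun g => Lv g = lv x), τ x g) =
        ∑ x ∈ (NC A Q o \ Rep).filter (fun x => lv x = l),
        max 0 (1 - ∑ g ∈ (WL A own pl x).filter (fun g => Lv g = l), τ x g) := by
      apply Finset.sum_congr rfl
      intro x hx
      rw [(Finset.mem_filter.mp hx).2]
    rw [e]
    exact hval l

end

end Pool.Agent.Helper63.Deficit
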