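import Mathlib.Combinatorics.Hall.Basic
import Mathlib.Algebra.Order.BigOperators.Group.Finset
import Mathlib.Data.Real.Basic
import Mathlib.Tactic

/-!
# Quotas and covers

`quota`: fractional quotas give disjoint sets of the prescribed sizes.
`cover`: a partial allocation of the rows is extended to all rows under capacities; a point
which does not reach its capacity keeps all its old rows.
-/

set_option autoImplicit false

namespace Pool.Agent.Helper63.HM

open Finset

/-- Fractional quotas give integral ones. -/
theorem quota {X K : Type} [Fintype X] [DecidableEq X] [DecidableEq K]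
    (d : X → ℕ) (N : X → Finset K) (y : X → K → ℝ)
    (hy0 : ∀ x, ∀ k ∈ N x, 0 ≤ y x k)
    (hd : ∀ x, (d x : ℝ) ≤ ∑ k ∈ N x, y x k)
    (hc : ∀ k, ∑ x ∈ univ.filter (fun x => k ∈ N x), y x k ≤ 1) :
    ∃ own : X → Finset K, (∀ x, own x ⊆ N x) ∧ (∀ x, (own x).card = d x) ∧
      (∀ x x', x ≠ x' → Disjoint (own x) (own x')) := by
  classical
  obtain ⟨f, hfinj, hf⟩ := (Finset.all_card_le_biUnion_card_iff_exists_injective
    (fun p : (Σ x : X, Fin (d x)) => N p.1)).mp (by
    intro S
    set T : Finset X := S.image Sigma.fst with hT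
    have h1 : (S.card : ℝ) ≤ ∑ x ∈ T, (d x : ℝ) := by
      have h2 : S ⊆ T.sigma (fun _ => univ) := by
        intro p hp
        rw [Finset.mem_sigma]
        exact ⟨Finset.mem_image_of_mem _ hp, Finset.mem_univ _⟩
      have h3 := Finset.card_le_card h2
      rw [Finset.card_sigma] at h3
      simp only [Finset.card_univ, Fintype.card_fin] at h3
      exact_mod_cast h3
    have h4 : ∑ x ∈ T, (d x : ℝ) ≤ ∑ x ∈ T, ∑ k ∈ N x, y x k :=
      Finset.sum_le_sum fun x _ => hd x
    have h5 : ∑ x ∈ T, ∑ k ∈ N x, y x k =
        ∑ k ∈ S.biUnion (fun p : (Σ x : X, Fin (d x)) => N p.1),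
          ∑ x ∈ T.filter (fun x => k ∈ N x), y x k := by
      rw [Finset.sum_comm' (s' := fun k => T.filter (fun x => k ∈ N x))
        (t' := S.biUnion (fun p : (Σ x : X, Fin (d x)) => N p.1))]
      intro x k
      constructor
      · rintro ⟨hx, hk⟩
        refine ⟨Finset.mem_filter.mpr ⟨hx, hk⟩, ?_⟩
        obtain ⟨p, hp, rfl⟩ := Finset.mem_image.mp hx
        exact Finset.mem_biUnion.mpr ⟨p, hp, hk⟩
      · rintro ⟨hx, -⟩
        exact ⟨(Finset.mem_filter.mp hx).1, (Finset.mem_filter.mp hx).2⟩
    have h6 : ∑ k ∈ S.biUnion (fun p : (Σ x : X, Fin (d x)) => N p.1),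
          ∑ x ∈ T.filter (fun x => k ∈ N x), y x k ≤
        ∑ _k ∈ S.biUnion (fun p : (Σ x : X, Fin (d x)) => N p.1), (1 : ℝ) := by
      refine Finset.sum_le_sum fun k _ => le_trans ?_ (hc k)
      refine Finset.sum_le_sum_of_subset_of_nonneg ?_ ?_
      · intro x hx
        rw [Finset.mem_filter] at hx ⊢
        exact ⟨Finset.mem_univ _, hx.2⟩
      · intro x hx _
        exact hy0 x k (Finset.mem_filter.mp hx).2
    rw [Finset.sum_const, nsmul_eq_mul, mul_one] at h6
    have h7 : (S.card : ℝ) ≤
        ((S.biUnion (fun p : (Σ x : X, Fin (d x)) => N p.1)).card : ℝ) := by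
      linarith
    exact_mod_cast h7)
  refine ⟨fun x => univ.image (fun i : Fin (d x) => f ⟨x, i⟩), ?_, ?_, ?_⟩
  · intro x k hk
    obtain ⟨i, -, rfl⟩ := Finset.mem_image.mp hk
    exact hf ⟨x, i⟩
  · intro x
    rw [Finset.card_image_of_injective, Finset.card_univ, Fintype.card_fin]
    intro i j hij
    have h1 := hfinj hij
    simpa using h1
  · intro x x' hxx
    rw [Finset.disjoint_left]
    intro k hk hk'
    obtain ⟨i, -, h1⟩ := Finset.mem_image.mp hk
    obtain ⟨j, -, h2⟩ := Finset.mem_image.mp hk'
    have h3 := hfinj (h1.trans h2.symm)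
    exact hxx (congrArg Sigma.fst h3)

/-- Extension of a partial allocation to all rows. -/
theorem cover {X K : Type} [Fintype X] [DecidableEq X] [Fintype K] [DecidableEq K]
    (inc : K → Finset X) (cap : X → ℕ) (own0 : X → Finset K)
    (h0 : ∀ x, ∀ k ∈ own0 x, x ∈ inc k)
    (h0c : ∀ x, (own0 x).card ≤ cap x)
    (h0d : ∀ x x', x ≠ x' → Disjoint (own0 x) (own0 x'))
    (hH : ∀ S : Finset K, S.card ≤ ∑ x ∈ S.biUnion inc, cap x) :
    ∃ o : K → X, (∀ k, o k ∈ inc k) ∧
      (∀ x, (univ.filter (fun k => o k = x)).card ≤ cap x) ∧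
      (∀ x, (own0 x).card ≤ (univ.filter (fun k => o k = x)).card) ∧
      (∀ x, (univ.filter (fun k => o k = x)).card < cap x → ∀ k ∈ own0 x, o k = x) := by
  classical
  obtain ⟨f, hfinj, hf⟩ := (Finset.all_card_le_biUnion_card_iff_exists_injective
    (fun k : K => (inc k).sigma (fun x => (univ : Finset (Fin (cap x)))))).mp (by
    intro S
    refine (hH S).trans ?_
    have h1 : S.biUnion (fun k : K => (inc k).sigma (fun x => (univ : Finset (Fin (cap x))))) =
        (S.biUnion inc).sigma (fun x => (univ : Finset (Fin (cap x)))) := by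
      ext p
      simp only [Finset.mem_biUnion, Finset.mem_sigma, Finset.mem_univ, and_true]
    rw [h1, Finset.card_sigma]
    simp)
  -- the admissible total allocations
  set Adm : Finset (K → X) := univ.filter (fun o => (∀ k, o k ∈ inc k) ∧
    ∀ x, (univ.filter (fun k => o k = x)).card ≤ cap x) with hAdm
  have hne : Adm.Nonempty := by
    refine ⟨fun k => (f k).1, ?_⟩
    rw [hAdm, Finset.mem_filter]
    refine ⟨Finset.mem_univ _, fun k => (Finset.mem_sigma.mp (hf k)).1, fun x => ?_⟩
    have h1 : (univ.filter (fun k => (f k).1 = x)).card ≤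
        (({x} : Finset X).sigma (fun x => (univ : Finset (Fin (cap x))))).card := by
      refine Finset.card_le_card_of_injOn f ?_ (fun a _ b _ h => hfinj h)
      intro k hk
      have h2 := (Finset.mem_filter.mp hk).2
      simp [h2]
    refine h1.trans ?_
    rw [Finset.card_sigma]
    simp
  obtain ⟨o, ho, hmax⟩ := Finset.exists_max_image Adm
    (fun o => (univ.filter (fun k => k ∈ own0 (o k))).card) hne
  obtain ⟨-, hoi, hoc⟩ := Finset.mem_filter.mp ho
  have hkey : ∀ x, (univ.filter (fun k => o k = x)).card < cap x → ∀ k ∈ own0 x, o k = x := by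
    intro x hx k0 hk0
    by_contra hne0
    -- reassign `k0` to `x`
    set o' : K → X := Function.update o k0 x with ho'
    have hk0' : o' k0 = x := Function.update_self ..
    have hoth : ∀ k, k ≠ k0 → o' k = o k := fun k hk => Function.update_of_ne hk ..
    have hadm : o' ∈ Adm := by
      rw [hAdm, Finset.mem_filter]
      refine ⟨Finset.mem_univ _, fun k => ?_, fun z => ?_⟩
      · by_cases hk : k = k0
        · subst hk
          rw [hk0']
          exact h0 x k hk0
        · rw [hoth k hk]
          exact hoi k
      · by_cases hz : z = x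
        · subst hz
          have h1 : (univ.filter (fun k => o' k = z)) ⊆
              insert k0 (univ.filter (fun k => o k = z)) := by
            intro k hk
            rw [Finset.mem_filter] at hk
            by_cases hkk : k = k0
            · exact Finset.mem_insert.mpr (Or.inl hkk)
            · rw [hoth k hkk] at hk
              exact Finset.mem_insert.mpr (Or.inr (Finset.mem_filter.mpr hk))
          have h2 := Finset.card_le_card h1
          have h3 := Finset.card_insert_le k0 (univ.filter (fun k => o k = z))
          omega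
        · have h1 : (univ.filter (fun k => o' k = z)) ⊆ (univ.filter (fun k => o k = z)) := by
            intro k hk
            rw [Finset.mem_filter] at hk ⊢
            by_cases hkk : k = k0
            · subst hkk
              rw [hk0'] at hk
              exact absurd hk.2.symm hz
            · rw [hoth k hkk] at hk
              exact hk
          exact (Finset.card_le_card h1).trans (hoc z)
    have h1 := hmax o' hadm
    have h2 : (univ.filter (fun k => k ∈ own0 (o k))) ⊂
        (univ.filter (fun k => k ∈ own0 (o' k))) := by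
      rw [Finset.ssubset_iff_of_subset]
      · refine ⟨k0, ?_, ?_⟩
        · rw [Finset.mem_filter, hk0']
          exact ⟨Finset.mem_univ _, hk0⟩
        · rw [Finset.mem_filter]
          rintro ⟨-, h3⟩
          exact Finset.disjoint_left.mp (h0d _ _ hne0) h3 hk0
      · intro k hk
        rw [Finset.mem_filter] at hk ⊢
        refine ⟨Finset.mem_univ _, ?_⟩
        by_cases hkk : k = k0
        · subst hkk
          rw [hk0']
          exact hk0
        · rw [hoth k hkk]
          exact hk.2
    have h3 := Finset.card_lt_card h2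
    omega
  refine ⟨o, hoi, hoc, fun x => ?_, hkey⟩
  by_cases hx : (univ.filter (fun k => o k = x)).card < cap x
  · refine Finset.card_le_card fun k hk => ?_
    rw [Finset.mem_filter]
    exact ⟨Finset.mem_univ _, hkey x hx k hk⟩
  · exact (h0c x).trans (not_lt.mp hx)

end Pool.Agent.Helper63.HM
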