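import Pool.Agent.Helper85.Alloc85b

set_option linter.all false

/-!
# MP_47cd0b (room C): CURE C (helper32, helper28)

States in which every point owns at least `a` rows and the points which own exactly `a` rows only own
harmless ones (`harm` = a set of triples point, row, plane). Among these states the number of owned
rows is maximised, then the sum of the squares of the loads is minimised (`Opt`). A shortest improving
path only touches points with more than `a` rows, so the condition survives every exchange, and the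
whole graph (with all harmful edges) may be used for exchanges.
-/

namespace Pool.Agent.Helper63.CureC

open Relation Finset Pool.Agent.Alloc85

variable {X K Q : Type*} [Fintype X] [DecidableEq X] [Fintype K] [DecidableEq K]
  [DecidableEq Q]

/-- a shortest improving path -/
theorem exists_short {R : X → X → Prop} (f : X → ℕ) {z z' : X} (h : ReflTransGen R z z')
    (hf : f z' + 2 ≤ f z) :
    ∃ (n : ℕ) (p : ℕ → X), 0 < n ∧ (∀ i < n, R (p i) (p (i + 1))) ∧
      (∀ i j, i < j → j < n → ¬ R (p i) (p (j + 1))) ∧ (∀ i j, i < j → j ≤ n → p i ≠ p j) ∧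
      f (p n) + 2 ≤ f (p 0) ∧ ∀ i, 0 < i → i < n → f (p 0) ≤ f (p i) + 1 := by
  classical
  have hex : ∃ n : ℕ, ∃ p : ℕ → X, (∀ i < n, R (p i) (p (i + 1))) ∧
      (∀ i j, i < j → j < n → ¬ R (p i) (p (j + 1))) ∧ (∀ i j, i < j → j ≤ n → p i ≠ p j) ∧
      f (p n) + 2 ≤ f (p 0) := by
    obtain ⟨n, p, h0, hn, h1, h2, h3⟩ := exists_path h
    exact ⟨n, p, h1, h2, h3, by rw [h0, hn]; exact hf⟩
  obtain ⟨p, h1, h2, h3, h4⟩ := Nat.find_spec hex
  refine ⟨Nat.find hex, p, ?_, h1, h2, h3, h4, ?_⟩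
  · rcases Nat.eq_zero_or_pos (Nat.find hex) with e | e
    · rw [e] at h4
      omega
    · exact e
  · intro i hi0 hin
    by_contra hcon
    exact Nat.find_min hex hin ⟨p, fun j hj => h1 j (by omega),
      fun j k hjk hk => h2 j k hjk (by omega), fun j k hjk hk => h3 j k hjk (by omega), by omega⟩

/-- the set of the used planes -/
def usd (s : St X K Q) : Finset Q := s.B.image s.pl

theorem usd_swap (s : St X K Q) {k k0 : K} (hk : k ∈ s.B) (hk0 : k0 ∉ s.B) (b : X) :
    usd (swap s k k0 b) = usd s := by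
  show (insert k0 (s.B.erase k)).image (Function.update s.pl k0 (s.pl k)) = s.B.image s.pl
  rw [Finset.image_insert, Function.update_self]
  have h1 : (s.B.erase k).image (Function.update s.pl k0 (s.pl k)) = (s.B.erase k).image s.pl := by
    apply Finset.image_congr
    intro k' hk'
    exact Function.update_of_ne (neOf (Finset.mem_of_mem_erase hk') hk0) _ _
  rw [h1, ← Finset.image_insert, Finset.insert_erase hk]

theorem usd_add (s : St X K Q) {k0 : K} (hk0 : k0 ∉ s.B) (b : X) (q : Q) :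
    usd (add s k0 b q) = insert q (usd s) := by
  show (insert k0 s.B).image (Function.update s.pl k0 q) = insert q (s.B.image s.pl)
  rw [Finset.image_insert, Function.update_self]
  congr 1
  apply Finset.image_congr
  intro k' hk'
  exact Function.update_of_ne (neOf hk' hk0) _ _

section

variable {mem : K → Finset X} {adj : K → Finset Q} {Av : K → Prop} {s : St X K Q}

/-- `shift_path` with the used planes -/
theorem shift_path' (h : Ok mem adj Av s) (p : ℕ → X) (kk ka : ℕ → K) (ty : ℕ → Prop) (n : ℕ)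
    (h1 : ∀ i < n, kk i ∈ s.B ∧ s.own (kk i) = p i)
    (h2 : ∀ i < n, (ty i ∧ p (i + 1) ∈ mem (kk i)) ∨
      (¬ ty i ∧ ka i ∉ s.B ∧ Av (ka i) ∧ s.pl (kk i) ∈ adj (ka i) ∧ p (i + 1) ∈ mem (ka i)))
    (h3 : ∀ i j, i < j → j < n → p i ≠ p j)
    (h4 : ∀ i j, i < j → j < n → ¬ ty i → ¬ ty j → ka i ≠ ka j) :
    ∃ s' : St X K Q, Ok mem adj Av s' ∧ s'.B.card = s.B.card ∧ usd s' = usd s ∧
      (∀ k ∈ s.B, (∀ i < n, s.own k ≠ p i) → k ∈ s'.B ∧ s'.own k = s.own k ∧ s'.pl k = s.pl k) ∧
      (∀ k ∈ s'.B, k ∉ s.B → ∃ i < n, ¬ ty i ∧ k = ka i) ∧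
      ∀ y, ld s' y + (if y = p 0 then 1 else 0) = ld s y + (if y = p n then 1 else 0) := by
  induction n with
  | zero => exact ⟨s, h, rfl, rfl, fun k hk _ => ⟨hk, rfl, rfl⟩, fun k hk hk' => absurd hk hk',
      fun y => rfl⟩
  | succ n ih =>
    obtain ⟨o, ho, hc, hu, hkeep, hnew, hl⟩ := ih (fun i hi => h1 i (by omega))
      (fun i hi => h2 i (by omega)) (fun i j hij hj => h3 i j hij (by omega))
      (fun i j hij hj => h4 i j hij (by omega))
    obtain ⟨hkB, hko⟩ := h1 n (by omega)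
    obtain ⟨hk1, hk2, hk3⟩ := hkeep (kk n) hkB
      (fun i hi => by rw [hko]; exact (h3 i n hi (by omega)).symm)
    have hok : o.own (kk n) = p n := by rw [hk2, hko]
    rcases h2 n (by omega) with ⟨hty, hm⟩ | ⟨hty, hka, hav, hpl, hm⟩
    · refine ⟨reown o (kk n) (p (n + 1)), ho.reown hk1 hm, hc, hu, ?_, ?_, ?_⟩
      · intro k hk hne
        obtain ⟨e1, e2, e3⟩ := hkeep k hk (fun i hi => hne i (by omega))
        have e4 : k ≠ kk n := by
          rintro rfl
          exact hne n (by omega) hko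
        refine ⟨e1, ?_, e3⟩
        show Function.update o.own (kk n) (p (n + 1)) k = _
        rw [Function.update_of_ne e4, e2]
      · intro k hk hk'
        obtain ⟨i, hi, e1, e2⟩ := hnew k hk hk'
        exact ⟨i, by omega, e1, e2⟩
      · intro y
        have e1 := ld_reown o hk1 (p (n + 1)) y
        have e2 := hl y
        rw [hok] at e1
        omega
    · have hkaB : ka n ∉ o.B := by
        intro hcon
        obtain ⟨i, hi, e1, e2⟩ := hnew (ka n) hcon hka
        exact h4 i n hi (by omega) e1 hty e2.symm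
      refine ⟨swap o (kk n) (ka n) (p (n + 1)), ho.swap hk1 hkaB hav (by rw [hk3]; exact hpl) hm,
        ?_, (usd_swap o hk1 hkaB _).trans hu, ?_, ?_, ?_⟩
      · show (insert (ka n) (o.B.erase (kk n))).card = _
        rw [Finset.card_insert_of_notMem (fun e => hkaB (Finset.mem_of_mem_erase e)),
          Finset.card_erase_of_mem hk1, ← hc]
        have : 0 < o.B.card := Finset.card_pos.2 ⟨_, hk1⟩
        omega
      · intro k hk hne
        obtain ⟨e1, e2, e3⟩ := hkeep k hk (fun i hi => hne i (by omega))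
        have e4 : k ≠ kk n := by
          rintro rfl
          exact hne n (by omega) hko
        have e5 : k ≠ ka n := neOf hk hka
        refine ⟨Finset.mem_insert_of_mem (Finset.mem_erase.2 ⟨e4, e1⟩), ?_, ?_⟩
        · show Function.update o.own (ka n) (p (n + 1)) k = _
          rw [Function.update_of_ne e5, e2]
        · show Function.update o.pl (ka n) (o.pl (kk n)) k = _
          rw [Function.update_of_ne e5, e3]
      · intro k hk hk'
        rcases Finset.mem_insert.1 hk with rfl | e0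
        · exact ⟨n, by omega, hty, rfl⟩
        · obtain ⟨i, hi, e1, e2⟩ := hnew k (Finset.mem_of_mem_erase e0) hk'
          exact ⟨i, by omega, e1, e2⟩
      · intro y
        have e1 := ld_swap o hk1 hkaB (p (n + 1)) y
        have e2 := hl y
        rw [hok] at e1
        omega

/-- shifting along a given shortest path: the points off the path keep their rows and planes -/
theorem shiftP (h : Ok mem adj Av s) (p : ℕ → X) (n : ℕ) (hn0 : 0 < n)
    (hs : ∀ i < n, Step mem adj Av s (p i) (p (i + 1)))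
    (hcut : ∀ i j, i < j → j < n → ¬ Step mem adj Av s (p i) (p (j + 1)))
    (hdis : ∀ i j, i < j → j ≤ n → p i ≠ p j) :
    ∃ s' : St X K Q, Ok mem adj Av s' ∧ s'.B.card = s.B.card ∧ usd s' = usd s ∧
      (∀ k ∈ s.B, (∀ i < n, s.own k ≠ p i) → k ∈ s'.B ∧ s'.own k = s.own k ∧ s'.pl k = s.pl k) ∧
      ∀ y, ld s' y + (if y = p 0 then 1 else 0) = ld s y + (if y = p n then 1 else 0) := by
  classical
  have hc : ∀ i : ℕ, ∃ k k0 : K, i < n → k ∈ s.B ∧ s.own k = p i ∧ (p (i + 1) ∈ mem k ∨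
      (k0 ∉ s.B ∧ Av k0 ∧ s.pl k ∈ adj k0 ∧ p (i + 1) ∈ mem k0)) := by
    intro i
    rcases Nat.lt_or_ge i n with hi | hi
    · obtain ⟨k, hk, ho, hh⟩ := hs i hi
      rcases hh with hh | ⟨k0, e1, e2, e3, e4⟩
      · exact ⟨k, k, fun _ => ⟨hk, ho, Or.inl hh⟩⟩
      · exact ⟨k, k0, fun _ => ⟨hk, ho, Or.inr ⟨e1, e2, e3, e4⟩⟩⟩
    · obtain ⟨k, _, _, _⟩ := hs 0 hn0
      exact ⟨k, k, fun hi' => absurd hi' (by omega)⟩
  choose kk ka hkk using hc
  obtain ⟨s', g1, g2, gu, g3, -, g5⟩ := shift_path' h p kk ka (fun i => p (i + 1) ∈ mem (kk i)) n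
    (fun i hi => ⟨(hkk i hi).1, (hkk i hi).2.1⟩)
    (fun i hi => by
      by_cases e : p (i + 1) ∈ mem (kk i)
      · exact Or.inl ⟨e, e⟩
      · rcases (hkk i hi).2.2 with e1 | e1
        · exact absurd e1 e
        · exact Or.inr ⟨e, e1⟩)
    (fun i j hij hj => hdis i j hij hj.le)
    (fun i j hij hj ti tj he => by
      have hi : i < n := by omega
      have e1 : ka i ∉ s.B ∧ Av (ka i) ∧ s.pl (kk i) ∈ adj (ka i) ∧ p (i + 1) ∈ mem (ka i) := by
        rcases (hkk i hi).2.2 with e1 | e1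
        · exact absurd e1 ti
        · exact e1
      have e2 : ka j ∉ s.B ∧ Av (ka j) ∧ s.pl (kk j) ∈ adj (ka j) ∧ p (j + 1) ∈ mem (ka j) := by
        rcases (hkk j hj).2.2 with e2 | e2
        · exact absurd e2 tj
        · exact e2
      exact hcut i j hij hj ⟨kk i, (hkk i hi).1, (hkk i hi).2.1,
        Or.inr ⟨ka i, e1.1, e1.2.1, e1.2.2.1, by rw [he]; exact e2.2.2.2⟩⟩)
  exact ⟨s', g1, g2, gu, g3, g5⟩

end

/-- the states of level `a` -/
structure Lev (mem : K → Finset X) (adj : K → Finset Q) (Rep : Finset X) (a : ℕ)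
    (harm : X → K → Q → Prop) (J : Finset Q → Prop) (s : St X K Q) : Prop where
  ok : Ok mem adj (AvR mem Rep) s
  load : ∀ z, z ∉ Rep → a ≤ ld s z
  safe : ∀ k ∈ s.B, ld s (s.own k) = a → ¬ harm (s.own k) k (s.pl k)
  used : J (usd s)

section

variable {mem : K → Finset X} {adj : K → Finset Q} {Rep : Finset X} {a : ℕ}
  {harm : X → K → Q → Prop} {J : Finset Q → Prop} {s : St X K Q}

theorem Lev.shift (h : Lev mem adj Rep a harm J s) {z z' : X}
    (hr : ReflTransGen (Step mem adj (AvR mem Rep) s) z z') (hlt : ld s z' + 2 ≤ ld s z) :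
    ∃ t : St X K Q, Lev mem adj Rep a harm J t ∧ t.B.card = s.B.card ∧ sq t < sq s := by
  classical
  obtain ⟨n, p, hn0, hs, hcut, hdis, hbad, hin⟩ := exists_short (ld s) hr hlt
  obtain ⟨t, g1, g2, gu, g3, g4⟩ := shiftP h.ok p n hn0 hs hcut hdis
  have hnR : p n ∉ Rep := by
    have h1 := (Step.notRep h.ok (hs (n - 1) (by omega))).2
    rwa [show n - 1 + 1 = n by omega] at h1
  have hna := h.load _ hnR
  have hne : p 0 ≠ p n := hdis 0 n hn0 le_rfl
  have hbig : ∀ i ≤ n, a + 1 ≤ ld t (p i) := by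
    intro i hi
    have e1 := g4 (p i)
    rcases Nat.eq_zero_or_pos i with rfl | hi0
    · rw [if_pos rfl, if_neg hne] at e1
      omega
    · rw [if_neg (hdis 0 i hi0 hi).symm] at e1
      rcases Nat.lt_or_ge i n with hin' | hin'
      · have e2 := hin i hi0 hin'
        omega
      · have e3 : i = n := by omega
        subst e3
        rw [if_pos rfl] at e1
        omega
  refine ⟨t, ⟨g1, ?_, ?_, by rw [gu]; exact h.used⟩, g2, sq_shift hne g4 (by omega)⟩
  · intro y hy
    by_cases e : y = p 0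
    · rw [e]
      exact (Nat.le_succ a).trans (hbig 0 (by omega))
    · have e1 := g4 y
      have e2 := h.load y hy
      rw [if_neg e] at e1
      omega
  · intro k hk hl
    obtain ⟨y, hy⟩ : ∃ y, t.own k = y := ⟨_, rfl⟩
    rw [hy] at hl ⊢
    have hoff : ∀ i ≤ n, y ≠ p i := by
      intro i hi e
      have := hbig i hi
      rw [← e] at this
      omega
    have hls : ld t y = ld s y := by
      have e1 := g4 y
      rwa [if_neg (hoff 0 (by omega)), if_neg (hoff n le_rfl), add_zero, add_zero] at e1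
    have hsub : (s.B.filter fun k' => s.own k' = y) ⊆ (t.B.filter fun k' => t.own k' = y) := by
      intro k' hk'
      rw [Finset.mem_filter] at hk' ⊢
      obtain ⟨e1, e2, -⟩ := g3 k' hk'.1 (fun i hi => by rw [hk'.2]; exact hoff i hi.le)
      exact ⟨e1, e2.trans hk'.2⟩
    have heq := Finset.eq_of_subset_of_card_le hsub (le_of_eq hls)
    have hkt : k ∈ t.B.filter fun k' => t.own k' = y := Finset.mem_filter.2 ⟨hk, hy⟩
    rw [← heq, Finset.mem_filter] at hkt
    obtain ⟨-, -, e3⟩ := g3 k hkt.1 (fun i hi => by rw [hkt.2]; exact hoff i hi.le)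
    have h1 := h.safe k hkt.1 (by rw [hkt.2, ← hls]; exact hl)
    rw [hkt.2] at h1
    rw [e3]
    exact h1

theorem Lev.add (h : Lev mem adj Rep a harm J s) (hJ : ∀ U V : Finset Q, U ⊆ V → J U → J V)
    {k0 : K} (hk0 : k0 ∉ s.B) (hav : AvR mem Rep k0) {q : Q} (hq : q ∈ adj k0)
    (hfree : ∀ k ∈ s.B, s.pl k ≠ q) {b : X} (hb : b ∈ mem k0) :
    Lev mem adj Rep a harm J (Alloc85.add s k0 b q) := by
  have hok := h.ok.add hk0 (fun _ h => h) hav hq hfree hb
  refine ⟨hok, ?_, ?_, ?_⟩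
  · intro z hz
    rw [ld_add s hk0]
    have := h.load z hz
    omega
  · intro k hk hl
    rw [ld_add s hk0] at hl
    have hR : (Alloc85.add s k0 b q).own k ∉ Rep := hok.av k hk _ (hok.own k hk)
    have h1 := h.load _ hR
    have h2 : (Alloc85.add s k0 b q).own k ≠ b := by
      intro e
      rw [if_pos e] at hl
      omega
    rw [if_neg h2, add_zero] at hl
    have h3 : k ≠ k0 := by
      rintro rfl
      exact h2 (Function.update_self ..)
    have h4 : k ∈ s.B := by
      rcases Finset.mem_insert.1 hk with e | e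
      · exact absurd e h3
      · exact e
    have h5 : (Alloc85.add s k0 b q).own k = s.own k := Function.update_of_ne h3 _ _
    have h6 : (Alloc85.add s k0 b q).pl k = s.pl k := Function.update_of_ne h3 _ _
    rw [h5] at hl ⊢
    rw [h6]
    exact h.safe k h4 hl
  · rw [usd_add s hk0]
    exact hJ _ _ (Finset.subset_insert _ _) h.used

end

/-- the best states of level `a` -/
structure Opt (mem : K → Finset X) (adj : K → Finset Q) (Rep : Finset X) (a : ℕ)
    (harm : X → K → Q → Prop) (J : Finset Q → Prop) (s : St X K Q) : Prop where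
  lev : Lev mem adj Rep a harm J s
  card : ∀ t, Lev mem adj Rep a harm J t → t.B.card ≤ s.B.card
  sq : ∀ t, Lev mem adj Rep a harm J t → t.B.card = s.B.card → Alloc85.sq s ≤ Alloc85.sq t

theorem exists_opt (mem : K → Finset X) (adj : K → Finset Q) (Rep : Finset X) (a : ℕ)
    (harm : X → K → Q → Prop) (J : Finset Q → Prop) (h : ∃ s, Lev mem adj Rep a harm J s) :
    ∃ s, Opt mem adj Rep a harm J s := by
  obtain ⟨s1, h1, h2⟩ := exists_min (Lev mem adj Rep a harm J)
    (fun s => Fintype.card K - s.B.card) h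
  obtain ⟨s, h3, h4⟩ := exists_min
    (fun s => Lev mem adj Rep a harm J s ∧ s.B.card = s1.B.card) (fun s => Alloc85.sq s)
    ⟨s1, h1, rfl⟩
  refine ⟨s, h3.1, ?_, ?_⟩
  · intro t ht
    have e1 := h2 t ht
    have e2 : t.B.card ≤ Fintype.card K := Finset.card_le_univ _
    have e3 : s1.B.card ≤ Fintype.card K := Finset.card_le_univ _
    rw [h3.2]
    omega
  · intro t ht hc
    exact h4 t ⟨ht, hc.trans h3.2⟩

section

variable {mem : K → Finset X} {adj : K → Finset Q} {Rep : Finset X} {a : ℕ}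
  {harm : X → K → Q → Prop} {J : Finset Q → Prop} {s : St X K Q}

theorem Opt.reach (h : Opt mem adj Rep a harm J s) {z z' : X}
    (hr : ReflTransGen (Step mem adj (AvR mem Rep) s) z z') : ld s z ≤ ld s z' + 1 := by
  by_contra hcon
  obtain ⟨t, g1, g2, g3⟩ := h.lev.shift hr (by omega)
  exact absurd g3 (not_lt.2 (h.sq t g1 g2))

/-- the classes -/
theorem Opt.classes (h : Opt mem adj Rep a harm J s) {z : X} (hz : z ∉ Rep) :
    a ≤ cls mem adj Rep s z ∧ cls mem adj Rep s z ≤ ld s z ∧ ld s z ≤ tp mem adj Rep s z ∧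
      tp mem adj Rep s z ≤ cls mem adj Rep s z + 1 := by
  obtain ⟨y, h1, h2⟩ := exists_cls mem adj Rep s z
  refine ⟨?_, cls_le ReflTransGen.refl, le_tp ReflTransGen.refl, ?_⟩
  · rw [← h2]
    exact h.lev.load y (reach_notRep h.lev.ok hz h1)
  · rw [← h2]
    exact tp_le fun w hw => h.reach (hw.trans h1)

/-- the points of an owned row -/
theorem owned_mono {k : K} (hk : k ∈ s.B) {z : X} (hz : z ∈ mem k) :
    cls mem adj Rep s (s.own k) ≤ cls mem adj Rep s z ∧
      tp mem adj Rep s (s.own k) ≤ tp mem adj Rep s z := by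
  have h1 : ReflTransGen (Step mem adj (AvR mem Rep) s) (s.own k) z :=
    ReflTransGen.single ⟨k, hk, rfl, Or.inl hz⟩
  exact ⟨cls_mono h1, tp_mono h1⟩

/-- every plane over a planeless row is used -/
theorem Opt.full (h : Opt mem adj Rep a harm J s) (hJ : ∀ U V : Finset Q, U ⊆ V → J U → J V)
    {k0 : K} (hk0 : k0 ∉ s.B) (hav : AvR mem Rep k0) (hne : (mem k0).Nonempty) {q : Q}
    (hq : q ∈ adj k0) : ∃ k ∈ s.B, s.pl k = q := by
  by_contra hcon
  push Not at hcon
  obtain ⟨b, hb⟩ := hne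
  have h1 := h.card _ (h.lev.add hJ hk0 hav hq hcon hb)
  have h3 : (Alloc85.add s k0 b q).B.card = s.B.card + 1 := Finset.card_insert_of_notMem hk0
  omega

/-- the points of a planeless row, seen from the owner of a plane over it -/
theorem planeless_mono {k k0 : K} (hk : k ∈ s.B) (hk0 : k0 ∉ s.B) (hav : AvR mem Rep k0)
    (hq : s.pl k ∈ adj k0) {z : X} (hz : z ∈ mem k0) :
    cls mem adj Rep s (s.own k) ≤ cls mem adj Rep s z ∧
      tp mem adj Rep s (s.own k) ≤ tp mem adj Rep s z := by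
  have h1 : ReflTransGen (Step mem adj (AvR mem Rep) s) (s.own k) z :=
    ReflTransGen.single ⟨k, hk, rfl, Or.inr ⟨k0, hk0, hav, hq, hz⟩⟩
  exact ⟨cls_mono h1, tp_mono h1⟩

/-- the rows of the points of `Rep`, if `Rep` cannot be made smaller -/
theorem Opt.rep (h : Opt mem adj Rep a harm J s) {r : X} (hr : r ∈ Rep)
    (hmin : ¬ ∃ t : St X K Q, Ok mem adj (AvR mem (Rep.erase r)) t ∧ (∀ z, z ∉ Rep → a ≤ ld t z) ∧
      1 ≤ ld t r)
    {k0 : K} (hrk : r ∈ mem k0) (hk0R : ∀ z ∈ mem k0, z ∈ Rep → z = r) {q : Q}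
    (hq : q ∈ adj k0) : ∃ k ∈ s.B, s.pl k = q ∧ tp mem adj Rep s (s.own k) ≤ a := by
  classical
  have hok := h.lev.ok
  have hk0 : k0 ∉ s.B := fun h => hok.av k0 h r hrk hr
  have hsub : ∀ k, AvR mem Rep k → AvR mem (Rep.erase r) k := fun k h z hz hz' =>
    h z hz (Finset.mem_of_mem_erase hz')
  have hk0av : AvR mem (Rep.erase r) k0 := fun z hz hz' =>
    Finset.ne_of_mem_erase hz' (hk0R z hz (Finset.mem_of_mem_erase hz'))
  by_cases hfree : ∀ k ∈ s.B, s.pl k ≠ q
  · exfalso
    refine hmin ⟨Alloc85.add s k0 r q, hok.add hk0 hsub hk0av hq hfree hrk, fun z hz => ?_, ?_⟩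
    · rw [ld_add s hk0]
      have := h.lev.load z hz
      omega
    · rw [ld_add s hk0, if_pos rfl]
      omega
  · push Not at hfree
    obtain ⟨k, hk, hkq⟩ := hfree
    refine ⟨k, hk, hkq, ?_⟩
    by_contra hD
    have hyR : s.own k ∉ Rep := hok.av k hk _ (hok.own k hk)
    obtain ⟨w, hw, hw2⟩ : ∃ w, ReflTransGen (Step mem adj (AvR mem Rep) s) w (s.own k) ∧
        a + 1 ≤ ld s w := by
      by_contra hcon
      push Not at hcon
      exact hD (tp_le fun w hw => by have := hcon w hw; omega)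
    have hwR : w ∉ Rep := reach_notRep' hok hyR hw
    obtain ⟨s', g1, g2, g3, g4⟩ := shift85 hok hw
    obtain ⟨e1, e2, e3⟩ := g3 k hk rfl
    have hk0' : k0 ∉ s'.B := fun h => g1.av k0 h r hrk hr
    refine hmin ⟨swap s' k k0 r, (g1.mono hsub).swap e1 hk0' hk0av
      (by rw [e3, hkq]; exact hq) hrk, fun z hz => ?_, ?_⟩
    · have f1 := ld_swap s' e1 hk0' r z
      have f2 := g4 z
      have f3 := h.lev.load z hz
      have e : z ≠ r := fun h => hz (by rw [h]; exact hr)
      rw [if_neg e, e2] at f1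
      by_cases e4 : z = s.own k
      · rw [if_pos e4] at f1 f2
        by_cases e5 : z = w
        · rw [if_pos e5] at f2
          rw [← e5] at hw2
          omega
        · rw [if_neg e5] at f2
          omega
      · rw [if_neg e4] at f1 f2
        by_cases e5 : z = w
        · rw [if_pos e5] at f2
          rw [← e5] at hw2
          omega
        · rw [if_neg e5] at f2
          omega
    · have f1 := ld_swap s' e1 hk0' r r
      have f3 : r ≠ s'.own k := fun h => hyR (by rw [← e2, ← h]; exact hr)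
      rw [if_neg f3, if_pos rfl] at f1
      omega

end

/-- **CURE C**, in the form of `alloc85w` -/
theorem cureC (mem : K → Finset X) (adj : K → Finset Q) (Rep : Finset X) (a : ℕ)
    (harm : X → K → Q → Prop) (J : Finset Q → Prop)
    (hJ : ∀ U V : Finset Q, U ⊆ V → J U → J V)
    (h0 : ∃ s, Lev mem adj Rep a harm J s)
    (hmin : ∀ r ∈ Rep, ¬ ∃ t : St X K Q, Ok mem adj (AvR mem (Rep.erase r)) t ∧
      (∀ z, z ∉ Rep → a ≤ ld t z) ∧ 1 ≤ ld t r) :
    ∃ (s : St X K Q) (cl tp : X → ℕ), Opt mem adj Rep a harm J s ∧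
      (∀ k ∈ s.B, (∀ z ∈ mem k, z ∉ Rep) ∧ s.own k ∈ mem k ∧ s.pl k ∈ adj k) ∧
      (∀ k ∈ s.B, ∀ k' ∈ s.B, s.pl k = s.pl k' → k = k') ∧
      (∀ z, z ∉ Rep → a ≤ cl z ∧ cl z ≤ ld s z ∧ ld s z ≤ tp z ∧ tp z ≤ cl z + 1) ∧
      (∀ k ∈ s.B, ∀ z ∈ mem k, cl (s.own k) ≤ cl z ∧ tp (s.own k) ≤ tp z) ∧
      (∀ k0, k0 ∉ s.B → (∀ z ∈ mem k0, z ∉ Rep) → (mem k0).Nonempty → ∀ q ∈ adj k0,
        ∃ k ∈ s.B, s.pl k = q ∧ ∀ z ∈ mem k0, cl (s.own k) ≤ cl z ∧ tp (s.own k) ≤ tp z) ∧
      (∀ r ∈ Rep, ∀ k0, r ∈ mem k0 → (∀ z ∈ mem k0, z ∈ Rep → z = r) → ∀ q ∈ adj k0,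
        ∃ k ∈ s.B, s.pl k = q ∧ tp (s.own k) ≤ a) ∧
      (∀ k ∈ s.B, ld s (s.own k) = a → ¬ harm (s.own k) k (s.pl k)) ∧
      J (usd s) := by
  obtain ⟨s, hs⟩ := exists_opt mem adj Rep a harm J h0
  have hok := hs.lev.ok
  refine ⟨s, cls mem adj Rep s, tp mem adj Rep s, hs,
    fun k hk => ⟨hok.av k hk, hok.own k hk, hok.pl k hk⟩, hok.inj, fun z hz => hs.classes hz,
    fun k hk z hz => owned_mono hk hz, ?_, ?_, hs.lev.safe, hs.lev.used⟩
  · intro k0 hk0 hav hne q hq
    obtain ⟨k, hk, hkq⟩ := hs.full hJ hk0 hav hne hq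
    exact ⟨k, hk, hkq, fun z hz => planeless_mono hk hk0 hav (by rw [hkq]; exact hq) hz⟩
  · intro r hr k0 hrk hu q hq
    exact hs.rep hr (hmin r hr) hrk hu hq

end Pool.Agent.Helper63.CureC
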