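import Pool.Agent.Helper63.HM.CureC

set_option linter.all false

/-!
# MP_47cd0b (room C): CURE C level by level (helper28)

At level `a` only the points which are not in a class below `a` and the planes which are not used by
the classes below `a` take part. `R` = `Rep` and the points of class `< a`, `U` = the planes used by
these points.
-/

namespace Pool.Agent.Helper63.CureC

open Relation Finset Pool.Agent.Alloc85

variable {X K Q : Type*} [Fintype X] [DecidableEq X] [Fintype K] [DecidableEq K]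
  [DecidableEq Q]

/-- the planes of `k` outside `U` -/
def dif (adj : K → Finset Q) (U : Finset Q) (k : K) : Finset Q := adj k \ U

/-- `Rep` and the points of class `< b` -/
def lowX (Rep : Finset X) (cl : X → ℕ) (b : ℕ) : Finset X := univ.filter fun z => z ∈ Rep ∨ cl z < b

/-- the planes used by the points of class `< b` -/
def lowQ (s : St X K Q) (cl : X → ℕ) (b : ℕ) : Finset Q :=
  (s.B.filter fun k => cl (s.own k) < b).image s.pl

theorem mem_lowX {Rep : Finset X} {cl : X → ℕ} {b : ℕ} {z : X} :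
    z ∈ lowX Rep cl b ↔ z ∈ Rep ∨ cl z < b := by simp [lowX]

theorem mem_lowQ {s : St X K Q} {cl : X → ℕ} {b : ℕ} {q : Q} :
    q ∈ lowQ s cl b ↔ ∃ k ∈ s.B, cl (s.own k) < b ∧ s.pl k = q := by
  simp only [lowQ, Finset.mem_image, Finset.mem_filter]
  constructor
  · rintro ⟨k, ⟨h1, h2⟩, h3⟩
    exact ⟨k, h1, h2, h3⟩
  · rintro ⟨k, h1, h2, h3⟩
    exact ⟨k, ⟨h1, h2⟩, h3⟩

/-- the state `t` on its own rows, the state `s` on the rows of `C` -/
def glue (s t : St X K Q) (C : Finset K) : St X K Q :=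
  ⟨C ∪ t.B, fun k => if k ∈ t.B then t.own k else s.own k,
    fun k => if k ∈ t.B then t.pl k else s.pl k⟩

/-- the agreement of a level state `t` with the final state on the class `b` -/
structure Agree (Rep : Finset X) (s t : St X K Q) (cl clt tpf tpt : X → ℕ) (b : ℕ) : Prop where
  fwd : ∀ k ∈ s.B, cl (s.own k) = b → k ∈ t.B ∧ t.own k = s.own k ∧ t.pl k = s.pl k
  bwd : ∀ k ∈ t.B, clt (t.own k) = b → k ∈ s.B ∧ s.own k = t.own k ∧ s.pl k = t.pl k
  tpe : ∀ z, z ∉ Rep → cl z = b → tpf z = tpt z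

/-- the invariant before level `a` -/
structure Inv (mem : K → Finset X) (adj : K → Finset Q) (Rep : Finset X)
    (harm : ℕ → Finset X → Finset Q → X → K → Q → Prop) (J : Finset Q → Prop)
    (P : ℕ → Finset X → Finset Q → St X K Q → Prop)
    (a : ℕ) (s : St X K Q) (cl tpf : X → ℕ) : Prop where
  ok : Ok mem adj (AvR mem Rep) s
  load : ∀ z, z ∉ Rep → a ≤ cl z → a ≤ ld s z
  cls : ∀ z, z ∉ Rep → cl z < a → 1 ≤ cl z ∧ cl z ≤ ld s z ∧ ld s z ≤ tpf z ∧ tpf z ≤ cl z + 1
  up : ∀ k ∈ s.B, a ≤ cl (s.own k) → ∀ z ∈ mem k, a ≤ cl z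
  own : ∀ k ∈ s.B, cl (s.own k) < a → ∀ z ∈ mem k, cl z < a →
    cl (s.own k) ≤ cl z ∧ tpf (s.own k) ≤ tpf z
  pls : ∀ k0, k0 ∉ s.B → AvR mem Rep k0 → (∃ z ∈ mem k0, cl z < a) → ∀ q ∈ adj k0,
    ∃ k ∈ s.B, s.pl k = q ∧ cl (s.own k) < a ∧
      ∀ z ∈ mem k0, cl z < a → cl (s.own k) ≤ cl z ∧ tpf (s.own k) ≤ tpf z
  used : J (usd s)
  rep : 1 < a → ∀ r ∈ Rep, ∀ k0, r ∈ mem k0 → (∀ z ∈ mem k0, z ∈ Rep → z = r) → ∀ q ∈ adj k0,
    ∃ k ∈ s.B, s.pl k = q ∧ cl (s.own k) < a ∧ tpf (s.own k) ≤ 1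
  lev : ∀ b, 1 ≤ b → b < a → ∃ t : St X K Q,
    Opt mem (dif adj (lowQ s cl b)) (lowX Rep cl b) b (harm b (lowX Rep cl b) (lowQ s cl b))
      (fun V => J (lowQ s cl b ∪ V)) t ∧ P b (lowX Rep cl b) (lowQ s cl b) t ∧
    (∀ z, z ∉ Rep → (cl z = b ↔ (z ∉ lowX Rep cl b ∧
      Alloc85.cls mem (dif adj (lowQ s cl b)) (lowX Rep cl b) t z = b))) ∧
    Agree Rep s t cl (Alloc85.cls mem (dif adj (lowQ s cl b)) (lowX Rep cl b) t) tpf
      (tp mem (dif adj (lowQ s cl b)) (lowX Rep cl b) t) b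

section

variable {mem : K → Finset X} {adj : K → Finset Q} {Rep : Finset X}
  {harm : ℕ → Finset X → Finset Q → X → K → Q → Prop} {J : Finset Q → Prop}
  {P : ℕ → Finset X → Finset Q → St X K Q → Prop}

/-- the residual state -/
theorem Inv.residual {a : ℕ} {s : St X K Q} {cl tpf : X → ℕ}
    (h : Inv mem adj Rep harm J P a s cl tpf) :
    ∃ r : St X K Q, Ok mem (dif adj (lowQ s cl a)) (AvR mem (lowX Rep cl a)) r ∧
      (∀ z, z ∉ lowX Rep cl a → a ≤ ld r z) ∧ J (lowQ s cl a ∪ usd r) := by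
  refine ⟨⟨s.B.filter fun k => a ≤ cl (s.own k), s.own, s.pl⟩, ⟨?_, ?_, ?_, ?_⟩, ?_, ?_⟩
  · intro k hk z hz hz'
    rw [Finset.mem_filter] at hk
    rcases mem_lowX.1 hz' with h1 | h1
    · exact h.ok.av k hk.1 z hz h1
    · have := h.up k hk.1 hk.2 z hz
      omega
  · intro k hk
    rw [Finset.mem_filter] at hk
    exact h.ok.own k hk.1
  · intro k hk
    rw [Finset.mem_filter] at hk
    refine Finset.mem_sdiff.2 ⟨h.ok.pl k hk.1, fun hq => ?_⟩
    obtain ⟨k', hk', h1, h2⟩ := mem_lowQ.1 hq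
    have e := h.ok.inj k' hk' k hk.1 h2
    subst e
    omega
  · intro k hk k' hk' e
    rw [Finset.mem_filter] at hk hk'
    exact h.ok.inj k hk.1 k' hk'.1 e
  · intro z hz
    rw [mem_lowX] at hz
    push Not at hz
    have h1 := h.load z hz.1 hz.2
    have h2 : ((s.B.filter fun k => a ≤ cl (s.own k)).filter fun k => s.own k = z)
        = s.B.filter fun k => s.own k = z := by
      ext k
      simp only [Finset.mem_filter]
      constructor
      · rintro ⟨⟨e1, -⟩, e2⟩
        exact ⟨e1, e2⟩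
      · rintro ⟨e1, e2⟩
        exact ⟨⟨e1, by rw [e2]; exact hz.2⟩, e2⟩
    show a ≤ ((s.B.filter fun k => a ≤ cl (s.own k)).filter fun k => s.own k = z).card
    rw [h2]
    exact h1
  · have h1 : lowQ s cl a ∪ usd (⟨s.B.filter fun k => a ≤ cl (s.own k), s.own, s.pl⟩ : St X K Q)
        = usd s := by
      ext q
      rw [Finset.mem_union, mem_lowQ]
      show _ ∨ q ∈ (s.B.filter fun k => a ≤ cl (s.own k)).image s.pl ↔ q ∈ s.B.image s.pl
      simp only [Finset.mem_image, Finset.mem_filter]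
      constructor
      · rintro (⟨k, e1, e2, e3⟩ | ⟨k, ⟨e1, e2⟩, e3⟩)
        · exact ⟨k, e1, e3⟩
        · exact ⟨k, e1, e3⟩
      · rintro ⟨k, e1, e3⟩
        rcases Nat.lt_or_ge (cl (s.own k)) a with e | e
        · exact Or.inl ⟨k, e1, e, e3⟩
        · exact Or.inr ⟨k, ⟨e1, e⟩, e3⟩
    rw [h1]
    exact h.used

/-- one level -/
theorem Inv.step {a : ℕ} (ha : 1 ≤ a) {s t : St X K Q} {cl tpf : X → ℕ}
    (hJ : ∀ U V : Finset Q, U ⊆ V → J U → J V)
    (hmin : ∀ r ∈ Rep, ¬ ∃ t : St X K Q, Feas mem adj (Rep.erase r) t)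
    (h : Inv mem adj Rep harm J P a s cl tpf)
    (ht : Opt mem (dif adj (lowQ s cl a)) (lowX Rep cl a) a
      (harm a (lowX Rep cl a) (lowQ s cl a)) (fun V => J (lowQ s cl a ∪ V)) t)
    (hP : P a (lowX Rep cl a) (lowQ s cl a) t) :
    ∃ (s' : St X K Q) (cl' tpf' : X → ℕ), Inv mem adj Rep harm J P (a + 1) s' cl' tpf' := by
  classical
  obtain ⟨R, hR⟩ : ∃ R, R = lowX Rep cl a := ⟨_, rfl⟩
  obtain ⟨U, hU⟩ : ∃ U, U = lowQ s cl a := ⟨_, rfl⟩
  obtain ⟨ct, hct⟩ : ∃ ct, ct = Alloc85.cls mem (dif adj U) R t := ⟨_, rfl⟩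
  obtain ⟨tt, htt⟩ : ∃ tt, tt = tp mem (dif adj U) R t := ⟨_, rfl⟩
  rw [← hR, ← hU] at ht hP
  have hmR : ∀ z, z ∈ R ↔ z ∈ Rep ∨ cl z < a := fun z => by rw [hR]; exact mem_lowX
  have hmU : ∀ q, q ∈ U ↔ ∃ k ∈ s.B, cl (s.own k) < a ∧ s.pl k = q := fun q => by
    rw [hU]; exact mem_lowQ
  have hRepR : ∀ z, z ∈ Rep → z ∈ R := fun z hz => (hmR z).2 (Or.inl hz)
  obtain ⟨C, hC⟩ : ∃ C : Finset K, C = s.B.filter fun k => cl (s.own k) < a := ⟨_, rfl⟩
  have hmC : ∀ k, k ∈ C ↔ k ∈ s.B ∧ cl (s.own k) < a := fun k => by rw [hC]; simp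
  obtain ⟨s', hs'⟩ : ∃ s' : St X K Q, s' = glue s t C := ⟨_, rfl⟩
  have htok := ht.lev.ok
  -- facts on the new state
  have hCt : ∀ k ∈ C, k ∉ t.B := by
    intro k hk hk'
    have h1 := htok.av k hk' _ (h.ok.own k ((hmC k).1 hk).1)
    exact h1 ((hmR _).2 (Or.inr ((hmC k).1 hk).2))
  have hB' : ∀ k, k ∈ s'.B ↔ k ∈ C ∨ k ∈ t.B := fun k => by
    rw [hs']; exact Finset.mem_union
  have hot : ∀ k ∈ t.B, s'.own k = t.own k ∧ s'.pl k = t.pl k := by
    intro k hk
    rw [hs']
    exact ⟨if_pos hk, if_pos hk⟩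
  have hoC : ∀ k ∈ C, s'.own k = s.own k ∧ s'.pl k = s.pl k := by
    intro k hk
    rw [hs']
    exact ⟨if_neg (hCt k hk), if_neg (hCt k hk)⟩
  have htR : ∀ k ∈ t.B, t.own k ∉ R := fun k hk => htok.av k hk _ (htok.own k hk)
  have hCR : ∀ k ∈ C, s.own k ∈ R := fun k hk => (hmR _).2 (Or.inr ((hmC k).1 hk).2)
  have hldR : ∀ z, z ∉ R → ld s' z = ld t z := by
    intro z hz
    have h1 : (s'.B.filter fun k => s'.own k = z) = t.B.filter fun k => t.own k = z := by
      ext k
      simp only [Finset.mem_filter, hB']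
      constructor
      · rintro ⟨e1 | e1, e2⟩
        · rw [(hoC k e1).1] at e2
          exact absurd (e2 ▸ hCR k e1) hz
        · rw [(hot k e1).1] at e2
          exact ⟨e1, e2⟩
      · rintro ⟨e1, e2⟩
        exact ⟨Or.inr e1, by rw [(hot k e1).1]; exact e2⟩
    unfold ld
    rw [h1]
  have hldC : ∀ z, z ∉ Rep → z ∈ R → ld s' z = ld s z := by
    intro z hzR hz
    have hclz : cl z < a := by
      rcases (hmR z).1 hz with e | e
      · exact absurd e hzR
      · exact e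
    have h1 : (s'.B.filter fun k => s'.own k = z) = s.B.filter fun k => s.own k = z := by
      ext k
      simp only [Finset.mem_filter, hB']
      constructor
      · rintro ⟨e1 | e1, e2⟩
        · rw [(hoC k e1).1] at e2
          exact ⟨((hmC k).1 e1).1, e2⟩
        · rw [(hot k e1).1] at e2
          exact absurd (e2 ▸ hz) (htR k e1)
      · rintro ⟨e1, e2⟩
        have e3 : k ∈ C := (hmC k).2 ⟨e1, by rw [e2]; exact hclz⟩
        exact ⟨Or.inl e3, by rw [(hoC k e3).1]; exact e2⟩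
    unfold ld
    rw [h1]
  have hcla : ∀ z, z ∉ R → a ≤ ct z ∧ ct z ≤ ld t z ∧ ld t z ≤ tt z ∧ tt z ≤ ct z + 1 := by
    intro z hz
    rw [hct, htt]
    exact ht.classes hz
  -- the new classes
  obtain ⟨cl', hcl'⟩ : ∃ cl' : X → ℕ, cl' = fun z => if z ∈ R then cl z else
    (if ct z = a then a else a + 1) := ⟨_, rfl⟩
  obtain ⟨tp', htp'⟩ : ∃ tp' : X → ℕ, tp' = fun z => if z ∈ R then tpf z else tt z := ⟨_, rfl⟩
  have hc1 : ∀ z, z ∈ R → cl' z = cl z := fun z hz => by rw [hcl']; exact if_pos hz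
  have hc2 : ∀ z, z ∉ R → ct z = a → cl' z = a := fun z hz hz' => by
    rw [hcl']; simp only; rw [if_neg hz, if_pos hz']
  have hc3 : ∀ z, z ∉ R → ct z ≠ a → cl' z = a + 1 := fun z hz hz' => by
    rw [hcl']; simp only; rw [if_neg hz, if_neg hz']
  have ht1 : ∀ z, z ∈ R → tp' z = tpf z := fun z hz => by rw [htp']; exact if_pos hz
  have ht2 : ∀ z, z ∉ R → tp' z = tt z := fun z hz => by rw [htp']; exact if_neg hz
  have hc4 : ∀ z, z ∉ R → a ≤ cl' z := by
    intro z hz
    by_cases e : ct z = a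
    · rw [hc2 z hz e]
    · rw [hc3 z hz e]; omega
  have hc5 : ∀ z, z ∉ R → cl' z < a + 1 → ct z = a := by
    intro z hz hlt
    by_contra e
    rw [hc3 z hz e] at hlt
    omega
  have hclR : ∀ z, z ∉ Rep → z ∈ R → cl z < a := by
    intro z hz hz'
    rcases (hmR z).1 hz' with e | e
    · exact absurd e hz
    · exact e
  -- the lower parts are the same
  have hlowX : ∀ b, b ≤ a → lowX Rep cl' b = lowX Rep cl b := by
    intro b hb
    ext z
    rw [mem_lowX, mem_lowX]
    by_cases hz : z ∈ R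
    · rw [hc1 z hz]
    · have e1 := hc4 z hz
      have e2 : ¬ cl z < b := fun e => hz ((hmR z).2 (Or.inr (by omega)))
      constructor
      · rintro (e | e)
        · exact Or.inl e
        · omega
      · rintro (e | e)
        · exact Or.inl e
        · exact absurd e e2
  have hlowQ : ∀ b, b ≤ a → lowQ s' cl' b = lowQ s cl b := by
    intro b hb
    ext q
    rw [mem_lowQ, mem_lowQ]
    constructor
    · rintro ⟨k, e1, e2, e3⟩
      rcases (hB' k).1 e1 with e4 | e4
      · obtain ⟨e5, e6⟩ := hoC k e4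
        rw [e5, hc1 _ (hCR k e4)] at e2
        rw [e6] at e3
        exact ⟨k, ((hmC k).1 e4).1, e2, e3⟩
      · obtain ⟨e5, e6⟩ := hot k e4
        rw [e5] at e2
        have := hc4 _ (htR k e4)
        omega
    · rintro ⟨k, e1, e2, e3⟩
      have e4 : k ∈ C := (hmC k).2 ⟨e1, by omega⟩
      obtain ⟨e5, e6⟩ := hoC k e4
      refine ⟨k, (hB' k).2 (Or.inl e4), ?_, ?_⟩
      · rw [e5, hc1 _ (hCR k e4)]
        exact e2
      · rw [e6]
        exact e3
  -- a point of `R` below a point off `R`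
  have hbelow : ∀ y z, y ∉ Rep → y ∈ R → z ∉ R → cl' y ≤ cl' z ∧ tp' y ≤ tp' z := by
    intro y z hy hyR hz
    obtain ⟨e1, e2, e3, e4⟩ := h.cls y hy (hclR y hy hyR)
    obtain ⟨f1, f2, f3, f4⟩ := hcla z hz
    have g1 := hclR y hy hyR
    have g2 := hc4 z hz
    rw [hc1 y hyR, ht1 y hyR, ht2 z hz]
    omega
  have hsub : ∀ k ∈ C, k ∈ s.B := fun k hk => ((hmC k).1 hk).1
  have hok' : Ok mem adj (AvR mem Rep) s' := by
    refine ⟨?_, ?_, ?_, ?_⟩
    · intro k hk z hz hz'
      rcases (hB' k).1 hk with e | e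
      · exact h.ok.av k (hsub k e) z hz hz'
      · exact htok.av k e z hz (hRepR z hz')
    · intro k hk
      rcases (hB' k).1 hk with e | e
      · rw [(hoC k e).1]
        exact h.ok.own k (hsub k e)
      · rw [(hot k e).1]
        exact htok.own k e
    · intro k hk
      rcases (hB' k).1 hk with e | e
      · rw [(hoC k e).2]
        exact h.ok.pl k (hsub k e)
      · rw [(hot k e).2]
        exact (Finset.mem_sdiff.1 (htok.pl k e)).1
    · intro k1 hk1 k2 hk2 he
      rcases (hB' k1).1 hk1 with e1 | e1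
      · rw [(hoC k1 e1).2] at he
        rcases (hB' k2).1 hk2 with e2 | e2
        · rw [(hoC k2 e2).2] at he
          exact h.ok.inj k1 (hsub k1 e1) k2 (hsub k2 e2) he
        · rw [(hot k2 e2).2] at he
          exfalso
          refine (Finset.mem_sdiff.1 (htok.pl k2 e2)).2 ((hmU _).2 ⟨k1, hsub k1 e1, ?_, he⟩)
          exact ((hmC k1).1 e1).2
      · rw [(hot k1 e1).2] at he
        rcases (hB' k2).1 hk2 with e2 | e2
        · rw [(hoC k2 e2).2] at he
          exfalso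
          refine (Finset.mem_sdiff.1 (htok.pl k1 e1)).2 ((hmU _).2 ⟨k2, hsub k2 e2, ?_, he.symm⟩)
          exact ((hmC k2).1 e2).2
        · rw [(hot k2 e2).2] at he
          exact htok.inj k1 e1 k2 e2 he
  have htmono : ∀ k ∈ t.B, ∀ z ∈ mem k, ct (t.own k) ≤ ct z ∧ tt (t.own k) ≤ tt z := by
    intro k hk z hz
    rw [hct, htt]
    exact owned_mono hk hz
  refine ⟨s', cl', tp', ⟨hok', ?_, ?_, ?_, ?_, ?_, ?_, ?_, ?_⟩⟩
  · -- load
    intro z hz hcz
    have hzR : z ∉ R := by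
      intro e
      rw [hc1 z e] at hcz
      have := hclR z hz e
      omega
    obtain ⟨f1, f2, f3, f4⟩ := hcla z hzR
    have hne : ct z ≠ a := by
      intro e
      rw [hc2 z hzR e] at hcz
      omega
    rw [hldR z hzR]
    omega
  · -- classes
    intro z hz hcz
    by_cases hzR : z ∈ R
    · have e := h.cls z hz (hclR z hz hzR)
      rw [hc1 z hzR, ht1 z hzR, hldC z hz hzR]
      exact e
    · obtain ⟨f1, f2, f3, f4⟩ := hcla z hzR
      have e := hc5 z hzR hcz
      rw [hc2 z hzR e, ht2 z hzR, hldR z hzR]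
      rw [e] at f2 f4
      exact ⟨ha, f2, f3, f4⟩
  · -- up
    intro k hk hck z hz
    rcases (hB' k).1 hk with e | e
    · rw [(hoC k e).1, hc1 _ (hCR k e)] at hck
      have := ((hmC k).1 e).2
      omega
    · rw [(hot k e).1] at hck
      have hoR := htR k e
      have hne : ct (t.own k) ≠ a := by
        intro e'
        rw [hc2 _ hoR e'] at hck
        omega
      have h1 := (hcla _ hoR).1
      have h2 := (htmono k e z hz).1
      have hzR : z ∉ R := htok.av k e z hz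
      rw [hc3 z hzR (by omega)]
  · -- owned rows
    intro k hk hck z hz hcz
    rcases (hB' k).1 hk with e | e
    · rw [(hoC k e).1]
      have hyR := hCR k e
      have hyRep : s.own k ∉ Rep := h.ok.av k (hsub k e) _ (h.ok.own k (hsub k e))
      by_cases hzR : z ∈ R
      · have hzRep : z ∉ Rep := h.ok.av k (hsub k e) z hz
        have h1 := h.own k (hsub k e) ((hmC k).1 e).2 z hz (hclR z hzRep hzR)
        rw [hc1 _ hyR, ht1 _ hyR, hc1 z hzR, ht1 z hzR]
        exact h1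
      · exact hbelow _ z hyRep hyR hzR
    · rw [(hot k e).1] at hck ⊢
      have hoR := htR k e
      have hzR : z ∉ R := htok.av k e z hz
      rw [hc2 _ hoR (hc5 _ hoR hck), hc2 z hzR (hc5 z hzR hcz), ht2 _ hoR, ht2 z hzR]
      exact ⟨le_rfl, (htmono k e z hz).2⟩
  · -- planeless rows
    rintro k0 hk0 hav ⟨z1, hz1, hcz1⟩ q hq
    have hk0C : k0 ∉ C := fun e => hk0 ((hB' k0).2 (Or.inl e))
    have hk0t : k0 ∉ t.B := fun e => hk0 ((hB' k0).2 (Or.inr e))
    by_cases hA : ∃ z0 ∈ mem k0, z0 ∈ R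
    · obtain ⟨z0, hz0, hz0R⟩ := hA
      have hcz0 := hclR z0 (hav z0 hz0) hz0R
      have hk0B : k0 ∉ s.B := by
        intro e
        rcases Nat.lt_or_ge (cl (s.own k0)) a with e' | e'
        · exact hk0C ((hmC k0).2 ⟨e, e'⟩)
        · have := h.up k0 e e' z0 hz0
          omega
      obtain ⟨k, hk, hkq, hck, hkm⟩ := h.pls k0 hk0B hav ⟨z0, hz0, hcz0⟩ q hq
      have hkC : k ∈ C := (hmC k).2 ⟨hk, hck⟩
      have hyR := hCR k hkC
      have hyRep : s.own k ∉ Rep := h.ok.av k hk _ (h.ok.own k hk)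
      refine ⟨k, (hB' k).2 (Or.inl hkC), by rw [(hoC k hkC).2]; exact hkq, ?_, ?_⟩
      · rw [(hoC k hkC).1, hc1 _ hyR]
        omega
      · intro z hz hcz
        rw [(hoC k hkC).1]
        by_cases hzR : z ∈ R
        · rw [hc1 _ hyR, ht1 _ hyR, hc1 z hzR, ht1 z hzR]
          exact hkm z hz (hclR z (hav z hz) hzR)
        · exact hbelow _ z hyRep hyR hzR
    · have hA' : ∀ z ∈ mem k0, z ∉ R := fun z hz hzR => hA ⟨z, hz, hzR⟩
      have hct1 := hc5 z1 (hA' z1 hz1) hcz1
      by_cases hqU : q ∈ U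
      · obtain ⟨k, hk, hck, hkq⟩ := (hmU q).1 hqU
        have hkC : k ∈ C := (hmC k).2 ⟨hk, hck⟩
        have hyR := hCR k hkC
        have hyRep : s.own k ∉ Rep := h.ok.av k hk _ (h.ok.own k hk)
        refine ⟨k, (hB' k).2 (Or.inl hkC), by rw [(hoC k hkC).2]; exact hkq, ?_, ?_⟩
        · rw [(hoC k hkC).1, hc1 _ hyR]
          omega
        · intro z hz _
          rw [(hoC k hkC).1]
          exact hbelow _ z hyRep hyR (hA' z hz)
      · have hqd : q ∈ dif adj U k0 := Finset.mem_sdiff.2 ⟨hq, hqU⟩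
        obtain ⟨k, hk, hkq⟩ := ht.full
          (fun V W hVW hV => hJ _ _ (Finset.union_subset_union_right hVW) hV) hk0t hA' ⟨z1, hz1⟩ hqd
        have hm : ∀ z ∈ mem k0, ct (t.own k) ≤ ct z ∧ tt (t.own k) ≤ tt z := by
          intro z hz
          rw [hct, htt]
          exact planeless_mono hk hk0t hA' (by rw [hkq]; exact hqd) hz
        have hoR := htR k hk
        have h1 := (hcla _ hoR).1
        have h2 := (hm z1 hz1).1
        have h3 : ct (t.own k) = a := by omega
        refine ⟨k, (hB' k).2 (Or.inr hk), by rw [(hot k hk).2]; exact hkq, ?_, ?_⟩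
        · rw [(hot k hk).1, hc2 _ hoR h3]
          omega
        · intro z hz hcz
          rw [(hot k hk).1, hc2 _ hoR h3, ht2 _ hoR, hc2 z (hA' z hz) (hc5 z (hA' z hz) hcz),
            ht2 z (hA' z hz)]
          exact ⟨le_rfl, (hm z hz).2⟩
  · -- used
    have h1 : usd s' = U ∪ usd t := by
      ext q
      rw [Finset.mem_union, hmU]
      show q ∈ s'.B.image s'.pl ↔ _ ∨ q ∈ t.B.image t.pl
      simp only [Finset.mem_image]
      constructor
      · rintro ⟨k, e1, e2⟩
        rcases (hB' k).1 e1 with e | e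
        · exact Or.inl ⟨k, hsub k e, ((hmC k).1 e).2, by rw [← (hoC k e).2]; exact e2⟩
        · exact Or.inr ⟨k, e, by rw [← (hot k e).2]; exact e2⟩
      · rintro (⟨k, e1, e2, e3⟩ | ⟨k, e1, e3⟩)
        · have e : k ∈ C := (hmC k).2 ⟨e1, e2⟩
          exact ⟨k, (hB' k).2 (Or.inl e), by rw [(hoC k e).2]; exact e3⟩
        · exact ⟨k, (hB' k).2 (Or.inr e1), by rw [(hot k e1).2]; exact e3⟩
    rw [h1]
    exact ht.lev.used
  · -- reps
    intro _ r hr k0 hrk hu q hq
    rcases Nat.lt_or_ge 1 a with ha1 | ha1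
    · obtain ⟨k, hk, hkq, hck, htk⟩ := h.rep ha1 r hr k0 hrk hu q hq
      have hkC : k ∈ C := (hmC k).2 ⟨hk, hck⟩
      have hyR := hCR k hkC
      refine ⟨k, (hB' k).2 (Or.inl hkC), by rw [(hoC k hkC).2]; exact hkq, ?_, ?_⟩
      · rw [(hoC k hkC).1, hc1 _ hyR]
        omega
      · rw [(hoC k hkC).1, ht1 _ hyR]
        exact htk
    · have ha' : a = 1 := by omega
      have hRR : R = Rep := by
        ext z
        rw [hmR]
        constructor
        · rintro (e | e)
          · exact e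
          · by_contra hz
            have := (h.cls z hz e).1
            omega
        · exact fun e => Or.inl e
      have hUU : U = ∅ := by
        ext q
        rw [hmU]
        constructor
        · rintro ⟨k, e1, e2, e3⟩
          have e4 := h.ok.av k e1 _ (h.ok.own k e1)
          have := (h.cls _ e4 e2).1
          omega
        · exact fun e => absurd e (Finset.notMem_empty q)
      have hdif : dif adj U = adj := by
        funext k
        rw [hUU]
        exact Finset.sdiff_empty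
      have hno : ¬ ∃ t' : St X K Q, Ok mem (dif adj U) (AvR mem (R.erase r)) t' ∧
          (∀ z, z ∉ R → a ≤ ld t' z) ∧ 1 ≤ ld t' r := by
        rintro ⟨t', e1, e2, e3⟩
        rw [hdif, hRR] at e1
        refine hmin r hr ⟨t', e1, fun z hz => ?_⟩
        by_cases e : z = r
        · rw [e]; exact e3
        · rw [← ha']
          refine e2 z ?_
          rw [hRR]
          exact fun h => hz (Finset.mem_erase.2 ⟨e, h⟩)
      obtain ⟨k, hk, hkq, htk⟩ := ht.rep (hRepR r hr) hno hrk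
        (by rw [hRR]; exact hu) (by rw [hdif]; exact hq)
      have hoR := htR k hk
      obtain ⟨f1, f2, f3, f4⟩ := hcla _ hoR
      have htk' : tt (t.own k) ≤ a := by rw [htt]; exact htk
      refine ⟨k, (hB' k).2 (Or.inr hk), by rw [(hot k hk).2]; exact hkq, ?_, ?_⟩
      · rw [(hot k hk).1, hc2 _ hoR (by omega)]
        omega
      · rw [(hot k hk).1, ht2 _ hoR]
        omega
  · -- levels
    intro b hb1 hba
    rcases Nat.lt_or_ge b a with hb | hb
    · rw [hlowX b hb.le, hlowQ b hb.le]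
      obtain ⟨tb, g1, g2, g3, g4⟩ := h.lev b hb1 hb
      refine ⟨tb, g1, g2, ?_, ⟨?_, ?_, ?_⟩⟩
      · intro z hz
        rw [← g3 z hz]
        by_cases hzR : z ∈ R
        · rw [hc1 z hzR]
        · have e1 := hc4 z hzR
          have e2 : ¬ cl z < a := fun e => hzR ((hmR z).2 (Or.inr e))
          constructor
          · intro e; omega
          · intro e; omega
      · intro k hk hck
        rcases (hB' k).1 hk with e | e
        · rw [(hoC k e).1, hc1 _ (hCR k e)] at hck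
          rw [(hoC k e).1, (hoC k e).2]
          exact g4.fwd k (hsub k e) hck
        · rw [(hot k e).1] at hck
          have := hc4 _ (htR k e)
          omega
      · intro k hk hck
        obtain ⟨e1, e2, e3⟩ := g4.bwd k hk hck
        have hoR : tb.own k ∉ lowX Rep cl b := g1.lev.ok.av k hk _ (g1.lev.ok.own k hk)
        have hoRep : tb.own k ∉ Rep := fun e => hoR (mem_lowX.2 (Or.inl e))
        have hcb : cl (tb.own k) = b := (g3 _ hoRep).2 ⟨hoR, hck⟩
        have hkC : k ∈ C := (hmC k).2 ⟨e1, by rw [e2, hcb]; exact hb⟩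
        exact ⟨(hB' k).2 (Or.inl hkC), by rw [(hoC k hkC).1]; exact e2,
          by rw [(hoC k hkC).2]; exact e3⟩
      · intro z hzRep hz
        by_cases hzR : z ∈ R
        · rw [ht1 z hzR]
          rw [hc1 z hzR] at hz
          exact g4.tpe z hzRep hz
        · have := hc4 z hzR
          omega
    · have hb' : b = a := by omega
      subst hb'
      rw [hlowX b le_rfl, hlowQ b le_rfl, ← hR, ← hU]
      refine ⟨t, ht, hP, ?_, ?_⟩
      · rw [← hct]
        intro z hz
        constructor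
        · intro e
          have hzR : z ∉ R := by
            intro e'
            rw [hc1 z e'] at e
            have := hclR z hz e'
            omega
          exact ⟨hzR, hc5 z hzR (by omega)⟩
        · rintro ⟨e1, e2⟩
          exact hc2 z e1 e2
      · rw [← hct, ← htt]
        refine ⟨?_, ?_, ?_⟩
        · intro k hk hck
          rcases (hB' k).1 hk with e | e
          · rw [(hoC k e).1, hc1 _ (hCR k e)] at hck
            have := ((hmC k).1 e).2
            omega
          · exact ⟨e, (hot k e).1.symm, (hot k e).2.symm⟩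
        · intro k hk hck
          exact ⟨(hB' k).2 (Or.inr hk), (hot k hk).1, (hot k hk).2⟩
        · intro z hzRep hz
          by_cases hzR : z ∈ R
          · rw [hc1 z hzR] at hz
            have := hclR z hzRep hzR
            omega
          · exact ht2 z hzR

/-- all levels -/
theorem exists_inv (hJ : ∀ U V : Finset Q, U ⊆ V → J U → J V)
    (h0 : ∃ s : St X K Q, Feas mem adj Rep s ∧ J (usd s))
    (hmin : ∀ r ∈ Rep, ¬ ∃ t : St X K Q, Feas mem adj (Rep.erase r) t)
    (hlev : ∀ a, 1 ≤ a → ∀ R : Finset X, Rep ⊆ R → ∀ U : Finset Q,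
      (∃ s : St X K Q, Ok mem (dif adj U) (AvR mem R) s ∧ (∀ z, z ∉ R → a ≤ ld s z) ∧
        J (U ∪ usd s)) →
      ∃ t : St X K Q, Opt mem (dif adj U) R a (harm a R U) (fun V => J (U ∪ V)) t ∧ P a R U t)
    (n : ℕ) : ∃ (s : St X K Q) (cl tpf : X → ℕ), Inv mem adj Rep harm J P (n + 1) s cl tpf := by
  induction n with
  | zero =>
    obtain ⟨s, hs, hsJ⟩ := h0
    refine ⟨s, fun _ => 1, fun _ => 0, ⟨hs.1, ?_, ?_, ?_, ?_, ?_, hsJ, ?_, ?_⟩⟩
    · intro z hz _
      exact hs.2 z hz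
    · intro z hz hlt
      omega
    · intro k hk _ z hz
      omega
    · intro k hk hlt
      omega
    · rintro k0 hk0 hav ⟨z, hz, hlt⟩
      omega
    · intro hlt
      omega
    · intro b hb hb'
      omega
  | succ n ih =>
    obtain ⟨s, cl, tpf, h⟩ := ih
    obtain ⟨t, ht, hP⟩ := hlev (n + 1) (by omega) (lowX Rep cl (n + 1))
      (fun z hz => mem_lowX.2 (Or.inl hz)) (lowQ s cl (n + 1)) h.residual
    exact Inv.step (by omega) hJ hmin h ht hP

end

/-- **CURE C on all levels.** `P` = any further property of the level states (e.g. a further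
minimisation among the optimal states of this level). -/
theorem cureC_all (mem : K → Finset X) (adj : K → Finset Q) (Rep : Finset X)
    (harm : ℕ → Finset X → Finset Q → X → K → Q → Prop) (J : Finset Q → Prop)
    (P : ℕ → Finset X → Finset Q → St X K Q → Prop)
    (hJ : ∀ U V : Finset Q, U ⊆ V → J U → J V)
    (h0 : ∃ s : St X K Q, Feas mem adj Rep s ∧ J (usd s))
    (hmin : ∀ r ∈ Rep, ¬ ∃ t : St X K Q, Feas mem adj (Rep.erase r) t)
    (hlev : ∀ a, 1 ≤ a → ∀ R : Finset X, Rep ⊆ R → ∀ U : Finset Q,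
      (∃ s : St X K Q, Ok mem (dif adj U) (AvR mem R) s ∧ (∀ z, z ∉ R → a ≤ ld s z) ∧
        J (U ∪ usd s)) →
      ∃ t : St X K Q, Opt mem (dif adj U) R a (harm a R U) (fun V => J (U ∪ V)) t ∧ P a R U t) :
    ∃ (s : St X K Q) (cl tpf : X → ℕ),
      (∀ k ∈ s.B, (∀ z ∈ mem k, z ∉ Rep) ∧ s.own k ∈ mem k ∧ s.pl k ∈ adj k) ∧
      (∀ k ∈ s.B, ∀ k' ∈ s.B, s.pl k = s.pl k' → k = k') ∧
      (∀ z, z ∉ Rep → 1 ≤ cl z ∧ cl z ≤ ld s z ∧ ld s z ≤ tpf z ∧ tpf z ≤ cl z + 1) ∧
      (∀ k ∈ s.B, ∀ z ∈ mem k, cl (s.own k) ≤ cl z ∧ tpf (s.own k) ≤ tpf z) ∧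
      (∀ k0, k0 ∉ s.B → (∀ z ∈ mem k0, z ∉ Rep) → (mem k0).Nonempty → ∀ q ∈ adj k0,
        ∃ k ∈ s.B, s.pl k = q ∧ ∀ z ∈ mem k0, cl (s.own k) ≤ cl z ∧ tpf (s.own k) ≤ tpf z) ∧
      (∀ r ∈ Rep, ∀ k0, r ∈ mem k0 → (∀ z ∈ mem k0, z ∈ Rep → z = r) → ∀ q ∈ adj k0,
        ∃ k ∈ s.B, s.pl k = q ∧ tpf (s.own k) ≤ 1) ∧
      J (usd s) ∧
      (∀ k ∈ s.B, ld s (s.own k) = cl (s.own k) →
        ¬ harm (cl (s.own k)) (lowX Rep cl (cl (s.own k))) (lowQ s cl (cl (s.own k)))
          (s.own k) k (s.pl k)) ∧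
      (∀ b, 1 ≤ b → b ≤ Fintype.card K → ∃ t : St X K Q,
        Opt mem (dif adj (lowQ s cl b)) (lowX Rep cl b) b (harm b (lowX Rep cl b) (lowQ s cl b))
          (fun V => J (lowQ s cl b ∪ V)) t ∧ P b (lowX Rep cl b) (lowQ s cl b) t ∧
        (∀ z, z ∉ Rep → (cl z = b ↔ (z ∉ lowX Rep cl b ∧
          Alloc85.cls mem (dif adj (lowQ s cl b)) (lowX Rep cl b) t z = b))) ∧
        Agree Rep s t cl (Alloc85.cls mem (dif adj (lowQ s cl b)) (lowX Rep cl b) t) tpf
          (tp mem (dif adj (lowQ s cl b)) (lowX Rep cl b) t) b) := by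
  obtain ⟨s, cl, tpf, h⟩ := exists_inv (P := P) (harm := harm) hJ h0 hmin hlev
    (Fintype.card K)
  -- every point is in a class at most the number of rows
  have key : ∀ z, z ∉ Rep → cl z < Fintype.card K + 1 := by
    intro z hz
    by_contra hcon
    have h1 := h.load z hz (by omega)
    have h2 : ld s z ≤ Fintype.card K := (Finset.card_le_card (Finset.filter_subset _ _)).trans
      (Finset.card_le_univ _)
    omega
  have hoR : ∀ k ∈ s.B, s.own k ∉ Rep := fun k hk => h.ok.av k hk _ (h.ok.own k hk)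
  refine ⟨s, cl, tpf, fun k hk => ⟨h.ok.av k hk, h.ok.own k hk, h.ok.pl k hk⟩, h.ok.inj,
    fun z hz => h.cls z hz (key z hz), ?_, ?_, ?_, h.used, ?_, ?_⟩
  · intro k hk z hz
    exact h.own k hk (key _ (hoR k hk)) z hz (key z (h.ok.av k hk z hz))
  · rintro k0 hk0 hav ⟨z0, hz0⟩ q hq
    obtain ⟨k, hk, hkq, -, hm⟩ := h.pls k0 hk0 hav ⟨z0, hz0, key z0 (hav z0 hz0)⟩ q hq
    exact ⟨k, hk, hkq, fun z hz => hm z hz (key z (hav z hz))⟩
  · intro r hr k0 hrk hu q hq
    have hpos : 1 < Fintype.card K + 1 := by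
      have : 0 < Fintype.card K := Fintype.card_pos_iff.2 ⟨k0⟩
      omega
    obtain ⟨k, hk, hkq, -, htk⟩ := h.rep hpos r hr k0 hrk hu q hq
    exact ⟨k, hk, hkq, htk⟩
  · intro k hk hl
    have hy := hoR k hk
    have hky := key _ hy
    obtain ⟨c1, -, -, -⟩ := h.cls _ hy hky
    obtain ⟨t, g1, -, g3, g4⟩ := h.lev (cl (s.own k)) c1 hky
    obtain ⟨e1, e2, e3⟩ := g4.fwd k hk rfl
    have hld : ld t (s.own k) = ld s (s.own k) := by
      unfold ld
      congr 1
      ext k'
      simp only [Finset.mem_filter]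
      constructor
      · rintro ⟨f1, f2⟩
        obtain ⟨f3, f4, -⟩ := g4.bwd k' f1 (by rw [f2]; exact ((g3 _ hy).1 rfl).2)
        exact ⟨f3, f4.trans f2⟩
      · rintro ⟨f1, f2⟩
        obtain ⟨f3, f4, -⟩ := g4.fwd k' f1 (by rw [f2])
        exact ⟨f3, f4.trans f2⟩
    have h5 := g1.lev.safe k e1 (by rw [e2, hld, hl])
    rw [e2, e3] at h5
    exact h5
  · intro b hb hbK
    exact h.lev b hb (by omega)

end Pool.Agent.Helper63.CureC
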