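import Mathlib

/-! # Creation and annihilation operators on the functions of finite sets -/

set_option autoImplicit false
set_option linter.unusedSectionVars false

namespace Pool.Agent.Helper63.HM

open Finset

variable {V : Type} [LinearOrder V]

/-- the sign of `v` in `τ` -/
noncomputable def sn (v : V) (τ : Finset V) : ℝ := (-1) ^ (τ.filter (fun u => u < v)).card

theorem sn_sq (v : V) (τ : Finset V) : sn v τ * sn v τ = 1 := by
  unfold sn
  rw [← pow_add, ← two_mul, pow_mul]
  norm_num

theorem sn_ne (v : V) (τ : Finset V) : sn v τ ≠ 0 := by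
  intro h
  have := sn_sq v τ
  rw [h] at this
  norm_num at this

theorem sn_insert {u v : V} {τ : Finset V} (h : v ∉ τ) :
    sn u (insert v τ) = (if v < u then -1 else 1) * sn u τ := by
  unfold sn
  rw [Finset.filter_insert]
  split_ifs with h1
  · rw [Finset.card_insert_of_notMem (fun h2 => h (Finset.mem_filter.1 h2).1), pow_succ]
    ring
  · ring

theorem sn_insert_self {v : V} {τ : Finset V} (h : v ∉ τ) : sn v (insert v τ) = sn v τ := by
  rw [sn_insert h, if_neg (lt_irrefl v), one_mul]

theorem sn_erase_self (v : V) (τ : Finset V) : sn v (τ.erase v) = sn v τ := by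
  by_cases h : v ∈ τ
  · conv_rhs => rw [← Finset.insert_erase h]
    rw [sn_insert_self (Finset.notMem_erase v τ)]
  · rw [Finset.erase_eq_of_notMem h]

theorem sn_erase {u v : V} {τ : Finset V} (h : v ∈ τ) :
    sn u τ = (if v < u then -1 else 1) * sn u (τ.erase v) := by
  conv_lhs => rw [← Finset.insert_erase h]
  rw [sn_insert (Finset.notMem_erase v τ)]

theorem ep_mul {u v : V} (h : u ≠ v) :
    (if v < u then (-1 : ℝ) else 1) * (if u < v then -1 else 1) = -1 := by
  rcases lt_or_gt_of_ne h with h1 | h1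
  · rw [if_neg (not_lt.2 h1.le), if_pos h1]
    norm_num
  · rw [if_pos h1, if_neg (not_lt.2 h1.le)]
    norm_num

/-- annihilation -/
noncomputable def dn (v : V) : Module.End ℝ (Finset V → ℝ) where
  toFun f := fun τ => if v ∈ τ then 0 else sn v τ * f (insert v τ)
  map_add' f g := by
    funext τ
    simp only [Pi.add_apply]
    split_ifs <;> ring
  map_smul' r f := by
    funext τ
    simp only [Pi.smul_apply, smul_eq_mul, RingHom.id_apply]
    split_ifs <;> ring

/-- creation -/
noncomputable def up (v : V) : Module.End ℝ (Finset V → ℝ) where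
  toFun f := fun τ => if v ∈ τ then sn v τ * f (τ.erase v) else 0
  map_add' f g := by
    funext τ
    simp only [Pi.add_apply]
    split_ifs <;> ring
  map_smul' r f := by
    funext τ
    simp only [Pi.smul_apply, smul_eq_mul, RingHom.id_apply]
    split_ifs <;> ring

theorem dn_apply (v : V) (f : Finset V → ℝ) (τ : Finset V) :
    dn v f τ = if v ∈ τ then 0 else sn v τ * f (insert v τ) := rfl

theorem up_apply (v : V) (f : Finset V → ℝ) (τ : Finset V) :
    up v f τ = if v ∈ τ then sn v τ * f (τ.erase v) else 0 := rfl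

theorem dn_dn (u v : V) : dn u * dn v = -(dn v * dn u) := by
  refine LinearMap.ext fun f => ?_
  funext τ
  simp only [Module.End.mul_apply, LinearMap.neg_apply, Pi.neg_apply, dn_apply,
    Finset.mem_insert]
  by_cases huv : u = v
  · subst huv
    by_cases h : u ∈ τ
    · simp [h]
    · simp [h]
  by_cases hu : u ∈ τ
  · by_cases hv : v ∈ τ
    · simp [hu, hv]
    · simp [hu, hv]
  by_cases hv : v ∈ τ
  · simp [hu, hv]
  have h1 : ¬ (v = u ∨ v ∈ τ) := by
    rintro (h | h)
    · exact huv h.symm
    · exact hv h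
  have h2 : ¬ (u = v ∨ u ∈ τ) := by
    rintro (h | h)
    · exact huv h
    · exact hu h
  rw [if_neg hu, if_neg h1, if_neg hv, if_neg h2, sn_insert hu, sn_insert hv,
    Finset.insert_comm v u]
  have h3 := ep_mul huv
  have h4 : (if u < v then (-1 : ℝ) else 1) = - (if v < u then -1 else 1) := by
    rcases lt_or_gt_of_ne huv with h | h
    · rw [if_pos h, if_neg (not_lt.2 h.le)]
    · rw [if_neg (not_lt.2 h.le), if_pos h]
      norm_num
  rw [h4]
  ring

theorem up_dn_ne {u v : V} (huv : u ≠ v) : up u * dn v + dn v * up u = 0 := by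
  refine LinearMap.ext fun f => ?_
  funext τ
  simp only [Module.End.mul_apply, LinearMap.add_apply, Pi.add_apply, dn_apply, up_apply,
    LinearMap.zero_apply, Pi.zero_apply]
  by_cases hu : u ∈ τ
  · by_cases hv : v ∈ τ
    · have h1 : v ∈ τ.erase u := Finset.mem_erase.2 ⟨huv.symm, hv⟩
      rw [if_pos hu, if_pos h1, if_pos hv]
      ring
    · have h1 : v ∉ τ.erase u := fun h => hv (Finset.mem_of_mem_erase h)
      have h2 : u ∈ insert v τ := Finset.mem_insert_of_mem hu
      rw [if_pos hu, if_neg h1, if_neg hv, if_pos h2, Finset.erase_insert_of_ne huv.symm,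
        sn_insert hv, sn_erase (u := v) hu]
      have h3 := ep_mul huv
      linear_combination (sn u τ * sn v (τ.erase u) * f (insert v (τ.erase u))) * h3
  · have h2 : v ∉ τ → u ∉ insert v τ := fun _ h => by
      rcases Finset.mem_insert.1 h with h | h
      · exact huv h
      · exact hu h
    rw [if_neg hu]
    by_cases hv : v ∈ τ
    · rw [if_pos hv]
      ring
    · rw [if_neg hv, if_neg (h2 hv)]
      ring

theorem up_dn_self (v : V) : up v * dn v + dn v * up v = 1 := by
  refine LinearMap.ext fun f => ?_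
  funext τ
  simp only [Module.End.mul_apply, LinearMap.add_apply, Pi.add_apply, dn_apply, up_apply,
    Module.End.one_apply]
  by_cases hv : v ∈ τ
  · rw [if_pos hv, if_neg (Finset.notMem_erase v τ), if_pos hv, sn_erase_self,
      Finset.insert_erase hv, ← mul_assoc, sn_sq]
    ring
  · rw [if_neg hv, if_neg hv, if_pos (Finset.mem_insert_self v τ), sn_insert_self hv,
      Finset.erase_insert hv, ← mul_assoc, sn_sq]
    ring

/-- the weighted sums -/
noncomputable def D (a : V → ℝ) (S : Finset V) : Module.End ℝ (Finset V → ℝ) :=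
  ∑ v ∈ S, a v • dn v

noncomputable def E (a : V → ℝ) (S : Finset V) : Module.End ℝ (Finset V → ℝ) :=
  ∑ v ∈ S, a v • up v

theorem D_apply (a : V → ℝ) (S : Finset V) (f : Finset V → ℝ) (τ : Finset V) :
    D a S f τ = ∑ v ∈ S, a v * dn v f τ := by
  unfold D
  rw [LinearMap.sum_apply, Finset.sum_apply]
  rfl

theorem E_apply (a : V → ℝ) (S : Finset V) (f : Finset V → ℝ) (τ : Finset V) :
    E a S f τ = ∑ v ∈ S, a v * up v f τ := by
  unfold E
  rw [LinearMap.sum_apply, Finset.sum_apply]
  rfl

theorem D_anti (a : V → ℝ) (S T : Finset V) : D a S * D a T = -(D a T * D a S) := by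
  unfold D
  rw [Finset.sum_mul_sum, Finset.sum_mul_sum, Finset.sum_comm, ← Finset.sum_neg_distrib]
  refine Finset.sum_congr rfl fun u _ => ?_
  rw [← Finset.sum_neg_distrib]
  refine Finset.sum_congr rfl fun v _ => ?_
  rw [smul_mul_smul_comm, smul_mul_smul_comm, dn_dn v u, smul_neg, mul_comm (a v) (a u)]

theorem eq_zero_of_neg {M : Type} [AddCommGroup M] [Module ℝ M] {x : M} (h : x = -x) : x = 0 := by
  have h1 : (2 : ℝ) • x = 0 := by
    rw [two_smul]
    nth_rw 1 [h]
    exact neg_add_cancel x
  exact (smul_eq_zero.1 h1).resolve_left (by norm_num)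

theorem D_sq (a : V → ℝ) (S : Finset V) : D a S * D a S = 0 :=
  eq_zero_of_neg (D_anti a S S)

theorem ED (a : V → ℝ) (S : Finset V) :
    E a S * D a S + D a S * E a S = (∑ v ∈ S, a v ^ 2) • (1 : Module.End ℝ (Finset V → ℝ)) := by
  have h1 : D a S * E a S = ∑ u ∈ S, ∑ v ∈ S, (a u * a v) • (dn v * up u) := by
    unfold D E
    rw [Finset.sum_mul_sum, Finset.sum_comm]
    refine Finset.sum_congr rfl fun u _ => Finset.sum_congr rfl fun v _ => ?_
    rw [smul_mul_smul_comm, mul_comm (a v) (a u)]
  have h2 : E a S * D a S = ∑ u ∈ S, ∑ v ∈ S, (a u * a v) • (up u * dn v) := by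
    unfold D E
    rw [Finset.sum_mul_sum]
    refine Finset.sum_congr rfl fun u _ => Finset.sum_congr rfl fun v _ => ?_
    rw [smul_mul_smul_comm]
  rw [h1, h2, ← Finset.sum_add_distrib, Finset.sum_smul]
  refine Finset.sum_congr rfl fun u hu => ?_
  rw [← Finset.sum_add_distrib]
  rw [Finset.sum_eq_single u]
  · rw [← smul_add, up_dn_self, pow_two]
  · intro v _ hv
    rw [← smul_add, up_dn_ne hv.symm, smul_zero]
  · intro h
    exact absurd hu h

section inner
variable [Fintype V]

/-- the inner product -/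
noncomputable def ip (f g : Finset V → ℝ) : ℝ := ∑ σ, f σ * g σ

theorem ip_up (v : V) (f g : Finset V → ℝ) : ip (up v f) g = ip f (dn v g) := by
  have e1 : ip (up v f) g = ∑ σ, if v ∈ σ then sn v σ * f (σ.erase v) * g σ else 0 := by
    refine Finset.sum_congr rfl fun σ _ => ?_
    rw [up_apply]
    split_ifs <;> ring
  have e2 : ip f (dn v g) = ∑ σ, if ¬ v ∈ σ then f σ * (sn v σ * g (insert v σ)) else 0 := by
    refine Finset.sum_congr rfl fun σ _ => ?_
    rw [dn_apply]
    split_ifs <;> first | ring | contradiction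
  rw [e1, e2, ← Finset.sum_filter, ← Finset.sum_filter]
  refine Finset.sum_bij' (fun σ _ => σ.erase v) (fun τ _ => insert v τ) ?_ ?_ ?_ ?_ ?_
  · intro σ hσ
    rw [Finset.mem_filter]
    exact ⟨Finset.mem_univ _, Finset.notMem_erase v σ⟩
  · intro τ hτ
    rw [Finset.mem_filter]
    exact ⟨Finset.mem_univ _, Finset.mem_insert_self v τ⟩
  · intro σ hσ
    exact Finset.insert_erase (Finset.mem_filter.1 hσ).2
  · intro τ hτ
    exact Finset.erase_insert (Finset.mem_filter.1 hτ).2
  · intro σ hσ
    rw [Finset.insert_erase (Finset.mem_filter.1 hσ).2, sn_erase_self]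
    ring

theorem ip_comm (f g : Finset V → ℝ) : ip f g = ip g f :=
  Finset.sum_congr rfl fun _ _ => mul_comm _ _

theorem ip_add_left (f f' g : Finset V → ℝ) : ip (f + f') g = ip f g + ip f' g := by
  unfold ip
  rw [← Finset.sum_add_distrib]
  exact Finset.sum_congr rfl fun _ _ => by rw [Pi.add_apply]; ring

theorem ip_smul_left (r : ℝ) (f g : Finset V → ℝ) : ip (r • f) g = r * ip f g := by
  unfold ip
  rw [Finset.mul_sum]
  exact Finset.sum_congr rfl fun _ _ => by rw [Pi.smul_apply, smul_eq_mul]; ring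

theorem ip_sum_left {ι : Type} (S : Finset ι) (F : ι → Finset V → ℝ) (g : Finset V → ℝ) :
    ip (∑ i ∈ S, F i) g = ∑ i ∈ S, ip (F i) g := by
  classical
  induction S using Finset.induction_on with
  | empty => simp [ip]
  | insert i S hi ih => rw [Finset.sum_insert hi, Finset.sum_insert hi, ip_add_left, ih]

theorem ip_sum_right {ι : Type} (S : Finset ι) (F : ι → Finset V → ℝ) (g : Finset V → ℝ) :
    ip g (∑ i ∈ S, F i) = ∑ i ∈ S, ip g (F i) := by
  rw [ip_comm, ip_sum_left]
  exact Finset.sum_congr rfl fun _ _ => ip_comm _ _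

theorem ip_smul_right (r : ℝ) (f g : Finset V → ℝ) : ip f (r • g) = r * ip f g := by
  rw [ip_comm, ip_smul_left, ip_comm]

theorem ip_nonneg (f : Finset V → ℝ) : 0 ≤ ip f f :=
  Finset.sum_nonneg fun _ _ => mul_self_nonneg _

theorem ip_eq_zero {f : Finset V → ℝ} (h : ip f f = 0) : f = 0 := by
  funext σ
  have h1 := (Finset.sum_eq_zero_iff_of_nonneg (fun σ _ => mul_self_nonneg (f σ))).1 h σ
    (Finset.mem_univ σ)
  exact mul_self_eq_zero.1 h1

theorem ip_E (a : V → ℝ) (S : Finset V) (f g : Finset V → ℝ) :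
    ip (E a S f) g = ip f (D a S g) := by
  unfold E D
  rw [LinearMap.sum_apply, LinearMap.sum_apply, ip_sum_left, ip_sum_right]
  refine Finset.sum_congr rfl fun v _ => ?_
  rw [LinearMap.smul_apply, LinearMap.smul_apply, ip_smul_left, ip_smul_right, ip_up]

/-- **the identity of the two operators** -/
theorem bochner (a : V → ℝ) (S : Finset V) (f : Finset V → ℝ) :
    ip (E a S f) (E a S f) + ip (D a S f) (D a S f) = (∑ v ∈ S, a v ^ 2) * ip f f := by
  have h1 : ip (E a S f) (E a S f) = ip ((D a S * E a S) f) f := by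
    rw [ip_E, ip_comm]
    rfl
  have h2 : ip (D a S f) (D a S f) = ip ((E a S * D a S) f) f := by
    rw [Module.End.mul_apply, ip_E]
  rw [h1, h2, ← ip_add_left, ← LinearMap.add_apply, add_comm (D a S * E a S), ED,
    LinearMap.smul_apply, ip_smul_left]
  rfl

theorem E_le (a : V → ℝ) (S : Finset V) (f : Finset V → ℝ) :
    ip (E a S f) (E a S f) ≤ (∑ v ∈ S, a v ^ 2) * ip f f := by
  have h1 := bochner a S f
  have h2 := ip_nonneg (D a S f)
  linarith

end inner

end Pool.Agent.Helper63.HM
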