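import Pool.Agent.Helper63.HM.Ops

/-! # Rainbow matchings in hypergraphs with a fractional condition

`V` is a finite set of hyperedges, `R v q` says that `v` uses the resource `q`. If there are positive
weights on `V` with total weight at most one on the resources of every hyperedge, and total weight at
least one on every colour class, then there are pairwise disjoint hyperedges, one of every colour. -/

set_option autoImplicit false
set_option linter.unusedSectionVars false

namespace Pool.Agent.Helper63.HM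

open Finset

/-! ### Orthogonal decomposition -/

theorem hodge {ι : Type} [Fintype ι] (A B : Module.End ℝ (ι → ℝ))
    (hAB : ∀ x y : ι → ℝ, ∑ i, A x i * y i = ∑ i, x i * B y i) (z : ι → ℝ) :
    ∃ c h : ι → ℝ, z = A c + h ∧ B h = 0 := by
  let e := WithLp.linearEquiv 2 ℝ (ι → ℝ)
  let S : Submodule ℝ (EuclideanSpace ℝ ι) := (LinearMap.range A).map e.symm.toLinearMap
  obtain ⟨y, hy, w, hw, hyw⟩ := S.exists_add_mem_mem_orthogonal (e.symm z)
  obtain ⟨y', ⟨c, hc⟩, hy'⟩ := hy
  refine ⟨c, e w, ?_, ?_⟩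
  · have h1 : e (e.symm z) = e (y + w) := by rw [hyw]
    rw [LinearEquiv.apply_symm_apply, map_add, ← hy'] at h1
    rw [h1, hc]
    congr 1
  · have h2 : ∀ x : ι → ℝ, ∑ i, A x i * (e w) i = 0 := by
      intro x
      have h3 : e.symm (A x) ∈ S := ⟨A x, ⟨x, rfl⟩, rfl⟩
      have h4 := (Submodule.mem_orthogonal S w).1 hw _ h3
      rw [PiLp.inner_apply] at h4
      rw [← h4]
      refine Finset.sum_congr rfl fun i _ => ?_
      change A x i * w i = inner ℝ (A x i) (w i)
      rw [real_inner_comm]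
      simp [inner]
    have h5 := h2 (B (e w))
    rw [hAB] at h5
    funext i
    have h6 := (Finset.sum_eq_zero_iff_of_nonneg
      (fun i _ => mul_self_nonneg (B (e w) i))).1 h5 i (Finset.mem_univ i)
    exact mul_self_eq_zero.1 h6

section acyc

variable {V Q : Type} [LinearOrder V] [Fintype V] [Fintype Q] (R : V → Q → Prop)

/-- independent sets: different elements have no common resource -/
def Ind (σ : Finset V) : Prop := ∀ u ∈ σ, ∀ v ∈ σ, u ≠ v → ∀ q, ¬ (R u q ∧ R v q)

theorem Ind.mono {σ τ : Finset V} (h : Ind R σ) (hs : τ ⊆ σ) : Ind R τ :=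
  fun u hu v hv => h u (hs hu) v (hs hv)

open Classical in
/-- the edges of `W` with the resource `q` -/
noncomputable def At (W : Finset V) (q : Q) : Finset V := W.filter (fun v => R v q)

open Classical in
/-- restriction to the sets which meet the resource `q` -/
noncomputable def res (q : Q) (h : Finset V → ℝ) : Finset V → ℝ :=
  fun τ => if ∃ v ∈ τ, R v q then h τ else 0

theorem E_conf (a : V → ℝ) (W : Finset V) (h : Finset V → ℝ) (hK : ∀ τ, h τ ≠ 0 → Ind R τ)
    {σ : Finset V} (hσ : ¬ Ind R σ) :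
    ∃ q, E a W h σ = E a (At R W q) (res R q h) σ := by
  unfold Ind at hσ
  push Not at hσ
  obtain ⟨u0, hu0, v0, hv0, hne, q, hq1, hq2⟩ := hσ
  refine ⟨q, ?_⟩
  rw [E_apply, E_apply]
  unfold At
  rw [Finset.sum_filter]
  refine Finset.sum_congr rfl fun u _ => ?_
  rw [up_apply, up_apply]
  by_cases huσ : u ∈ σ
  · rw [if_pos huσ, if_pos huσ]
    by_cases hR : R u q
    · rw [if_pos hR]
      have h1 : ∃ v ∈ σ.erase u, R v q := by
        by_cases h2 : u = u0
        · exact ⟨v0, Finset.mem_erase.2 ⟨fun h3 => hne (by rw [← h2, h3]), hv0⟩, hq2⟩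
        · exact ⟨u0, Finset.mem_erase.2 ⟨fun h3 => h2 h3.symm, hu0⟩, hq1⟩
      unfold res
      rw [if_pos h1]
    · rw [if_neg hR]
      have h1 : h (σ.erase u) = 0 := by
        by_contra h2
        have h3 := hK _ h2
        refine h3 u0 (Finset.mem_erase.2 ⟨?_, hu0⟩) v0 (Finset.mem_erase.2 ⟨?_, hv0⟩) hne q
          ⟨hq1, hq2⟩
        · rintro rfl
          exact hR hq1
        · rintro rfl
          exact hR hq2
      rw [h1]
      ring
  · rw [if_neg huσ, if_neg huσ]
    simp

open Classical in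
theorem conf_le (a : V → ℝ) (W : Finset V) (h : Finset V → ℝ) (n : ℕ)
    (hK : ∀ τ, h τ ≠ 0 → Ind R τ ∧ τ ⊆ W ∧ τ.card = n)
    (hw : ∀ v, ∑ q ∈ univ.filter (fun q => R v q), ∑ u ∈ At R univ q, a u ^ 2 ≤ 1) :
    ∑ σ ∈ univ.filter (fun σ => ¬ Ind R σ), E a W h σ * E a W h σ ≤ n * ip h h := by
  have h1 : ∀ σ ∈ univ.filter (fun σ => ¬ Ind R σ), E a W h σ * E a W h σ ≤
      ∑ q, E a (At R W q) (res R q h) σ * E a (At R W q) (res R q h) σ := by
    intro σ hσ
    obtain ⟨q, hq⟩ := E_conf R a W h (fun τ hτ => (hK τ hτ).1) (Finset.mem_filter.1 hσ).2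
    rw [hq]
    exact Finset.single_le_sum (f := fun q => E a (At R W q) (res R q h) σ *
      E a (At R W q) (res R q h) σ) (fun q _ => mul_self_nonneg _) (Finset.mem_univ q)
  have h2 : ∑ σ ∈ univ.filter (fun σ => ¬ Ind R σ), E a W h σ * E a W h σ ≤
      ∑ q, ip (E a (At R W q) (res R q h)) (E a (At R W q) (res R q h)) := by
    refine (Finset.sum_le_sum h1).trans ?_
    rw [Finset.sum_comm]
    refine Finset.sum_le_sum fun q _ => ?_
    exact Finset.sum_le_sum_of_subset_of_nonneg (Finset.filter_subset _ _)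
      (fun σ _ _ => mul_self_nonneg _)
  refine h2.trans ((Finset.sum_le_sum fun q _ => E_le a (At R W q) (res R q h)).trans ?_)
  -- exchange
  have h3 : ∀ q, (∑ v ∈ At R W q, a v ^ 2) * ip (res R q h) (res R q h) =
      ∑ τ, (if ∃ v ∈ τ, R v q then (∑ v ∈ At R W q, a v ^ 2) else 0) * (h τ * h τ) := by
    intro q
    unfold ip
    rw [Finset.mul_sum]
    refine Finset.sum_congr rfl fun τ _ => ?_
    unfold res
    split_ifs <;> ring
  rw [Finset.sum_congr rfl fun q _ => h3 q, Finset.sum_comm]
  unfold ip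
  rw [Finset.mul_sum]
  refine Finset.sum_le_sum fun τ _ => ?_
  rw [← Finset.sum_mul]
  by_cases hτ : h τ = 0
  · rw [hτ]
    simp
  refine mul_le_mul_of_nonneg_right ?_ (mul_self_nonneg _)
  obtain ⟨k1, k2, k3⟩ := hK τ hτ
  have h4 : ∀ q, (if ∃ v ∈ τ, R v q then (∑ v ∈ At R W q, a v ^ 2) else 0) ≤
      ∑ v ∈ τ, if R v q then (∑ u ∈ At R univ q, a u ^ 2) else 0 := by
    intro q
    have hnn : ∀ v ∈ τ, (0 : ℝ) ≤ if R v q then (∑ u ∈ At R univ q, a u ^ 2) else 0 := by
      intro v _
      split_ifs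
      · exact Finset.sum_nonneg fun _ _ => sq_nonneg _
      · exact le_rfl
    split_ifs with hv
    · obtain ⟨v, hv1, hv2⟩ := hv
      refine le_trans ?_ (Finset.single_le_sum hnn hv1)
      rw [if_pos hv2]
      refine Finset.sum_le_sum_of_subset_of_nonneg ?_ (fun _ _ _ => sq_nonneg _)
      unfold At
      exact Finset.filter_subset_filter _ (Finset.subset_univ W)
    · exact Finset.sum_nonneg hnn
  refine (Finset.sum_le_sum fun q _ => h4 q).trans ?_
  rw [Finset.sum_comm]
  calc ∑ v ∈ τ, ∑ q, (if R v q then (∑ u ∈ At R univ q, a u ^ 2) else 0)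
      ≤ ∑ v ∈ τ, (1 : ℝ) := Finset.sum_le_sum fun v _ => by
        rw [← Finset.sum_filter]
        exact hw v
    _ = n := by
        rw [Finset.sum_const, k3, nsmul_eq_mul, mul_one]

/-- support conditions -/
def Sp (W : Finset V) (n : ℕ) (f : Finset V → ℝ) : Prop :=
  ∀ τ, f τ ≠ 0 → Ind R τ ∧ τ ⊆ W ∧ τ.card = n

theorem Sp.D (a : V → ℝ) {W : Finset V} {n : ℕ} {f : Finset V → ℝ} (hf : Sp R W (n + 1) f)
    (S : Finset V) : Sp R W n (D a S f) := by
  intro τ hτ
  rw [D_apply] at hτ
  obtain ⟨v, _, hv⟩ := Finset.exists_ne_zero_of_sum_ne_zero hτ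
  rw [dn_apply] at hv
  by_cases h1 : v ∈ τ
  · rw [if_pos h1] at hv
    simp at hv
  · rw [if_neg h1] at hv
    have h2 : f (insert v τ) ≠ 0 := fun h => hv (by rw [h]; ring)
    obtain ⟨k1, k2, k3⟩ := hf _ h2
    refine ⟨k1.mono R (Finset.subset_insert v τ), (Finset.subset_insert v τ).trans k2, ?_⟩
    rw [Finset.card_insert_of_notMem h1] at k3
    omega

/-- outside of `W` the operator does nothing -/
theorem D_eq (a : V → ℝ) {W : Finset V} {f : Finset V → ℝ} (hf : ∀ τ, f τ ≠ 0 → τ ⊆ W)
    {S : Finset V} (hS : W ⊆ S) : D a S f = D a W f := by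
  funext τ
  rw [D_apply, D_apply]
  symm
  refine Finset.sum_subset hS fun v _ hv => ?_
  rw [dn_apply]
  split_ifs with h1
  · ring
  · have : f (insert v τ) = 0 := by
      by_contra h2
      exact hv (hf _ h2 (Finset.mem_insert_self v τ))
    rw [this]
    ring

open Classical in
/-- **the cycles are boundaries** -/
theorem acyclic (a : V → ℝ) (W : Finset V) (n : ℕ)
    (hw : ∀ v, ∑ q ∈ univ.filter (fun q => R v q), ∑ u ∈ At R univ q, a u ^ 2 ≤ 1)
    (hW : (n : ℝ) < ∑ v ∈ W, a v ^ 2) {z : Finset V → ℝ} (hz : Sp R W n z)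
    (hD : D a univ z = 0) : ∃ c, Sp R W (n + 1) c ∧ D a univ c = z := by
  -- the projection
  let P : Module.End ℝ (Finset V → ℝ) :=
    { toFun := fun f σ => if Ind R σ ∧ σ ⊆ W ∧ σ.card = n + 1 then f σ else 0
      map_add' := fun f g => by
        funext σ
        simp only [Pi.add_apply]
        split_ifs <;> ring
      map_smul' := fun r f => by
        funext σ
        simp only [Pi.smul_apply, smul_eq_mul, RingHom.id_apply]
        split_ifs <;> ring }
  have hP : ∀ f σ, P f σ = if Ind R σ ∧ σ ⊆ W ∧ σ.card = n + 1 then f σ else 0 := fun _ _ => rfl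
  have hPsp : ∀ f, Sp R W (n + 1) (P f) := by
    intro f σ h
    rw [hP] at h
    by_contra h2
    exact h (if_neg h2)
  have hAB : ∀ x y : Finset V → ℝ, ∑ i, (D a W * P) x i * y i = ∑ i, x i * (P * E a W) y i := by
    intro x y
    have h1 : ∑ i, (D a W * P) x i * y i = ip (P x) (E a W y) := by
      rw [ip_comm, ip_E, ip_comm]
      rfl
    rw [h1]
    unfold ip
    refine Finset.sum_congr rfl fun σ _ => ?_
    rw [Module.End.mul_apply, hP, hP]
    split_ifs <;> ring
  obtain ⟨c0, h, hzc, hB⟩ := hodge (D a W * P) (P * E a W) hAB z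
  have hsp : Sp R W n h := by
    have h1 : h = z - D a W (P c0) := by
      rw [hzc]
      simp
    intro τ hτ
    rw [h1] at hτ
    by_cases h2 : z τ = 0
    · refine (hPsp c0).D R a W τ ?_
      intro h3
      apply hτ
      rw [Pi.sub_apply, h2, h3, sub_zero]
    · exact hz τ h2
  have hzW : D a W z = 0 := by
    rw [← D_eq a (fun τ hτ => (hz τ hτ).2.1) (Finset.subset_univ W)]
    exact hD
  have hDh : D a W h = 0 := by
    have h1 : D a W z = D a W ((D a W * P) c0) + D a W h := by
      rw [hzc, map_add]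
    have h2 : D a W ((D a W * P) c0) = 0 := by
      change (D a W * D a W) (P c0) = 0
      rw [D_sq]
      rfl
    rw [hzW, h2, zero_add] at h1
    exact h1.symm
  have hE : ip (E a W h) (E a W h) ≤ n * ip h h := by
    refine le_trans (le_of_eq ?_) (conf_le R a W h n hsp hw)
    unfold ip
    symm
    refine Finset.sum_subset (Finset.filter_subset _ _) fun σ _ hσ => ?_
    have hσ' : Ind R σ := by
      by_contra h1
      exact hσ (Finset.mem_filter.2 ⟨Finset.mem_univ _, h1⟩)
    have h0 : E a W h σ = 0 := by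
      by_contra h1
      have h2 : σ ⊆ W ∧ σ.card = n + 1 := by
        have h3 := h1
        rw [E_apply] at h3
        obtain ⟨v, hvW, hv⟩ := Finset.exists_ne_zero_of_sum_ne_zero h3
        rw [up_apply] at hv
        by_cases h4 : v ∈ σ
        · rw [if_pos h4] at hv
          have h5 : h (σ.erase v) ≠ 0 := fun h => hv (by rw [h]; ring)
          obtain ⟨_, k2, k3⟩ := hsp _ h5
          constructor
          · intro u hu
            by_cases huv : u = v
            · rw [huv]
              exact hvW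
            · exact k2 (Finset.mem_erase.2 ⟨huv, hu⟩)
          · rw [Finset.card_erase_of_mem h4] at k3
            have := Finset.card_pos.2 ⟨v, h4⟩
            omega
        · rw [if_neg h4] at hv
          simp at hv
      have h3 := congrFun hB σ
      rw [Module.End.mul_apply, hP, if_pos ⟨hσ', h2⟩] at h3
      exact h1 h3
    rw [h0]
    ring
  have hb := bochner a W h
  rw [hDh] at hb
  have h0 : ip (0 : Finset V → ℝ) 0 = 0 := by simp [ip]
  rw [h0, add_zero] at hb
  have h1 : ip h h = 0 := by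
    have h2 := ip_nonneg h
    by_contra h3
    have h4 : 0 < ip h h := lt_of_le_of_ne h2 (Ne.symm h3)
    have h5 := mul_lt_mul_of_pos_right hW h4
    linarith
  have h2 := ip_eq_zero h1
  rw [h2, add_zero] at hzc
  refine ⟨P c0, hPsp c0, ?_⟩
  rw [D_eq a (fun τ hτ => (hPsp c0 τ hτ).2.1) (Finset.subset_univ W)]
  exact hzc.symm

end acyc

end Pool.Agent.Helper63.HM
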