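import Pool.Agent.Helper63.HM.Deficit

/-!
# MP_47cd0b (room C): level 3 from arbitrary shares, the absolute route
-/

set_option autoImplicit false
set_option linter.unusedSectionVars false

namespace Pool.Agent.Helper63.Deficit

open Pool.Agent.Helper28.BPack Pool.Agent.Helper61.Motz Pool.Agent.Helper38.Thick
  Pool.Agent.Helper38.SC Pool.Agent.Helper56.BP

variable {L : Type} [Lattice L] [BoundedOrder L] [Finite L] [IsUpperModularLattice L]

section

variable [DecidableEq L] [DecidableRel (α := L) (· ≤ ·)] {A : Finset L} {Q o u : L} {ρ : L → L}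

/-- The lines which the point `x` may use: the pencils of `x` in the planes of its owned rows. -/
noncomputable def WL (A : Finset L) (own : L → Finset L) (pl : L → L) (x : L) : Finset L :=
  (own x).biUnion (fun c => pen A x (x ⊔ c) (pl (x ⊔ c)))

/-- **Rank four from a state in the cone frame and ANY shares `τ x g` with total deficit less than
one.** -/
theorem crit4_of_tau (F : FrC A Q o u ρ) {Rep : Finset L} (hRep : Rep ⊆ RC A Q o u ρ)
    {own : L → Finset L} {pl : L → L}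
    (S : Sta A (NC A Q o \ Rep) u (ZC o) Rep (ADC A Q o u) own pl)
    {τ : L → L → ℚ} (hτ0 : ∀ x g, 0 ≤ τ x g)
    (hτ1 : ∀ g, rk g = 2 →
      ∑ x ∈ (NC A Q o \ Rep).filter (fun x => g ∈ WL A own pl x), τ x g ≤ 1)
    (hval : ∑ x ∈ NC A Q o \ Rep, max 0 (1 - ∑ g ∈ WL A own pl x, τ x g) < 1) :
    Crit4 A := by
  classical
  refine crit4_of_match_cone F hRep S (Ls := fun x c => pen A x (x ⊔ c) (pl (x ⊔ c))) ?_
  set R : Finset L := NC A Q o \ Rep with hR
  have hrk : ∀ x ∈ R, ∀ g ∈ WL A own pl x, rk g = 2 := by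
    intro x hx g hg
    obtain ⟨c, hc, h2⟩ := Finset.mem_biUnion.mp hg
    exact (pen_spec F.at_ (S.mem x hx) (S.ownA x hx c hc).1
      (fun e => S.off x hx (by rw [e]; exact (S.ownA x hx c hc).2)) (S.pln x hx c hc).2.1
      (S.pln x hx c hc).2.2.1 h2).1
  obtain ⟨G, hGinj, hG⟩ := hall_deficit (X := R) (Y := L) (fun x => WL A own pl x.1)
    (fun x g => τ x.1 g) (fun x g => hτ0 x.1 g)
    (by
      rw [← Finset.sum_coe_sort R] at hval
      exact hval)
    (fun g => by
      have e : ∑ x ∈ (Finset.univ : Finset R).filter (fun x => g ∈ WL A own pl x.1), τ x.1 g =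
          ∑ x ∈ R.filter (fun x => g ∈ WL A own pl x), τ x g := by
        refine Finset.sum_bij (fun x _ => x.1) ?_ ?_ ?_ ?_
        · intro x hx
          exact Finset.mem_filter.mpr ⟨x.2, (Finset.mem_filter.mp hx).2⟩
        · intro x _ y _ h
          exact Subtype.ext h
        · intro y hy
          exact ⟨⟨y, (Finset.mem_filter.mp hy).1⟩,
            Finset.mem_filter.mpr ⟨Finset.mem_univ _, (Finset.mem_filter.mp hy).2⟩, rfl⟩
        · intro x _
          rfl
      rw [e]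
      by_cases hne : (R.filter (fun x => g ∈ WL A own pl x)).Nonempty
      · obtain ⟨y, hy⟩ := hne
        exact hτ1 g (hrk y (Finset.mem_filter.mp hy).1 g (Finset.mem_filter.mp hy).2)
      · rw [Finset.not_nonempty_iff_eq_empty] at hne
        rw [hne]
        simp)
  have hz : ∀ x ∈ R, ∃ c z, c ∈ own x ∧ z ∈ A ∧ z ≤ pl (x ⊔ c) ∧ ¬ z ≤ x ⊔ c ∧
      x ⊔ z = (if hx : x ∈ R then G ⟨x, hx⟩ else x) ∧
      x ⊔ z ∈ pen A x (x ⊔ c) (pl (x ⊔ c)) := by
    intro x hx
    obtain ⟨c, hc, h2⟩ := Finset.mem_biUnion.mp (hG ⟨x, hx⟩)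
    obtain ⟨z, h3, h4, h5, h6⟩ := mem_pen.mp h2
    exact ⟨c, z, hc, h3, h4, h5, by rw [dif_pos hx]; exact h6, by rw [h6]; exact h2⟩
  choose! cc gg h1 h2 h3 h4 h5 h6 using hz
  refine ⟨cc, gg, fun x hx => ⟨h1 x hx, h2 x hx, h3 x hx, h4 x hx, h6 x hx⟩, ?_⟩
  intro x hx y hy e
  rw [h5 x hx, h5 y hy, dif_pos hx, dif_pos hy] at e
  exact congrArg Subtype.val (hGinj e)

/-- **The absolute route**: the shares `1 / (number of users on g)`. -/
theorem crit4_of_abs (F : FrC A Q o u ρ) {Rep : Finset L} (hRep : Rep ⊆ RC A Q o u ρ)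
    {own : L → Finset L} {pl : L → L}
    (S : Sta A (NC A Q o \ Rep) u (ZC o) Rep (ADC A Q o u) own pl)
    (hval : ∑ x ∈ NC A Q o \ Rep, max 0 (1 - ∑ g ∈ WL A own pl x,
      (1 : ℚ) / ((NC A Q o \ Rep).filter (· ≤ g)).card) < 1) : Crit4 A := by
  classical
  refine crit4_of_tau F hRep S (τ := fun _ g => (1 : ℚ) / ((NC A Q o \ Rep).filter (· ≤ g)).card)
    (fun _ g => by positivity) ?_ hval
  intro g _
  have hsub : (NC A Q o \ Rep).filter (fun x => g ∈ WL A own pl x) ⊆
      (NC A Q o \ Rep).filter (· ≤ g) := by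
    intro x hx
    obtain ⟨hx1, hx2⟩ := Finset.mem_filter.mp hx
    obtain ⟨c, hc, h2⟩ := Finset.mem_biUnion.mp hx2
    refine Finset.mem_filter.mpr ⟨hx1, ?_⟩
    exact (pen_spec F.at_ (S.mem x hx1) (S.ownA x hx1 c hc).1
      (fun e => S.off x hx1 (by rw [e]; exact (S.ownA x hx1 c hc).2)) (S.pln x hx1 c hc).2.1
      (S.pln x hx1 c hc).2.2.1 h2).2.1
  rw [Finset.sum_const, nsmul_eq_mul, mul_one_div]
  apply div_le_one_of_le₀
  · exact_mod_cast Finset.card_le_card hsub
  · positivity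

/-- **The absolute route with one slot per user**: a row `x ⊔ m x` and a plane `P x` for every user,
rows different, planes different, and the total deficit of the shares is less than one. -/
theorem crit4_of_mP (F : FrC A Q o u ρ) {Rep : Finset L} (hRep : Rep ⊆ RC A Q o u ρ) {m P : L → L}
    (hm : ∀ x ∈ NC A Q o \ Rep, m x ∈ A ∧ m x ≤ u ∧ ¬ o ≤ x ⊔ m x ∧ ADC A Q o u (x ⊔ m x) (P x) ∧
      ∀ z ∈ Rep, ¬ z ≤ x ⊔ m x)
    (hmi : ∀ x ∈ NC A Q o \ Rep, ∀ y ∈ NC A Q o \ Rep, x ⊔ m x = y ⊔ m y → x = y)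
    (hPi : ∀ x ∈ NC A Q o \ Rep, ∀ y ∈ NC A Q o \ Rep, P x = P y → x = y)
    (hval : ∑ x ∈ NC A Q o \ Rep, max 0 (1 - ∑ g ∈ pen A x (x ⊔ m x) (P x),
      (1 : ℚ) / ((NC A Q o \ Rep).filter (· ≤ g)).card) < 1) : Crit4 A := by
  classical
  set R : Finset L := NC A Q o \ Rep with hR
  -- the plane of a row
  let pl : L → L := fun k => if h : ∃ x ∈ R, x ⊔ m x = k then P h.choose else k
  have hpl : ∀ x ∈ R, pl (x ⊔ m x) = P x := by
    intro x hx
    have h : ∃ y ∈ R, y ⊔ m y = x ⊔ m x := ⟨x, hx, rfl⟩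
    have h1 : pl (x ⊔ m x) = P h.choose := dif_pos h
    rw [h1]
    have h2 := h.choose_spec
    rw [hmi _ h2.1 x hx h2.2]
  have S : Sta A R u (ZC o) Rep (ADC A Q o u) (fun x => {m x}) pl := by
    refine ⟨F.at_, F.ru, ?_, ?_, ?_, ?_, ?_, ?_, ?_, ?_, ?_⟩
    · intro v hv
      exact (mem_NC.mp (Finset.mem_sdiff.mp hv).1).1
    · intro v hv
      exact F.off (mem_NC.mp (Finset.mem_sdiff.mp hv).1).2.1
    · intro v hv c hc
      rw [Finset.mem_singleton.mp hc]
      exact ⟨(hm v hv).1, (hm v hv).2.1⟩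
    · intro v hv c hc
      rw [Finset.mem_singleton.mp hc]
      exact (hm v hv).2.2.1
    · intro v hv c hc
      rw [Finset.mem_singleton.mp hc]
      exact (hm v hv).2.2.2.2
    · intro v hv v' hv' c hc hc' e
      rw [Finset.mem_singleton.mp hc] at e
      have h1 : m v = m v' := by
        rw [← Finset.mem_singleton.mp hc, ← Finset.mem_singleton.mp hc']
      refine hmi v hv v' hv' ?_
      rw [e, h1]
    · intro v hv c hc
      rw [Finset.mem_singleton.mp hc, hpl v hv]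
      have h1 := (hm v hv).2.2.2.1
      exact ⟨h1, h1.1, h1.2.1, h1.2.2.1⟩
    · intro v hv c hc v' hv' c' hc' e
      rw [Finset.mem_singleton.mp hc, Finset.mem_singleton.mp hc', hpl v hv, hpl v' hv'] at e
      have h1 := hPi v hv v' hv' e
      refine ⟨h1, ?_⟩
      rw [Finset.mem_singleton.mp hc, Finset.mem_singleton.mp hc', h1]
    · intro v hv
      simp
  refine crit4_of_abs F hRep S ?_
  refine lt_of_eq_of_lt (Finset.sum_congr rfl fun x hx => ?_) hval
  have h1 : WL A (fun x => {m x}) pl x = pen A x (x ⊔ m x) (P x) := by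
    show ({m x} : Finset L).biUnion _ = _
    rw [Finset.singleton_biUnion, hpl x hx]
  rw [h1]

end

end Pool.Agent.Helper63.Deficit
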