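import Pool.Agent.Helper63.HM.Super

/-!
# MP_47cd0b (room C): level 3 without shares (helper86: P-voting, first row owned)

In the cone frame let every user `x` have a row `x ⊔ m x` and a plane `P x`, rows and planes different.

* `crit4_of_tag`: a line `x ⊔ gg x` of the pencil of `x` whose tag (a colour which depends on the line
  only) is the colour `m x`.
* `crit4_of_first`: the groups (planes over `u`) are ordered; the first group which has a user in the
  plane `P x` has its row in `P x` owned.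
* `crit4_of_voted`: one group `P0`; every user outside `P0` has a plane over an owned row of `P0`.
-/

set_option autoImplicit false
set_option linter.unusedSectionVars false

namespace Pool.Agent.Helper63.Voted

open Pool.Agent.Helper28.BPack Pool.Agent.Helper61.Motz Pool.Agent.Helper38.Thick
  Pool.Agent.Helper38.SC Pool.Agent.Helper56.BP Pool.Agent.Helper63.Deficit

variable {L : Type} [Lattice L] [BoundedOrder L] [Finite L] [IsUpperModularLattice L]

section

variable [DecidableEq L] [DecidableRel (α := L) (· ≤ ·)] {A : Finset L} {Q o u : L} {ρ : L → L}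

/-- A row and a plane for every user of the cone frame, rows different, planes different. -/
structure MP1 (A : Finset L) (Q o u : L) (Rep : Finset L) (m P : L → L) : Prop where
  hm : ∀ x ∈ NC A Q o \ Rep, m x ∈ A ∧ m x ≤ u ∧ ¬ o ≤ x ⊔ m x ∧ ADC A Q o u (x ⊔ m x) (P x) ∧
    ∀ z ∈ Rep, ¬ z ≤ x ⊔ m x
  hmi : ∀ x ∈ NC A Q o \ Rep, ∀ y ∈ NC A Q o \ Rep, x ⊔ m x = y ⊔ m y → x = y
  hPi : ∀ x ∈ NC A Q o \ Rep, ∀ y ∈ NC A Q o \ Rep, P x = P y → x = y

/-- The state of one slot for every user. -/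
theorem MP1.sta (F : FrC A Q o u ρ) {Rep : Finset L} {m P : L → L} (M : MP1 A Q o u Rep m P) :
    ∃ pl : L → L, Sta A (NC A Q o \ Rep) u (ZC o) Rep (ADC A Q o u) (fun x => {m x}) pl ∧
      ∀ x ∈ NC A Q o \ Rep, pl (x ⊔ m x) = P x := by
  classical
  obtain ⟨hm, hmi, hPi⟩ := M
  set R : Finset L := NC A Q o \ Rep with hR
  let pl : L → L := fun k => if h : ∃ x ∈ R, x ⊔ m x = k then P h.choose else k
  have hpl : ∀ x ∈ R, pl (x ⊔ m x) = P x := by
    intro x hx
    have h : ∃ y ∈ R, y ⊔ m y = x ⊔ m x := ⟨x, hx, rfl⟩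
    have h1 : pl (x ⊔ m x) = P h.choose := dif_pos h
    rw [h1]
    have h2 := h.choose_spec
    rw [hmi _ h2.1 x hx h2.2]
  refine ⟨pl, ⟨F.at_, F.ru, ?_, ?_, ?_, ?_, ?_, ?_, ?_, ?_, ?_⟩, hpl⟩
  · intro v hv
    exact (mem_NC.mp (Finset.mem_sdiff.mp hv).1).1
  · intro v hv
    exact F.off (mem_NC.mp (Finset.mem_sdiff.mp hv).1).2.1
  · intro v hv c hc
    rw [Finset.mem_singleton.mp hc]
    exact ⟨(hm v hv).1, (hm v hv).2.1⟩
  · intro v hv c hc
    rw [Finset.mem_singleton.mp hc]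
    exact (hm v hv).2.2.1
  · intro v hv c hc
    rw [Finset.mem_singleton.mp hc]
    exact (hm v hv).2.2.2.2
  · intro v hv v' hv' c hc hc' e
    rw [Finset.mem_singleton.mp hc] at e
    have h1 : m v = m v' := by
      rw [← Finset.mem_singleton.mp hc, ← Finset.mem_singleton.mp hc']
    refine hmi v hv v' hv' ?_
    rw [e, h1]
  · intro v hv c hc
    rw [Finset.mem_singleton.mp hc, hpl v hv]
    have h1 := (hm v hv).2.2.2.1
    exact ⟨h1, h1.1, h1.2.1, h1.2.2.1⟩
  · intro v hv c hc v' hv' c' hc' e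
    rw [Finset.mem_singleton.mp hc, Finset.mem_singleton.mp hc', hpl v hv, hpl v' hv'] at e
    have h1 := hPi v hv v' hv' e
    refine ⟨h1, ?_⟩
    rw [Finset.mem_singleton.mp hc, Finset.mem_singleton.mp hc', h1]
  · intro v hv
    simp

/-- **Level 3 from tags**: the line `x ⊔ gg x` of every user has the tag `m x`, the tag is a function of
the line. -/
theorem crit4_of_tag (F : FrC A Q o u ρ) {Rep : Finset L} (hRep : Rep ⊆ RC A Q o u ρ) {m P : L → L}
    (M : MP1 A Q o u Rep m P) {gg χ : L → L}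
    (hg : ∀ x ∈ NC A Q o \ Rep, gg x ∈ A ∧ gg x ≤ P x ∧ ¬ gg x ≤ x ⊔ m x)
    (hχ : ∀ x ∈ NC A Q o \ Rep, χ (x ⊔ gg x) = m x) : Crit4 A := by
  classical
  obtain ⟨pl, S, hpl⟩ := M.sta F
  refine crit4_of_match_cone F hRep S (Ls := fun x c => pen A x (x ⊔ c) (pl (x ⊔ c)))
    ⟨m, gg, ?_, ?_⟩
  · intro x hx
    obtain ⟨h1, h2, h3⟩ := hg x hx
    refine ⟨Finset.mem_singleton_self _, h1, ?_, h3, ?_⟩
    · rw [hpl x hx]
      exact h2
    · rw [hpl x hx]
      exact mem_pen.mpr ⟨gg x, h1, h2, h3, rfl⟩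
  · intro x hx y hy e
    have hc : m x = m y := by rw [← hχ x hx, ← hχ y hy, e]
    have hs : ∀ z ∈ NC A Q o \ Rep, (z ⊔ gg z) ⊔ m z = P z := by
      intro z hz
      obtain ⟨h1, h2, h3⟩ := hg z hz
      obtain ⟨k1, k2, k3, k4, k5⟩ := M.hm z hz
      exact (pen_spec F.at_ (S.mem z hz) k1 (fun e' => S.off z hz (by rw [e']; exact k2)) k4.1
        k4.2.1 (mem_pen.mpr ⟨gg z, h1, h2, h3, rfl⟩)).2.2.2.2
    apply M.hPi x hx y hy
    rw [← hs x hx, ← hs y hy, e, hc]

/-- A point of the plane `H` in the group of `x` is on the row of `x`. -/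
theorem row_of_group (F : FrC A Q o u ρ) {x c H z : L} (hx : x ∈ A) (hxu : ¬ x ≤ u) (hc : c ∈ A)
    (hcu : c ≤ u) (hH : rk H = 3) (hk : x ⊔ c ≤ H) (huH : ¬ u ≤ H) (hz : z ∈ A) (hzH : z ≤ H)
    (hzx : z ≤ u ⊔ x) : z ≤ x ⊔ c := by
  by_contra hn
  have hxc : x ≠ c := fun e => hxu (by rw [e]; exact hcu)
  have h1 : rk (x ⊔ c ⊔ z) = 3 := by
    rw [rk_sup_atom (F.at_ z hz) hn, rk_line (F.at_ x hx) (F.at_ c hc) hxc]
  have h2 : x ⊔ c ⊔ z = H := eq_of_le_of_rk (sup_le hk hzH) (by rw [h1, hH])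
  have h3 : x ⊔ c ⊔ z = u ⊔ x := by
    refine eq_of_le_of_rk (sup_le (sup_le le_sup_right (hcu.trans le_sup_left)) hzx) ?_
    rw [h1, rk_sup_atom (F.at_ x hx) hxu, F.ru]
  exact huH (by rw [← h2, h3]; exact le_sup_left)

/-- **First row owned** (helper86).  `f` orders the groups. -/
theorem crit4_of_first (F : FrC A Q o u ρ) {Rep : Finset L} (hRep : Rep ⊆ RC A Q o u ρ)
    {m P : L → L} (M : MP1 A Q o u Rep m P)
    (hw : ∀ x ∈ NC A Q o \ Rep, ∃ z ∈ A, z ≤ P x ∧ ¬ z ≤ x ⊔ m x)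
    {f : L → ℕ} (hf : ∀ x ∈ NC A Q o \ Rep, ∀ y ∈ NC A Q o \ Rep, f (u ⊔ x) = f (u ⊔ y) →
      u ⊔ x = u ⊔ y)
    (h1st : ∀ x ∈ NC A Q o \ Rep, ∃ y ∈ NC A Q o \ Rep, y ≤ P x ∧ m y = m x ∧
      ∀ z ∈ NC A Q o \ Rep, z ≤ P x → f (u ⊔ y) ≤ f (u ⊔ z)) : Crit4 A := by
  classical
  set R : Finset L := NC A Q o \ Rep with hR
  have hmem : ∀ x ∈ R, x ∈ A := fun x hx => (mem_NC.mp (Finset.mem_sdiff.mp hx).1).1
  have hoff : ∀ x ∈ R, ¬ x ≤ u := fun x hx => F.off (mem_NC.mp (Finset.mem_sdiff.mp hx).1).2.1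
  -- the top user of a line
  have hT : ∀ g : L, (∃ x ∈ R, x ≤ g) → ∃ y ∈ R, y ≤ g ∧ ∀ z ∈ R, z ≤ g → f (u ⊔ y) ≤ f (u ⊔ z) := by
    intro g hg
    obtain ⟨x, hx, hxg⟩ := hg
    obtain ⟨y, hy, hmin⟩ := Finset.exists_min_image (R.filter (· ≤ g)) (fun z => f (u ⊔ z))
      ⟨x, Finset.mem_filter.mpr ⟨hx, hxg⟩⟩
    obtain ⟨hy1, hy2⟩ := Finset.mem_filter.mp hy
    exact ⟨y, hy1, hy2, fun z hz hzg => hmin z (Finset.mem_filter.mpr ⟨hz, hzg⟩)⟩
  let T : L → L := fun g => if h : ∃ x ∈ R, x ≤ g then (hT g h).choose else g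
  have hTs : ∀ x ∈ R, ∀ g, x ≤ g → T g ∈ R ∧ T g ≤ g ∧ ∀ z ∈ R, z ≤ g →
      f (u ⊔ T g) ≤ f (u ⊔ z) := by
    intro x hx g hxg
    have h : ∃ x ∈ R, x ≤ g := ⟨x, hx, hxg⟩
    have h1 : T g = (hT g h).choose := dif_pos h
    rw [h1]
    exact (hT g h).choose_spec
  choose! Y hYR hYP hYm hYf using h1st
  choose! w hwA hwP hwk using hw
  -- points of `P x` in the group of a user `y` which owns its row in `P x`
  have hgr : ∀ x ∈ R, ∀ y ∈ R, y ≤ P x → m y = m x → ∀ z ∈ R, z ≤ P x → u ⊔ z = u ⊔ y →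
      z ≤ y ⊔ m y := by
    intro x hx y hy hyP hym z hz hzP hzy
    obtain ⟨k1, k2, k3, k4, k5⟩ := M.hm x hx
    obtain ⟨l1, l2, l3, l4, l5⟩ := M.hm y hy
    refine row_of_group F (hmem y hy) (hoff y hy) l1 l2 k4.1 ?_ k4.2.2.1 (hmem z hz) hzP ?_
    · exact sup_le hyP (by rw [hym]; exact le_sup_right.trans k4.2.1)
    · rw [← hzy]
      exact le_sup_right
  refine crit4_of_tag F hRep M (gg := fun x => if Y x ≤ x ⊔ m x then w x else Y x)
    (χ := fun g => m (T g)) ?_ ?_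
  · intro x hx
    by_cases h : Y x ≤ x ⊔ m x
    · simp only [if_pos h]
      exact ⟨hwA x hx, hwP x hx, hwk x hx⟩
    · simp only [if_neg h]
      exact ⟨hmem _ (hYR x hx), hYP x hx, h⟩
  · intro x hx
    obtain ⟨k1, k2, k3, k4, k5⟩ := M.hm x hx
    have hxc : x ≠ m x := fun e => hoff x hx (by rw [e]; exact k2)
    have hxP : x ≤ P x := le_sup_left.trans k4.2.1
    by_cases h : Y x ≤ x ⊔ m x
    · -- the row of `x` is the first row
      simp only [if_pos h]
      have hrow : Y x ⊔ m x = x ⊔ m x := F.fr.row (Finset.mem_sdiff.mp hx).1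
        (Finset.mem_sdiff.mp (hYR x hx)).1 k1 k2 h
      have hYx : Y x = x := M.hmi _ (hYR x hx) x hx (by rw [hYm x hx, hrow])
      set g : L := x ⊔ w x with hg
      have hgP : g ≤ P x := sup_le hxP (hwP x hx)
      obtain ⟨t1, t2, t3⟩ := hTs x hx g le_sup_left
      have h1 : f (u ⊔ T g) = f (u ⊔ x) := by
        apply le_antisymm (t3 x hx le_sup_left)
        have := hYf x hx (T g) t1 (t2.trans hgP)
        rw [hYx] at this
        exact this
      have h2 : u ⊔ T g = u ⊔ x := hf _ t1 x hx h1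
      have h3 : T g ≤ x ⊔ m x := hgr x hx x hx hxP rfl (T g) t1 (t2.trans hgP) h2
      have h4 : T g = x := by
        by_contra hne
        have hr2 : rk g = 2 := rk_line (F.at_ x (hmem x hx)) (F.at_ _ (hwA x hx))
          (fun e => hwk x hx (by rw [← e]; exact le_sup_left))
        have hk2 : rk (x ⊔ m x) = 2 := rk_line (F.at_ x (hmem x hx)) (F.at_ _ k1) hxc
        have h5 : g = x ⊔ m x := line_two (F.at_ _ (hmem _ t1)) (F.at_ x (hmem x hx)) hne t2
          le_sup_left hr2 h3 le_sup_left hk2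
        exact hwk x hx (by rw [← h5]; exact le_sup_right)
      rw [h4]
    · simp only [if_neg h]
      set y : L := Y x with hy
      have hyR := hYR x hx
      have hyx : x ≠ y := fun e => h (by rw [← e]; exact le_sup_left)
      set g : L := x ⊔ y with hg
      have hgP : g ≤ P x := sup_le hxP (hYP x hx)
      obtain ⟨t1, t2, t3⟩ := hTs x hx g le_sup_left
      have h1 : f (u ⊔ T g) = f (u ⊔ y) :=
        le_antisymm (t3 y hyR le_sup_right) (hYf x hx (T g) t1 (t2.trans hgP))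
      have h2 : u ⊔ T g = u ⊔ y := hf _ t1 y hyR h1
      have h3 : T g ≤ y ⊔ m y :=
        hgr x hx y hyR (hYP x hx) (hYm x hx) (T g) t1 (t2.trans hgP) h2
      have h4 : T g = y := by
        by_contra hne
        have hr2 : rk g = 2 := rk_line (F.at_ x (hmem x hx)) (F.at_ _ (hmem y hyR)) hyx
        obtain ⟨l1, l2, l3, l4, l5⟩ := M.hm y hyR
        have hyc : y ≠ m y := fun e => hoff y hyR (by rw [e]; exact l2)
        have hk2 : rk (y ⊔ m y) = 2 := rk_line (F.at_ y (hmem y hyR)) (F.at_ _ l1) hyc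
        have h5 : g = y ⊔ m y := line_two (F.at_ _ (hmem _ t1)) (F.at_ y (hmem y hyR)) hne t2
          le_sup_right hr2 h3 le_sup_left hk2
        -- then `x` is on the row of `y`
        have h6 : x ≤ y ⊔ m y := by rw [← h5]; exact le_sup_left
        have h7 : x ⊔ m y = y ⊔ m y := F.fr.row (Finset.mem_sdiff.mp hyR).1
          (Finset.mem_sdiff.mp hx).1 l1 l2 h6
        apply h
        rw [← hYm x hx, h7]
        exact le_sup_left
      rw [h4]
      exact hYm x hx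

/-- **P-voting** (helper86).  One group `P0`; every user outside `P0` has a plane over the row of a user
of `P0` with the same colour. -/
theorem crit4_of_voted (F : FrC A Q o u ρ) {Rep : Finset L} (hRep : Rep ⊆ RC A Q o u ρ)
    {m P : L → L} (M : MP1 A Q o u Rep m P)
    (hw : ∀ x ∈ NC A Q o \ Rep, ∃ z ∈ A, z ≤ P x ∧ ¬ z ≤ x ⊔ m x)
    {P0 : L} (hP0 : u ≤ P0) (hr0 : rk P0 = 3)
    (hv : ∀ x ∈ NC A Q o \ Rep, ¬ x ≤ P0 → ∃ y ∈ NC A Q o \ Rep, y ≤ P0 ∧ y ≤ P x ∧ m y = m x) :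
    Crit4 A := by
  classical
  obtain ⟨e, he⟩ := exists_injective_nat L
  have hin : ∀ y ∈ NC A Q o \ Rep, y ≤ P0 → u ⊔ y = P0 := by
    intro y hy hyP
    have h1 := mem_NC.mp (Finset.mem_sdiff.mp hy).1
    exact eq_of_le_of_rk (sup_le hP0 hyP) (by
      rw [rk_sup_atom (F.at_ y h1.1) (F.off h1.2.1), F.ru, hr0])
  refine crit4_of_first F hRep M hw (f := fun p => if p = P0 then 0 else e p + 1) ?_ ?_
  · intro x hx y hy h
    by_cases h1 : u ⊔ x = P0
    · by_cases h2 : u ⊔ y = P0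
      · rw [h1, h2]
      · simp only [if_pos h1, if_neg h2] at h
        omega
    · by_cases h2 : u ⊔ y = P0
      · simp only [if_neg h1, if_pos h2] at h
        omega
      · simp only [if_neg h1, if_neg h2] at h
        exact he (by omega)
  · intro x hx
    by_cases h : x ≤ P0
    · obtain ⟨k1, k2, k3, k4, k5⟩ := M.hm x hx
      refine ⟨x, hx, le_sup_left.trans k4.2.1, rfl, fun z hz hzP => ?_⟩
      simp only [if_pos (hin x hx h)]
      exact Nat.zero_le _
    · obtain ⟨y, hy, hy0, hyP, hym⟩ := hv x hx h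
      refine ⟨y, hy, hyP, hym, fun z hz hzP => ?_⟩
      simp only [if_pos (hin y hy hy0)]
      exact Nat.zero_le _

end

end Pool.Agent.Helper63.Voted
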